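import Pool.Agent.MP_1ba41f_an.S2.KP.Asm0

/-! Assembly of the long arcs. -/

noncomputable section
open Set Complex
open scoped ComplexConjugate

namespace Pool.Agent.MP_1ba41f_an.S2.KP

theorem Asm.low {c G w : ℝ} (c0 : 0 < c) (h1 : 2 * c ≤ G) (h2 : G ^ 2 ≤ 2 * w ^ 2) (h3 : 0 ≤ w) :
    c ≤ w := by
  by_contra hn
  nlinarith

open Asm in
theorem kepOf (hE : FlowEStmt) (hR : RealEStmt) (hP : RepStmt) (hC : ConsStmt) (hm : RminStmt)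
    (hL : LimStmt) (h1 : P1Stmt) (hS : S1Stmt) (hF : FinStmt) (hLo : LongStmt) (hNu : NuStmt)
    (hNe : NearStmt) (hMo : ModStmt) (hN2 : Near2Stmt) (hA : AlgAStmt) (hM : AlgMStmt)
    (h0 : BaseStmt) (hT : FL.TubeStmt) : KepStmt := by
  obtain ⟨dS, c0, s1, dS0, c00, s10, hS⟩ := hS
  obtain ⟨hmod, ⟨dW, dW0, hW⟩, c1, c10, dG, dG0, hG⟩ := hMo
  obtain ⟨d0, d00, C, C1, hNa, hNb⟩ := hNe
  obtain ⟨Bt, -, hBt⟩ := hT
  refine ⟨s1, c0, c1, s10, c00, c10, fun sa e1 sa0 e10 => ?_⟩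
  obtain ⟨dL, dL0, εL, εL0, hLo⟩ := hLo C C1
  obtain ⟨B, B0, hF⟩ := hF C C1
  obtain ⟨d1, d10, h1⟩ := h1 sa e1 e10
  obtain ⟨ρ, ρ0, ρS, ρW, ρG, ρL, ρ1⟩ : ∃ ρ : ℝ, 0 < ρ ∧ 4 * ρ ≤ dS ∧ 4 * ρ ≤ dW ∧ 4 * ρ ≤ dG ∧
      4 * ρ ≤ dL ∧ 4 * ρ ≤ d1 := by
    refine ⟨min dS (min dW (min dG (min dL d1))) / 4, by positivity, ?_⟩
    have a1 := min_le_left dS (min dW (min dG (min dL d1)))
    have a2 := min_le_right dS (min dW (min dG (min dL d1)))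
    simp only [le_min_iff] at a2
    exact ⟨by linarith, by linarith [a2.1], by linarith [a2.2.1], by linarith [a2.2.2.1],
      by linarith [a2.2.2.2]⟩
  have ρS' : 2 * ρ ≤ dS := by linarith
  have ρW' : 2 * ρ ≤ dW := by linarith
  have ρG' : 2 * ρ ≤ dG := by linarith
  have ρL' : 2 * ρ ≤ dL := by linarith
  have ρ1' : 2 * ρ ≤ d1 := by linarith
  obtain ⟨dm, dm0, hmod⟩ := hmod ρ ρ0
  obtain ⟨d, dp, dd0, ddm, dρ, dc, d20⟩ : ∃ d : ℝ, 0 < d ∧ d ≤ d0 ∧ d ≤ dm ∧ d ≤ ρ ∧ d ≤ c1 ∧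
      d ≤ 1 / 20 := by
    refine ⟨min d0 (min dm (min ρ (min c1 (1 / 20)))), by positivity, ?_⟩
    have a2 := le_refl (min d0 (min dm (min ρ (min c1 (1 / 20)))))
    simpa only [le_min_iff] using a2
  refine ⟨d, B, dp, B0, fun R μ R0 μ0 => ?_⟩
  obtain ⟨εF, εF0, hF⟩ := hF (min μ ρ) (lt_min μ0 ρ0)
  obtain ⟨ε, ε0, εεF, εεL, ερ, εμ, ε40, εC, εsa⟩ : ∃ ε : ℝ, 0 < ε ∧ ε ≤ εF ∧ ε ≤ εL ∧ ε ≤ ρ ∧
      ε ≤ μ ∧ ε ≤ 1 / 40 ∧ ε ≤ 1 / (40 * C) ∧ ε ≤ 1 / sa := by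
    refine ⟨min εF (min εL (min ρ (min μ (min (1 / 40) (min (1 / (40 * C)) (1 / sa)))))),
      by positivity, ?_⟩
    have a2 := le_refl (min εF (min εL (min ρ (min μ (min (1 / 40) (min (1 / (40 * C)) (1 / sa)))))))
    simpa only [le_min_iff] using a2
  have εW : ε ≤ dW := by linarith
  have ε2 : ε ≤ 2 * ρ := by linarith
  have ε3 : ε + ρ ≤ 2 * ρ := by linarith
  have ε4 : ρ + d + ρ ≤ dW := by linarith
  have ε5 : ε + 1 / 20 ≤ 1 / 8 := by linarith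
  have ε6 : ε ≤ 1 := by linarith
  have c3 : c1 + d ≤ 2 * c1 := by linarith
  obtain ⟨δ2, δ20, hN2⟩ := hN2 _ (h0.1.cthickening (r := d0)) (fun x hx =>
    ⟨(hNa x hx).1, lt_of_lt_of_le (by norm_num) (hNa x hx).2.2.2.2.1,
      (hNa x hx).2.1, (hNa x hx).2.2.1⟩) ε ε0
  obtain ⟨δ, δ0, hNb⟩ := hNb (min δ2 ε) (lt_min δ20 ε0)
  obtain ⟨N, hN⟩ := hNu R (min (ε / 2) (δ / 2)) (by positivity)
  obtain ⟨hRn, ν0, ν00, ν03, νbig, ν0e, hν⟩ := hN (4 * N) (by omega)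
  have n0 : (0 : ℝ) < (4 * N : ℕ) := by linarith
  have l1 : min (ε / 2) (δ / 2) ≤ ε / 2 := min_le_left _ _
  have l2 : min (ε / 2) (δ / 2) ≤ δ / 2 := min_le_right _ _
  have big : 1 ≤ ε * ν0 := by nlinarith
  have bigC : 40 * C ≤ ν0 := by
    have : ε * (40 * C) ≤ 1 := (le_div_iff₀ (by positivity)).1 εC
    nlinarith
  have bigs : sa ≤ ν0 ^ 3 := by
    have a1 : ε * sa ≤ 1 := (le_div_iff₀ sa0).1 εsa
    have a2 : sa ≤ ν0 := by nlinarith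
    have a3 : 1 ≤ ν0 := by linarith
    exact a2.trans (le_self_pow₀ a3 (by norm_num))
  have n1 : (1 : ℝ) ≤ (4 * N : ℕ) := by
    rw [← ν03]; exact one_le_pow₀ (by linarith)
  have two : 4 * (1 / 4) < ν0 ^ 3 :=
    lt_of_lt_of_le (by linarith) (le_self_pow₀ (a := ν0) (by linarith) (by norm_num))
  have l3 : min (ε / 2) (δ / 2) ≤ ε := l1.trans (half_le_self ε0.le)
  refine ⟨4 * N, min (ε / (8 * (4 * N : ℕ))) (δ / 2), min (δ / 2) (1 / 8), hRn, by positivity,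
    by positivity, fun a ha j v hv => ?_⟩
  obtain ⟨hx, hto, hti, hH, hdT⟩ := hv
  have ha1 := ha.trans (min_le_left _ _)
  have ha2 := ha.trans (min_le_right _ _)
  have hx0 : v.1 ∈ Metric.cthickening d0 B1 := Metric.cthickening_mono dd0 _ hx
  obtain ⟨oM, oZ1, oZ2, oX, m40, k4, hj⟩ := hNa _ hx0
  obtain ⟨bC, bg, bS', ig, iS⟩ := hj j
  have hσ := sg_cases j
  have oZ : OkZ v.1.1 (PP (sg j) v.1.1 v.1.2) := by rcases hσ with h | h <;> rw [h] <;> assumption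
  obtain ⟨ν3, νn, νre, νsq, νk, νd, νim⟩ := hν _ hto
  have hy : ‖yN a (4 * N) v - yB v.1‖ ≤ δ := yN_near δ0 ha1 ha2
    ((hν 0 (by simpa using R0.le)).2.2.2.2.1.trans l2) (νk.trans l2)
    ((hν _ hti).2.2.2.2.1.trans l2) (hH.trans (min_le_right _ _))
  obtain ⟨oXa, sec2, sece, hσs⟩ := hNb _ hx0 a _ (ha1.trans (half_le_self δ0.le)) hy
  obtain ⟨nxi, ncoll, secr⟩ := hσs _ hσ
  obtain ⟨⟨x4, x5, ee, -, -, r2, r3, k3, k2, -⟩, hAr⟩ := hA a (sg j) _ hσ oXa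
  change xiN a (4 * N) j v 4 ≠ 0 at x4
  change xiN a (4 * N) j v 5 ≠ 0 at x5
  change e2 a (xiN a (4 * N) j v) = _ at ee
  change rr2 (coll a (xiN a (4 * N) j v)) = v.1.2.1 at r2
  change rr3 (coll a (xiN a (4 * N) j v)) = v.1.2.1 at r3
  change kk3 (coll a (xiN a (4 * N) j v)) = 1 / nu (4 * N) v.2.1.1 ^ 2 at k3
  change kk2 (coll a (xiN a (4 * N) j v)) = _ at k2
  change ‖xiN a (4 * N) j v - _‖ ≤ _ at nxi
  change ‖coll a (xiN a (4 * N) j v) - _‖ ≤ _ at ncoll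
  change Sec (xiN a (4 * N) j v 4 / xiN a (4 * N) j v 5 +
    xiN a (4 * N) j v 5 / xiN a (4 * N) j v 4) at secr
  change (∀ i, (yN a (4 * N) v i).im = 0) → RealXi (xiN a (4 * N) j v) ∧
    RealZ (coll a (xiN a (4 * N) j v)) ∧ _ at hAr
  have ξ2 : xiN a (4 * N) j v 2 = v.1.2.1 := rfl
  set ξ := xiN a (4 * N) j v with hξ
  set z := coll a ξ with hz
  set ν := nu (4 * N) v.2.1.1 with hνd
  have kn : ((4 * N : ℕ) : ℝ) * ‖kk2 z - 1‖ ≤ ε := by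
    rw [k2]
    refine k2_near ha2 (by rw [ν0e]; exact νd.trans l1) ?_
    have := mul_le_mul_of_nonneg_left (hH.trans (min_le_left _ _)) n0.le
    rwa [show ((4 * N : ℕ) : ℝ) * (ε / (8 * (4 * N : ℕ))) = ε / 8 by field_simp] at this
  have kn1 : ‖kk2 z - 1‖ ≤ ε := (le_mul_of_one_le_left (norm_nonneg _) n1).trans kn
  have kre : 0 < (kk2 z).re := by
    have := (abs_le.1 ((Complex.abs_re_le_norm _).trans (kn1.trans ε40))).1
    simp only [sub_re, one_re] at this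
    exact lt_of_lt_of_le (by norm_num) (le_sub_iff_add_le.1 this)
  obtain ⟨κ, hκ⟩ : ∃ κ, κ = sq (kk2 z) := ⟨_, rfl⟩
  have κ2 : kk2 z = κ ^ 2 := by rw [hκ, FL.Adm.sq_sq]
  have κ1 : ‖κ - 1‖ ≤ ‖kk2 z - 1‖ := hκ ▸ sq_sub_one _ kre
  have κ0 : κ ≠ 0 := hκ ▸ FL.Adm.sq_ne kre
  have k3' : kk3 z = (1 / ν) ^ 2 := by rw [k3, div_pow, one_pow]
  have m0 : v.1.2.1 ≠ 0 := oM.1
  have eng : Eng κ (1 / ν) z := by
    constructor
    · rw [← κ2, kk2, div_mul_cancel₀ _ (r2 ▸ m0)]; ring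
    · rw [← k3', kk3, div_mul_cancel₀ _ (r3 ▸ m0)]; ring
  obtain ⟨q1, q2, q3, q4, q5, q6, q7, q8⟩ := hN2 _ hx0 j z (ncoll.trans (min_le_left _ _))
  have ncε := ncoll.trans (min_le_right _ _)
  have dat : Dat C ε ν0 κ ν z := by
    refine ⟨C1, ?_, eng, ν00, big, νn.trans l3, ?_, ?_⟩
    · exact (norm_le_norm_add_norm_sub' z (collB (sg j) v.1.1 v.1.2)).trans
        ((add_le_add_right (ncε.trans ε6) _).trans bC)
    · rw [ν03]; exact (mul_le_mul_of_nonneg_left κ1 n0.le).trans kn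
    · have a1 := (Complex.abs_im_le_norm _).trans q8
      rw [← sub_add_cancel (aS3 z) (bS (sg j) v.1.1 v.1.2), add_im]
      exact (abs_add_le _ _).trans ((add_le_add a1 iS).trans ε5)
  have near : ∀ x0 ∈ B1, dist v.1 x0 ≤ d → ‖z - collB (sg j) x0.1 x0.2‖ ≤ 2 * ρ ∧
      ‖st z (κ ^ 2) ((1 / ν) ^ 2) - y0 (sg j) x0‖ ≤ 2 * ρ := fun x0 hx0 hd => by
    have a1 := (hmod x0 hx0 _ (hd.trans ddm) j).1
    have a2 : ‖z - collB (sg j) x0.1 x0.2‖ ≤ 2 * ρ :=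
      (norm_sub_le_norm_sub_add_norm_sub z (collB (sg j) v.1.1 v.1.2)
        (collB (sg j) x0.1 x0.2)).trans ((add_le_add ncε a1).trans ε3)
    refine ⟨a2, st_near a2 (by rw [← κ2]; exact kn1.trans ε2) ?_⟩
    rw [div_pow, one_pow]; exact νk.trans (l3.trans ε2)
  obtain ⟨x0, hx0B, hd0⟩ : ∃ x0 ∈ B1, dist v.1 x0 ≤ d := by
    rw [h0.1.cthickening_eq_biUnion_closedBall dp.le] at hx
    simpa using hx
  have c4 : (ν0 : ℂ) ^ 3 = (4 * N : ℕ) := by exact_mod_cast ν03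
  have hTe : TN (4 * N) j v = Real.pi * ν0 ^ 3 + g0 j v.1 + Real.pi * ν -
      bS (sg j) v.1.1 v.1.2 + v.2.2.2 := by
    rw [c4, TN, g0]; ring
  obtain ⟨T1, T2, T3⟩ := T_facts dat.nu ε40 bigC C1 bg bS' ig iS (hdT.trans d20) hTe
  set T := TN (4 * N) j v with hTd
  have dz : dd z = 0 := by simp [hz, dd, coll]
  have dzt : ddt z = 0 := by simp [hz, ddt, coll]
  obtain ⟨lo, reg, re1, w4, w5⟩ := hLo x0 hx0B _ hσ ε ν0 κ ν z εεL dat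
    ((near x0 hx0B hd0).1.trans ρL') dz dzt T T1 T2 T3
  have bA := baseArc hE hP eng κ2 k3' lo
  have a0 : 0 < a := oXa.1
  have adm : Adm (a, ξ, T) := by
    refine ⟨a0, oXa.2.1, sec2, by rw [ee]; exact sece, x4, x5, secr, ?_, _, bA⟩
    exact (mul_le_mul_of_nonneg_left T3 (by norm_num)).trans_lt (two.trans_le T1)
  refine ⟨oXa, oM, oZ, m40, k4, adm, fun g hg => ?_⟩
  have gu : ∀ u ∈ Icc (0 : ℝ) 1, g u = (FE (st z (κ ^ 2) ((1 / ν) ^ 2), (u : ℂ) * T)).1 :=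
    fun u hu => (hBt _ adm g hg u hu).trans (hBt _ adm _ bA u hu).symm
  have o1 : (st z (κ ^ 2) ((1 / ν) ^ 2), T) ∈ OE := by
    simpa using (lo 1 ⟨zero_le_one, le_rfl⟩).1
  obtain ⟨τ2, τ3, eF, sum, syn⟩ := hP κ (1 / ν) z T eng o1
  have g1 : g 1 = KS κ (1 / ν) z τ2 τ3 := by
    rw [gu 1 ⟨zero_le_one, le_rfl⟩, Complex.ofReal_one, one_mul, eF]
  rw [eF] at reg re1 w4 w5
  have ν04 : ν0 ^ 3 = 4 * N := by rw [ν03]; push_cast; ring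
  obtain ⟨f1, f2, f3⟩ := hF ε ν0 κ ν z εεF dat N j v.1.1 (g0 j v.1) (bS (sg j) v.1.1 v.1.2)
    v.2.2.2 τ2 τ3 ν04 νre νsq q1 q2 q3 q4 q5 q7 q8 bg bS' (hdT.trans (d20.trans (by norm_num)))
    (sum.trans hTe) (sum ▸ T3) syn reg re1 w4 w5
  have θn : ‖κ * τ2 - Real.pi * ν0 ^ 3 - g0 j x0‖ ≤ dW := by
    have a1 := (hmod x0 hx0B _ (hd0.trans ddm) j).2
    have e1 : κ * τ2 - Real.pi * ν0 ^ 3 - g0 j x0 = (κ * τ2 - Real.pi * ν0 ^ 3 - g0 j v.1 -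
        v.2.2.2) + v.2.2.2 + (g0 j v.1 - g0 j x0) := by ring
    rw [e1]
    exact norm_add₃_le.trans ((add_le_add_three (f1.trans (min_le_right _ _)) hdT a1).trans ε4)
  obtain ⟨w0, w1⟩ := hW x0 hx0B j z κ _ ((near x0 hx0B hd0).1.trans ρW')
    ((κ1.trans kn1).trans εW) θn
  rw [← ks_end κ0 ν04] at w0 w1
  obtain ⟨u1, u2, u3, u4, u5, u6, u7⟩ := f3 w0 w1
  refine ⟨⟨g1 ▸ u1, ?_, ?_, ?_, ?_, ?_⟩, fun hr => ?_⟩
  · have a0' : (a : ℂ) ≠ 0 := by exact_mod_cast a0.ne'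
    rw [g1, LH, u2, u3, ← κ2, k2, div_pow, one_pow]
    change -(a * ((-2 * (hn a (4 * N) + v.2.2.1) - (1 - a) * (1 / ν ^ 2)) / a) +
      (1 - a) * (1 / ν ^ 2)) / 2 = _
    rw [mul_div_cancel₀ _ a0']; ring
  · rw [g1, u4, ν3]
  · rw [g1, u5]; exact q6.trans εμ
  · rw [g1]
    change ‖LS (mid j v.1.1 (UV _)) _ - _‖ ≤ μ
    rw [u5]; exact u6.trans (min_le_left _ _)
  · rw [g1]
    change ‖LP (mid j v.1.1 (UV _)) _ - _‖ ≤ B
    rw [u5]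
    rwa [ν3, c4, add_sub_cancel_left] at u7
  obtain ⟨i1, i2, i3, i4, i5, i6⟩ := hr
  obtain ⟨j1, j2, -⟩ := hM.2.1 (sg j) _ _ i1 i2 oM
  have νi := νim i3
  have gi : (g0 j v.1).im = 0 := by
    unfold g0 gj
    split_ifs
    · exact (hM.2.2.1 _ _ i1 j1 oZ).2.1
    · rfl
  have Ti : T.im = 0 := by
    rw [hTe, ← Complex.ofReal_pow, ← Complex.ofReal_mul]
    simp only [add_im, sub_im, mul_im, ofReal_im, ofReal_re, gi, νi, j2, i6, mul_zero, zero_mul,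
      add_zero, sub_zero]
  have Tr : T = (T.re : ℝ) := Complex.ext (by simp) (by simp [Ti])
  have inv : ∀ w : ℂ, w.im = 0 → (1 / w ^ 2).im = 0 := fun w hw => by
    rw [show w = (w.re : ℝ) from Complex.ext (by simp) (by simp [hw]), ← Complex.ofReal_pow,
      ← Complex.ofReal_one, ← Complex.ofReal_div, Complex.ofReal_im]
  have hni : (hn a (4 * N)).im = 0 := by
    rw [hn, ν0e]
    norm_cast
  have yr : ∀ i, (yN a (4 * N) v i).im = 0 := fun i => by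
    fin_cases i
    · simp [yN, i1]
    · simp [yN, hni, i5]
    · exact i2.1
    · simp [yN, i2.2]
    · exact inv _ νi
    · exact inv _ ((hν _ hti).2.2.2.2.2.2 i4)
  obtain ⟨rξ, rz, -⟩ := hAr yr
  have k2i : (κ ^ 2).im = 0 := by
    rw [← κ2, k2]
    have e1 := yr 1
    have e4 := yr 4
    simp [Complex.div_im, e1, e4]
  have rE : RealE (st z (κ ^ 2) ((1 / ν) ^ 2)) :=
    ⟨rz, rfl, rfl, k2i, by change ((1 / ν) ^ 2).im = 0; rw [div_pow, one_pow]; exact inv _ νi⟩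
  have uT : ∀ u : ℝ, (u : ℂ) * T = ((u * T.re : ℝ) : ℂ) := fun u => by
    rw [Complex.ofReal_mul, ← Tr]
  have T0 : 0 ≤ T.re := le_trans (by positivity) T1
  refine ⟨T.re, Tr, bigs.trans T1, ?_, fun hc u hu => ?_, ?_, fun x1 hx1 hd1 u hu hs => ?_, ?_⟩
  · rw [g1]
    have : KS κ (1 / ν) z τ2 τ3 8 = tk κ (rr2 z) (aS2 z) τ2 := by simp [KS, hz, coll]
    rw [this]; exact f2
  · have a1 : ‖x0.2.2‖ ≤ 2 * c1 := by
      have b1 : ‖v.1.2.2 - x0.2.2‖ ≤ d := by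
        rw [← dist_eq_norm]
        exact ((le_max_right _ _).trans (le_max_right _ _)).trans hd0
      exact (norm_le_norm_add_norm_sub v.1.2.2 x0.2.2).trans ((add_le_add hc b1).trans c3)
    obtain ⟨a2, a3⟩ := hG x0 hx0B _ hσ z a1 ((near x0 hx0B hd0).1.trans ρG')
    obtain ⟨σ2, σ3, eG, -⟩ := hP κ (1 / ν) z _ eng (lo u hu).1
    have a4 := (hR _ (u * T.re) rE (uT u ▸ (lo u hu).1)).1
    rw [← uT, eG] at a4
    obtain ⟨a5, a6, a7, -⟩ := (hC κ (1 / ν) z eng).2 σ2 σ3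
    obtain ⟨a8, a9⟩ := hm κ (1 / ν) _ a4 a5 (κ2 ▸ kre.le) νre.le
    rw [a6] at a8
    rw [a7] at a9
    rw [gu u hu, eG]
    exact ⟨low c10 a2 a8 (norm_nonneg _), low c10 a3 a9 (norm_nonneg _)⟩
  · obtain ⟨a1, a2, -, a3⟩ := hS x0 hx0B _ hσ _ ((near x0 hx0B hd0).2.trans ρS')
    have ep : 0 < (e2 a ξ).re := by rw [ee]; exact FL.Adm.sec_pos sece
    have b1 := FL.Adm.dD_coll a ξ (FL.Adm.sec_pos sec2)
    have b2 := FL.Adm.sq_real ep (FL.Adm.e2_real a rξ)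
    have b3 : ξ 2 = ((ξ 2).re : ℝ) := Complex.ext (by simp) (by simp [rξ.2.2.1])
    have b4 : 0 < (ξ 2).re * (sq (e2 a ξ)).re / 2 :=
      half_pos (mul_pos (FL.Adm.sec_pos sec2) (FL.Adm.sq_re_pos ep))
    have b5 : FL.dD z = (((ξ 2).re * (sq (e2 a ξ)).re / 2 : ℝ) : ℂ) * ξ 4 ^ 2 := by
      rw [hz, b1]; push_cast; rw [← b2, ← b3]; ring
    have b6 : ‖FL.dD z‖ = (ξ 2).re * (sq (e2 a ξ)).re / 2 := by
      rw [b5, norm_mul, norm_pow, rξ.2.2.2.2.1, Complex.norm_real, Real.norm_eq_abs,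
        abs_of_pos b4, one_pow, mul_one]
    change c0 ≤ ‖FL.dD z‖ at a1
    change ‖FL.dD z‖ ≤ 1 / c0 at a2
    refine ⟨_, b6 ▸ a1, b6 ▸ a2, fun e e0 u hu hs => ?_⟩
    have n0 : ‖(u : ℂ) * T‖ = u * T.re := by
      rw [uT, Complex.norm_real, Real.norm_eq_abs, abs_of_nonneg (mul_nonneg hu.1 T0)]
    have a4 := (a3 e e0 ((u : ℂ) * T) (n0 ▸ hs)).2.1
    change ‖dd _ - dd z - _ * FL.dD z‖ ≤ _ at a4
    rw [dz, sub_zero, n0, ← gu u hu, b5, uT] at a4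
    convert a4 using 3
    push_cast; ring
  · have s0 : u * T.re ∈ Icc 0 sa := ⟨mul_nonneg hu.1 T0, hs⟩
    have a1 := (h1 x1 hx1 _ hσ _ ((near x1 hx1 hd1).2.trans ρ1') _ s0
      ((u * T.re : ℝ) : ℂ) (by simpa using d10.le)).2
    obtain ⟨-, σ2, σ3, b1, b2, b3, b4, -, b5, b6, -⟩ := hL x1 hx1 _ hσ _ s0.1
    have a2 := (norm_fst_le _).trans a1
    refine ⟨σ2, σ3, b1, b2, b3, by rw [b4, sub_self, norm_zero]; exact e10.le, ?_, ?_⟩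
    · rw [gu u hu, uT, ← b5]; exact (norm_le_pi_norm _ 0).trans a2
    · rw [gu u hu, uT, ← b6]; exact (norm_le_pi_norm _ 4).trans a2
  · obtain ⟨b1, b2⟩ := hM.2.2.2 _ v.1 hσ i1 i2 oM oX
    have a1 := nxi.trans ((min_le_right _ _).trans εμ)
    rw [← b1, ← b2]
    exact ⟨(norm_le_pi_norm _ 4).trans a1, (norm_le_pi_norm _ 5).trans a1⟩

end Pool.Agent.MP_1ba41f_an.S2.KP
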