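import Pool.Agent.MP_1ba41f_an.S2.KP.Spec

/-! The barrier for the clock of the third body. -/

noncomputable section
open Set Complex

namespace Pool.Agent.MP_1ba41f_an.S2.KP

namespace Bar

theorem mul_le {C : ℝ} {u v : ℂ} (hu : ‖u‖ ≤ C) (hv : ‖v‖ ≤ C) : ‖u * v‖ ≤ C ^ 2 := by
  rw [norm_mul, pow_two]
  exact mul_le_mul hu hv (norm_nonneg _) ((norm_nonneg _).trans hu)

theorem half_le {D : ℝ} {u v : ℂ} (hu : ‖u‖ ≤ D) (hv : ‖v‖ ≤ D) : ‖(u + v) / 2‖ ≤ D := by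
  rw [norm_div, Complex.norm_ofNat]
  linarith [norm_add_le u v]

/-- the imaginary part -/
theorem im_lt {D ε a b q y s : ℝ} (hD : 1 ≤ D) (hε : 100000 * D * ε ≤ 1) (ha : 40000 * D ≤ a)
    (hq : a ^ 2 / 20 ≤ q) (hs : |s| ≤ 1 / 8) (hy : |y| ≤ 1 + 100 * D)
    (h : |y - (s + b) * q| ≤ 100 * D * (ε * a ^ 2 + a)) : |b| < 1 / 2 := by
  have a1 : 40000 ≤ a := by linarith
  have a2 : 0 < a ^ 2 := by positivity
  have q0 : 0 < q := by linarith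
  have e1 : 100 * D * (ε * a ^ 2) ≤ a ^ 2 / 1000 := by nlinarith
  have e2 : 100 * D * a ≤ a ^ 2 / 400 := by nlinarith
  have e3 : 1 + 100 * D ≤ a ^ 2 / 400 := by nlinarith
  have e4 : |s * q| ≤ q / 8 := by
    rw [abs_mul, abs_of_pos q0]; nlinarith
  have e5 : |b * q| < q / 2 := by
    rw [abs_le] at h hy e4
    rw [abs_lt]
    constructor <;> nlinarith [h.1, h.2, hy.1, hy.2, e4.1, e4.2]
  rw [abs_mul, abs_of_pos q0] at e5
  nlinarith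

/-- the real part -/
theorem re_ne {D ε n a q x s p m : ℝ} (hD : 1 ≤ D) (hn : 100000 * D ≤ n) (h1 : ε ≤ 1)
    (a0 : 0 ≤ a) (ha : a ≤ 4 * n) (q0 : 0 ≤ q) (hq : q ≤ a ^ 2 / 2) (hs : |s| ≤ D)
    (hm : n ^ 3 * (p + 1 / 2) ≤ m) (hx : x ≤ (p + 1 / 4) * n ^ 3 + 100 * D)
    (h : |x - (m + s * q)| ≤ 100 * D * (ε * a ^ 2 + a)) : False := by
  have n1 : 1 ≤ n := by linarith
  have n2 : 1 ≤ n ^ 2 := one_le_pow₀ n1
  have a2 : a ^ 2 ≤ 16 * n ^ 2 := by nlinarith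
  have e1 : ε * a ^ 2 + a ≤ 20 * n ^ 2 := by nlinarith [sq_nonneg a]
  have e2 : 100 * D * (ε * a ^ 2 + a) ≤ 2000 * (D * n ^ 2) := by nlinarith
  have e3 : -(8 * (D * n ^ 2)) ≤ s * q := by nlinarith [(abs_le.1 hs).1]
  have e4 : D ≤ D * n ^ 2 := by nlinarith
  have e5 : 100000 * (D * n ^ 2) ≤ n ^ 3 := by nlinarith
  nlinarith [(abs_le.1 h).1]

theorem far {C a : ℝ} {w p p' c s k : ℂ} (hC : 1 ≤ C) (ha : 40000 * C ^ 2 ≤ a) (hw : ‖w‖ ≤ C)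
    (hp : ‖p'‖ ≤ C) (h1 : 1 ≤ ‖p * p'‖) (hs : a / 10 - 2 ≤ ‖s / 2‖) (hc : ‖c‖ ≤ 3)
    (hk : ‖k‖ ≤ 9 * C) : ‖k‖ + 1 ≤ ‖w * c + p * s / 2‖ := by
  have e1 : ‖w * c‖ ≤ C * 3 := by
    rw [norm_mul]; exact mul_le_mul hw hc (norm_nonneg _) (by linarith)
  have e2 : 1 ≤ ‖p‖ * C := by
    rw [norm_mul] at h1; nlinarith [norm_nonneg p]
  have e3 : 13 * C * C ≤ ‖s / 2‖ := by nlinarith
  have e4 : 13 * C ≤ ‖p * s / 2‖ := by
    rw [mul_div_assoc, norm_mul]; nlinarith [norm_nonneg p]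
  have e5 := norm_sub_le (w * c + p * s / 2) (w * c)
  rw [add_sub_cancel_left] at e5
  linarith

end Bar

open Bar in
theorem barS (h2 : Body2Stmt) (h3 : T3Stmt) : BarStmt := fun C hC => by
  obtain ⟨D, hDe⟩ : ∃ D : ℝ, D = C ^ 2 := ⟨_, rfl⟩
  have hD : 1 ≤ D := hDe ▸ one_le_pow₀ hC
  obtain ⟨L, hL⟩ : ∃ L : ℝ, L = 40000 * D + 1 := ⟨_, rfl⟩
  have L1 : 1 ≤ L := by linarith
  refine ⟨2 * D * L + D * L ^ 2 + L ^ 3 + 100 * D + L, by positivity, 1 / (100000 * D),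
    by positivity, fun ε ν0 κ ν z hε H τ2 τ3 hS s1 s2 s3 ⟨r1, r2, r3⟩ => ?_⟩
  have hz : ∀ i, ‖z i‖ ≤ C := fun i => (norm_le_pi_norm z i).trans H.bd
  have hm : ∀ i j, ‖z i * z j‖ ≤ D := fun i j => hDe ▸ mul_le (hz i) (hz j)
  have n0 := H.pos
  have hε' : 100000 * D * ε ≤ 1 := by
    rw [le_div_iff₀ (by positivity)] at hε; linarith
  have ε0 : 0 < ε := by
    by_contra k
    nlinarith [H.big]
  have ε1 : ε ≤ 1 / 100000 := by nlinarith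
  have hn : 100000 * D ≤ ν0 := by nlinarith [H.big]
  have n1 : 1 ≤ ν0 := by linarith
  have n3 : ν0 ≤ ν0 ^ 3 := le_self_pow₀ n1 (by norm_num)
  have p4 : Real.pi + 1 / 2 ≤ 4 := by linarith [Real.pi_lt_d2]
  have hν : ν0 - 1 ≤ ‖ν‖ := by
    have := norm_sub_norm_le (ν0 : ℂ) ν
    rw [norm_sub_rev, Complex.norm_real, Real.norm_of_nonneg n0.le] at this
    linarith [H.nu]
  have ν0' : ν ≠ 0 := norm_pos_iff.1 (by linarith)
  rw [add_re] at s1 s2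
  rw [add_im] at s3
  have a4 : τ3.re ≤ 4 * ν0 := r2.trans (mul_le_mul_of_nonneg_right p4 n0.le)
  have σ0 : 0 ≤ 2 * D * L + D * L ^ 2 + L ^ 3 + 100 * D + L := by positivity
  have i2 : |τ2.im| ≤ 1 := by
    rw [abs_le] at s3 r3 ⊢; constructor <;> linarith [s3.1, s3.2, r3.1, r3.2]
  have t2 : ‖τ2‖ + 1 ≤ 10 * ν0 ^ 3 := by
    have : |τ2.re| ≤ 5 * ν0 ^ 3 := by
      rw [abs_le]; constructor <;> nlinarith
    linarith [norm_le_abs_re_add_abs_im τ2]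
  have k2 : ‖κ - 1‖ * (‖τ2‖ + 1) ≤ 1 / 4 := by nlinarith [H.ka, norm_nonneg (κ - 1)]
  have b0 := (h2 C κ τ2 (z 0) (z 2) 0 0 hC k2 i2).1 (hz 0) (hz 2)
  have b1 := (h2 C κ τ2 (z 1) (z 3) 0 0 hC k2 i2).1 (hz 1) (hz 3)
  have bt := (h2 D κ τ2 0 0 (rr2 z) (aS2 z) hD k2 i2).2 (hm 0 1) (half_le (hm 1 2) (hm 0 3))
  rw [show tk κ (rr2 z) (aS2 z) τ2 = _ from hS] at bt
  have br := (abs_re_le_norm _).trans bt
  have bi := (abs_im_le_norm _).trans bt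
  rw [sub_re] at br
  rw [sub_im] at bi
  have c3 : ‖rr3 z‖ ≤ D := hm 4 5
  have S3 : ‖aS3 z‖ ≤ D := half_le (hm 5 6) (hm 4 7)
  have ha : 40000 * D ≤ τ3.re := by
    by_contra k
    have t3 : ‖τ3‖ ≤ L := by
      have : |τ3.re| ≤ 40000 * D := by rw [abs_le]; constructor <;> linarith
      linarith [norm_le_abs_re_add_abs_im τ3]
    have e := (re_le_norm _).trans (h3.2 ν (rr3 z) (aS3 z) τ3 ν0' (by linarith))
    have e1 : 2 * ‖rr3 z‖ * ‖τ3‖ ≤ 2 * D * L := by gcongr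
    have e2 : ‖aS3 z‖ * ‖τ3‖ ^ 2 ≤ D * L ^ 2 := by gcongr
    have e3 : ‖τ3‖ ^ 3 ≤ L ^ 3 := by gcongr
    linarith [(abs_le.1 br).1]
  obtain ⟨u1, -, u3, u4, u5, u6⟩ := h3.1 ν0 ε τ3.re τ3.im D ν (rr3 z) (aS3 z) n1 (by linarith)
    H.nu hD c3 S3 (by linarith) r2 r3
  rw [re_add_im] at u1 u3 u4
  have ur := (abs_re_le_norm _).trans u1
  have ui := (abs_im_le_norm _).trans u1
  simp only [sub_re, add_re, mul_re, ofReal_re, ofReal_im, I_re, I_im, mul_zero, sub_zero,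
    mul_one, add_zero] at ur
  simp only [sub_im, add_im, mul_im, ofReal_re, ofReal_im, I_re, I_im, mul_zero, add_zero,
    mul_one, zero_add] at ui
  have g : 1 ≤ ‖z 6 * z 7‖ := by
    rw [H.eng.2]
    have e := norm_sub_norm_le (2 : ℂ) ((1 / ν) ^ 2 * rr3 z)
    have e1 : ‖(1 / ν) ^ 2 * rr3 z‖ ≤ 1 := by
      rw [norm_mul, norm_pow, norm_div, norm_one, div_pow, one_pow, one_div, inv_mul_le_iff₀
        (by positivity)]
      nlinarith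
    rw [Complex.norm_ofNat] at e
    linarith
  refine ⟨⟨by linarith, lt_of_le_of_ne r2 fun e => ?_, im_lt hD hε' ha u5 H.im ?_ ui⟩,
    far hC (hDe ▸ ha) (hz 4) (hz 7) g u3 u4 b0,
    far hC (hDe ▸ ha) (hz 5) (hz 6) (mul_comm (z 6) _ ▸ g) u3 u4 b1⟩
  · refine re_ne (p := Real.pi) hD hn (by linarith) (by linarith) a4
      (le_trans (by positivity) u5) u6 ((abs_re_le_norm _).trans S3) ?_
      (by linarith [(abs_le.1 br).2]) ur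
    rw [e, mul_div_cancel_right₀ _ n0.ne', add_comm Real.pi, Real.sin_add_pi]
    have := Real.sin_nonneg_of_nonneg_of_le_pi (x := 1 / 2) (by norm_num)
      (by linarith [Real.pi_gt_three])
    gcongr
    linarith
  · rw [abs_le] at bi i2 ⊢
    constructor <;> linarith [bi.1, bi.2, i2.1, i2.2]

end Pool.Agent.MP_1ba41f_an.S2.KP
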