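import Pool.Agent.MP_1ba41f_an.S2.KP.Spec
import Pool.Agent.MP_1ba41f_an.S2.FL.CenB

/-! The second body along a long arc, and the eccentric anomaly of the third body at the start. -/

noncomputable section
open Set Complex

namespace Pool.Agent.MP_1ba41f_an.S2.KP

namespace Body2

theorem trig {z : ℂ} {t : ℝ} (h : |z.im| ≤ t) : ‖cos z‖ ≤ Real.exp t ∧ ‖sin z‖ ≤ Real.exp t := by
  have h1 : ‖exp (z * I)‖ ≤ Real.exp t := by
    rw [norm_exp]; exact Real.exp_le_exp.2 (by simp; linarith [(abs_le.1 h).1])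
  have h2 : ‖exp (-z * I)‖ ≤ Real.exp t := by
    rw [norm_exp]; exact Real.exp_le_exp.2 (by simp; linarith [(abs_le.1 h).2])
  constructor
  · rw [Complex.cos, norm_div, Complex.norm_ofNat]
    linarith [norm_add_le (exp (z * I)) (exp (-z * I))]
  · rw [Complex.sin, norm_div, Complex.norm_ofNat, norm_mul, norm_I]
    linarith [norm_sub_le (exp (-z * I)) (exp (z * I))]

theorem div_le {x κ : ℂ} {A : ℝ} (k : ℕ) (hx : ‖x‖ ≤ A) (hκ : 3 / 4 ≤ ‖κ‖) :
    ‖x / κ ^ k‖ ≤ A * (4 / 3) ^ k := by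
  rw [norm_div, norm_pow, div_le_iff₀ (by positivity), mul_assoc, ← mul_pow]
  have h1 : 1 ≤ (4 / 3 * ‖κ‖) ^ k := one_le_pow₀ (by linarith)
  nlinarith [norm_nonneg x]

theorem mul_le {x y : ℂ} {A B : ℝ} (hx : ‖x‖ ≤ A) (hy : ‖y‖ ≤ B) : ‖x * y‖ ≤ A * B :=
  norm_mul_le_of_le hx hy

theorem sub_sin {x : ℂ} (hx : ‖x‖ ≤ 1) : ‖x - sin x‖ ≤ ‖x‖ ^ 3 := by
  have h1 := Complex.sin_bound hx
  have h2 : ‖x‖ ^ 5 ≤ ‖x‖ ^ 3 := pow_le_pow_of_le_one (norm_nonneg x) hx (by norm_num)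
  have h3 : ‖x ^ 3 / 6‖ = ‖x‖ ^ 3 / 6 := by rw [norm_div, norm_pow, Complex.norm_ofNat]
  have h4 := norm_sub_le (x ^ 3 / 6) (sin x - (x - x ^ 3 / 6))
  rw [show x ^ 3 / 6 - (sin x - (x - x ^ 3 / 6)) = x - sin x by ring] at h4
  have h5 : 0 ≤ ‖x‖ ^ 3 := by positivity
  linarith

end Body2

open Body2

theorem body2S : Body2Stmt := by
  intro C κ τ w p r S hC h hτ
  have h0 := norm_nonneg (κ - 1)
  have h0' := norm_nonneg τ
  have h1 : ‖κ - 1‖ ≤ 1 / 4 := by nlinarith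
  have h2 : ‖(κ - 1) * τ‖ ≤ 1 / 4 := by rw [norm_mul]; nlinarith
  have h3 : 3 / 4 ≤ ‖κ‖ := by
    have := norm_sub_norm_le (1 : ℂ) κ
    rw [norm_one, norm_sub_rev] at this
    linarith
  have h4 : ‖κ + 1‖ ≤ 9 / 4 := by
    have := norm_add_le (κ - 1) 2
    rw [show κ - 1 + 2 = κ + 1 by ring, Complex.norm_ofNat] at this
    linarith
  have hκ : κ ≠ 0 := fun e => by rw [e, norm_zero] at h3; linarith
  have h5 : |(κ * τ).im| ≤ 2 := by
    rw [show κ * τ = (κ - 1) * τ + τ by ring, add_im]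
    linarith [abs_add_le ((κ - 1) * τ).im τ.im, abs_im_le_norm ((κ - 1) * τ)]
  have h6 : |(κ * τ / 2).im| ≤ 1 := by
    rw [Complex.div_ofNat_im, abs_div, abs_two]; linarith
  have he := Real.exp_one_lt_three.le
  have he2 : Real.exp 2 ≤ 9 := by
    rw [show (2 : ℝ) = 1 + 1 by norm_num, Real.exp_add]
    nlinarith [Real.exp_pos 1]
  obtain ⟨h7, h8⟩ := trig h6
  obtain ⟨h9, h10⟩ := trig h5
  refine ⟨fun hw hp => ?_, fun hr hS => ?_⟩
  · rw [cs, sn, if_neg hκ,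
      show p * (2 * sin (κ * τ / 2) / κ) / 2 = p * sin (κ * τ / 2) / κ ^ 1 by field_simp]
    have h11 := mul_le hw (h7.trans he)
    have h12 := div_le 1 (mul_le hp (h8.trans he)) h3
    linarith [norm_add_le (w * cos (κ * τ / 2)) (p * sin (κ * τ / 2) / κ ^ 1)]
  · have e : tk κ r S τ - τ = r * sin (κ * τ) / κ ^ 1 + S * (1 - cos (κ * τ)) / κ ^ 2 -
        sin (κ * τ) / κ ^ 3 - (κ - 1) * τ * (κ + 1) / κ ^ 2 := by
      rw [tk, if_neg hκ]; field_simp; ring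
    have h11 : ‖1 - cos (κ * τ)‖ ≤ 10 := by
      have := norm_sub_le 1 (cos (κ * τ))
      rw [norm_one] at this
      linarith
    have h12 := div_le 1 (mul_le hr (h10.trans he2)) h3
    have h13 := div_le 2 (mul_le hS h11) h3
    have h14 := div_le 3 (h10.trans he2) h3
    have h15 := div_le 2 (mul_le h2 h4) h3
    rw [e]
    refine (norm_sub_le_of_le (norm_sub_le_of_le (norm_add_le_of_le h12 h13) h14) h15).trans ?_
    linarith

theorem e3S : E3Stmt := by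
  intro C hC
  refine ⟨20 * C ^ 3, by positivity, 1 / (20 * C), by positivity, fun κ r S G hκ ha hr hS hG e => ?_⟩
  set a := ‖κ‖ with ha'
  have ha0 : 0 ≤ a := norm_nonneg κ
  have hC3 : C ≤ C ^ 2 ∧ C ^ 2 ≤ C ^ 3 := ⟨by nlinarith, by nlinarith⟩
  have h1 : a * C ≤ 1 / 20 := by
    rw [le_div_iff₀ (by positivity)] at ha
    linarith
  have h1' : a ≤ a * C := le_mul_of_one_le_right ha0 hC
  have h2 : ‖κ ^ 2 * G ^ 2‖ ≤ (a * C) ^ 2 := by
    rw [← mul_pow, norm_pow]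
    exact pow_le_pow_left₀ (norm_nonneg _) (mul_le le_rfl hG) 2
  have h3 : 0 < (1 - κ ^ 2 * G ^ 2).re := by
    rw [sub_re, one_re]
    nlinarith [re_le_norm (κ ^ 2 * G ^ 2)]
  have h4 := FL.CenB.sq_sq (1 - κ ^ 2 * G ^ 2)
  have h5 := FL.CenB.sq_re (Or.inl h3 : 1 - κ ^ 2 * G ^ 2 ∈ slitPlane)
  have h6 := FL.CenB.sq_ne (Or.inl h3 : 1 - κ ^ 2 * G ^ 2 ∈ slitPlane)
  generalize sq (1 - κ ^ 2 * G ^ 2) = q at h4 h5 h6 ⊢
  have h7 : ‖q - 1‖ ≤ (a * C) ^ 2 := by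
    have h8 : 1 ≤ ‖q + 1‖ := le_trans (by rw [add_re, one_re]; linarith) (re_le_norm _)
    have h9 : ‖q - 1‖ * ‖q + 1‖ = ‖κ ^ 2 * G ^ 2‖ := by
      rw [← norm_mul, ← norm_neg]; congr 1; linear_combination -h4
    nlinarith [norm_nonneg (q - 1)]
  have h8 : 3 / 4 ≤ ‖q‖ := by
    have := norm_sub_norm_le (1 : ℂ) q
    rw [norm_one, norm_sub_rev] at this
    nlinarith
  set x := (I * κ * S - κ * (κ * r) - (q - 1)) / q ^ 1 with hx
  have h9 : ‖x‖ ≤ 3 / 2 * (a * C) := by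
    have h10 : ‖I * κ * S‖ ≤ a * C := mul_le (by rw [norm_mul, norm_I, one_mul]) hS
    have h11 : ‖κ * (κ * r)‖ ≤ a * (a * C) := mul_le le_rfl (mul_le le_rfl hr)
    refine (div_le 1 (norm_sub_le_of_le (norm_sub_le_of_le h10 h11) h7) h8).trans ?_
    nlinarith
  have h10 : 1 - κ ^ 2 * r + I * κ * S = q * (1 + x) := by rw [hx]; field_simp; ring
  have h11 : 1 + x ≠ 0 := fun h => by
    have : x = -1 := by linear_combination h
    rw [this, norm_neg, norm_one] at h9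
    linarith
  have h12 : exp (I * (-I * log (1 + x))) = 1 + x := by
    rw [show I * (-I * log (1 + x)) = log (1 + x) by linear_combination (-log (1 + x)) * I_mul_I,
      exp_log h11]
  have h13 : ‖-I * log (1 + x)‖ ≤ 9 / 4 * (a * C) := by
    rw [norm_mul, norm_neg, norm_I, one_mul]
    linarith [norm_log_one_add_half_le_self (z := x) (by linarith)]
  generalize -I * log (1 + x) = E at h12 h13
  have h14 : 1 - κ ^ 2 * r - I * κ * S = q * exp (-(I * E)) := by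
    rw [exp_neg, h12]
    refine mul_right_cancel₀ (mul_ne_zero h6 h11) ?_
    rw [show q * (1 + x)⁻¹ * (q * (1 + x)) = q ^ 2 by field_simp, ← h10, h4]
    linear_combination κ ^ 2 * e - κ ^ 2 * S ^ 2 * I_mul_I
  have h15 : q * sin E = κ * S := by
    rw [Complex.sin, show -E * I = -(I * E) by ring, mul_comm E I, h12]
    linear_combination (-I / 2) * h14 + (I / 2) * h10 - κ * S * I_mul_I
  have h16 : ‖E‖ ≤ 1 := by linarith
  have h17 : ‖E - sin E‖ ≤ (9 / 4 * (a * C)) ^ 3 :=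
    (sub_sin h16).trans (pow_le_pow_left₀ (norm_nonneg _) h13 3)
  refine ⟨h3, h7.trans (by nlinarith [sq_nonneg a]), _, by rw [h12, h10], h14,
    h13.trans (by nlinarith), ?_⟩
  have h18 : ‖sin E‖ ≤ 5 * (a * C) := by
    have h19 := norm_sub_le E (E - sin E)
    rw [sub_sub_cancel] at h19
    have h20 : ‖E‖ ^ 3 ≤ ‖E‖ := pow_le_of_le_one (norm_nonneg _) h16 (by norm_num)
    linarith [sub_sin h16]
  rw [show E - κ * S = E - sin E - (q - 1) * sin E by linear_combination h15]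
  refine (norm_sub_le_of_le h17 (mul_le h7 h18)).trans ?_
  have : 0 ≤ (a * C) ^ 3 := by positivity
  linarith [show 20 * C ^ 3 * a ^ 3 = 20 * (a * C) ^ 3 by ring,
    show (9 / 4 * (a * C)) ^ 3 = 729 / 64 * (a * C) ^ 3 by ring,
    show (a * C) ^ 2 * (5 * (a * C)) = 5 * (a * C) ^ 3 by ring]

end Pool.Agent.MP_1ba41f_an.S2.KP
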