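import Pool.Agent.MP_1ba41f_an.S2.KP.Spec

/-! Conserved quantities of the two Kepler motions. -/

noncomputable section
open Set Complex
open scoped ComplexConjugate

namespace Pool.Agent.MP_1ba41f_an.S2.KP

namespace Cons

theorem ksn (κ τ : ℂ) : κ * sn κ τ = 2 * sin (κ * τ / 2) := by
  unfold sn
  split_ifs with h
  · simp [h]
  · field_simp

theorem one (κ τ : ℂ) : cs κ τ ^ 2 + κ ^ 2 * sn κ τ ^ 2 / 4 = 1 := by
  have h := ksn κ τ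
  have h2 := Complex.sin_sq_add_cos_sq (κ * τ / 2)
  unfold cs
  linear_combination h2 + (κ * sn κ τ + 2 * sin (κ * τ / 2)) / 4 * h

theorem ex (κ τ : ℂ) : exp (I * (κ * τ)) = (cs κ τ + I * κ * sn κ τ / 2) ^ 2 := by
  have h := ksn κ τ
  have e : I * (κ * τ) = κ * τ / 2 * I + κ * τ / 2 * I := by ring
  have e2 : cs κ τ + I * κ * sn κ τ / 2 = cos (κ * τ / 2) + sin (κ * τ / 2) * I := by
    unfold cs
    linear_combination I / 2 * h
  rw [e, exp_add, exp_mul_I, e2, pow_two]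

theorem exn (κ τ : ℂ) : exp (-(I * (κ * τ))) = (cs κ τ - I * κ * sn κ τ / 2) ^ 2 := by
  have h := ksn κ τ
  have e : -(I * (κ * τ)) = -(κ * τ / 2) * I + -(κ * τ / 2) * I := by ring
  have e2 : cs κ τ - I * κ * sn κ τ / 2 = cos (-(κ * τ / 2)) + sin (-(κ * τ / 2)) * I := by
    unfold cs
    rw [cos_neg, sin_neg]
    linear_combination -I / 2 * h
  rw [e, exp_add, exp_mul_I, e2, pow_two]

theorem tke (κ r S τ : ℂ) : κ ^ 2 * tk κ r S τ =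
    τ - (S * (cs κ τ ^ 2 - κ ^ 2 * sn κ τ ^ 2 / 4) + (1 - κ ^ 2 * r) * (cs κ τ * sn κ τ)) + S := by
  by_cases h : κ = 0
  · simp [cs, sn, h]
  · have h1 := ksn κ τ
    have h0 := one κ τ
    have e : κ * τ = 2 * (κ * τ / 2) := by ring
    have hs : sin (κ * τ) = κ * sn κ τ * cs κ τ := by
      rw [h1]
      unfold cs
      conv_lhs => rw [e, sin_two_mul]
    have hc : cos (κ * τ) = cs κ τ ^ 2 - κ ^ 2 * sn κ τ ^ 2 / 4 := by
      have h3 : cos (κ * τ) = 2 * cs κ τ ^ 2 - 1 := by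
        unfold cs
        conv_lhs => rw [e, cos_two_mul]
      linear_combination h3 + h0
    unfold tk
    rw [if_neg h, hs, hc]
    field_simp
    ring

theorem ccs (κ : ℂ) : Continuous (cs κ) := by
  unfold cs
  fun_prop

theorem csn (κ : ℂ) : Continuous (sn κ) := by
  unfold sn
  split_ifs
  · exact continuous_id
  · fun_prop

theorem ctk (κ r S : ℂ) : Continuous (tk κ r S) := by
  unfold tk
  split_ifs
  · fun_prop
  · fun_prop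

theorem cont (κ2 κ3 : ℂ) (z : Az) : Continuous (fun τ : ℂ × ℂ => KS κ2 κ3 z τ.1 τ.2) := by
  have a1 := ccs κ2
  have a2 := ccs κ3
  have a3 := csn κ2
  have a4 := csn κ3
  have a5 := ctk κ2 (rr2 z) (aS2 z)
  refine continuous_pi fun i => ?_
  fin_cases i <;> simp [KS] <;> fun_prop

theorem sqk {κ : ℂ} (h : 0 < κ.re) : sq (κ ^ 2) = κ := by
  unfold sq
  rw [one_div]
  exact Complex.sq_cpow_two_inv h

theorem rmin (k w p : ℂ) (h : p * conj p = 2 - k * (w * conj w)) (hk : 0 ≤ k.re) :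
    ‖(conj w * p - w * conj p) / (2 * I)‖ ^ 2 ≤ 2 * ‖w‖ ^ 2 := by
  have h1 : ‖p‖ ^ 2 ≤ 2 := by
    rw [Complex.mul_conj', Complex.mul_conj'] at h
    have h2 := congrArg Complex.re h
    rw [← Complex.ofReal_pow, ← Complex.ofReal_pow, Complex.sub_re, Complex.mul_re,
      Complex.ofReal_re, Complex.ofReal_re, Complex.ofReal_im] at h2
    have h3 : (2 : ℂ).re = 2 := rfl
    rw [h3] at h2
    nlinarith [mul_nonneg hk (sq_nonneg ‖w‖)]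
  have h2 : ‖(conj w * p - w * conj p) / (2 * I)‖ ≤ ‖w‖ * ‖p‖ := by
    have h3 := norm_sub_le (conj w * p) (w * conj p)
    rw [norm_mul, norm_mul, Complex.norm_conj, Complex.norm_conj] at h3
    rw [norm_div, norm_mul, Complex.norm_I, Complex.norm_two]
    linarith
  calc _ ≤ (‖w‖ * ‖p‖) ^ 2 := pow_le_pow_left₀ (norm_nonneg _) h2 2
    _ = ‖w‖ ^ 2 * ‖p‖ ^ 2 := by ring
    _ ≤ _ := by nlinarith [sq_nonneg ‖w‖]

end Cons

open Cons in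
theorem consS : ConsStmt := by
  intro κ2 κ3 z hE
  refine ⟨cont κ2 κ3 z, fun τ2 τ3 => ?_⟩
  obtain ⟨e2, e3⟩ := hE
  have o2 := one κ2 τ2
  have o3 := one κ3 τ3
  have t2 := tke κ2 (rr2 z) (aS2 z) τ2
  have t3 := tke κ3 (rr3 z) (aS3 z) τ3
  have x2 := ex κ2 τ2
  have x3 := ex κ3 τ3
  have y3 := exn κ3 τ3
  have hI : I ^ 2 = -1 := I_sq
  set Z := KS κ2 κ3 z τ2 τ3 with hZ
  have z0 : Z 0 = z 0 * cs κ2 τ2 + z 2 * sn κ2 τ2 / 2 := rfl
  have z1 : Z 1 = z 1 * cs κ2 τ2 + z 3 * sn κ2 τ2 / 2 := rfl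
  have z2 : Z 2 = z 2 * cs κ2 τ2 - κ2 ^ 2 * z 0 * sn κ2 τ2 / 2 := rfl
  have z3 : Z 3 = z 3 * cs κ2 τ2 - κ2 ^ 2 * z 1 * sn κ2 τ2 / 2 := rfl
  have z4 : Z 4 = z 4 * cs κ3 τ3 + z 6 * sn κ3 τ3 / 2 := rfl
  have z5 : Z 5 = z 5 * cs κ3 τ3 + z 7 * sn κ3 τ3 / 2 := rfl
  have z6 : Z 6 = z 6 * cs κ3 τ3 - κ3 ^ 2 * z 4 * sn κ3 τ3 / 2 := rfl
  have z7 : Z 7 = z 7 * cs κ3 τ3 - κ3 ^ 2 * z 5 * sn κ3 τ3 / 2 := rfl
  clear_value Z
  generalize cs κ2 τ2 = c2 at *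
  generalize sn κ2 τ2 = s2 at *
  generalize cs κ3 τ3 = c3 at *
  generalize sn κ3 τ3 = s3 at *
  have E2 : Z 2 * Z 3 = 2 - κ2 ^ 2 * rr2 Z := by
    unfold rr2 at *
    rw [z0, z1, z2, z3]
    linear_combination e2 + (z 2 * z 3 + κ2 ^ 2 * (z 0 * z 1)) * o2
  have E3 : Z 6 * Z 7 = 2 - κ3 ^ 2 * rr3 Z := by
    unfold rr3 at *
    rw [z4, z5, z6, z7]
    linear_combination e3 + (z 6 * z 7 + κ3 ^ 2 * (z 4 * z 5)) * o3
  have G2 : aG2 Z = aG2 z := by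
    unfold aG2
    rw [z0, z1, z2, z3]
    congr 1
    linear_combination (z 1 * z 2 - z 0 * z 3) * o2
  have G3 : aG3 Z = aG3 z := by
    unfold aG3
    rw [z4, z5, z6, z7]
    congr 1
    linear_combination (z 5 * z 6 - z 4 * z 7) * o3
  have S2 : aS2 Z = aS2 z * (c2 ^ 2 - κ2 ^ 2 * s2 ^ 2 / 4) + (1 - κ2 ^ 2 * rr2 z) * (c2 * s2) := by
    unfold aS2
    unfold rr2 at *
    rw [z0, z1, z2, z3]
    linear_combination c2 * s2 / 2 * e2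
  have S3 : aS3 Z = aS3 z * (c3 ^ 2 - κ3 ^ 2 * s3 ^ 2 / 4) + (1 - κ3 ^ 2 * rr3 z) * (c3 * s3) := by
    unfold aS3
    unfold rr3 at *
    rw [z4, z5, z6, z7]
    linear_combination c3 * s3 / 2 * e3
  have R3 : 1 - κ3 ^ 2 * rr3 Z = (1 - κ3 ^ 2 * rr3 z) * (c3 ^ 2 - κ3 ^ 2 * s3 ^ 2 / 4) -
      κ3 ^ 2 * aS3 z * (c3 * s3) := by
    unfold aS3
    unfold rr3 at *
    rw [z4, z5]
    linear_combination -o3 - κ3 ^ 2 * s3 ^ 2 / 4 * e3
  have sg : ∀ a b : ℂ, ((a + b) / 2) ^ 2 + ((a - b) / (2 * I)) ^ 2 = a * b := fun a b => by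
    rw [div_pow (a - b), mul_pow, hI]
    ring
  refine ⟨⟨E2, E3⟩, G2, G3, ?_, ?_, ?_, ?_, ?_, ?_, fun r2 r3 R2' R3' hκ => ?_⟩
  · unfold aS2 aG2
    rw [sg, ← e2]
    unfold rr2
    ring
  · unfold aS3 aG3
    rw [sg, ← e3]
    unfold rr3
    ring
  · rw [R3, S3, x3]
    linear_combination (-(1 - κ3 ^ 2 * rr3 z) * κ3 ^ 2 * s3 ^ 2 / 4 - κ3 ^ 2 * aS3 z * c3 * s3 -
      I * κ3 ^ 3 * aS3 z * s3 ^ 2 / 4) * hI
  · rw [R3, S3, y3]
    linear_combination (-(1 - κ3 ^ 2 * rr3 z) * κ3 ^ 2 * s3 ^ 2 / 4 - κ3 ^ 2 * aS3 z * c3 * s3 +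
      I * κ3 ^ 3 * aS3 z * s3 ^ 2 / 4) * hI
  · rw [t2, S2]
  · rw [t3, S3]
  · have k2 : kk2 z = κ2 ^ 2 := by
      unfold kk2
      rw [e2, div_eq_iff r2]
      ring
    have k3 : kk3 z = κ3 ^ 2 := by
      unfold kk3
      rw [e3, div_eq_iff r3]
      ring
    have K2 : kk2 Z = κ2 ^ 2 := by
      unfold kk2
      rw [E2, div_eq_iff R2']
      ring
    have K3 : kk3 Z = κ3 ^ 2 := by
      unfold kk3
      rw [E3, div_eq_iff R3']
      ring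
    have ee : ee3 Z = ee3 z := by
      unfold ee3
      rw [K3, k3, G3]
    have A2 : aA2 Z = aA2 z := by
      unfold aA2
      rw [K2, k2, z0, z2]
      linear_combination -(z 2 ^ 2 + κ2 ^ 2 * z 0 ^ 2) / 2 * o2
    have A2t : aA2t Z = aA2t z := by
      unfold aA2t
      rw [K2, k2, z1, z3]
      linear_combination -(z 3 ^ 2 + κ2 ^ 2 * z 1 ^ 2) / 2 * o2
    have A3 : aA3 Z = aA3 z := by
      unfold aA3
      rw [K3, k3, z4, z6]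
      linear_combination -(z 6 ^ 2 + κ3 ^ 2 * z 4 ^ 2) / 2 * o3
    have A3t : aA3t Z = aA3t z := by
      unfold aA3t
      rw [K3, k3, z5, z7]
      linear_combination -(z 7 ^ 2 + κ3 ^ 2 * z 5 ^ 2) / 2 * o3
    have hx : hX Z = hX z := by
      unfold hX
      rw [A2, A2t, A3, A3t, ee]
    have hy : hY Z = hY z := by
      unfold hY
      rw [A2, A2t, A3, A3t, ee]
    refine ⟨k2, k3, sqk hκ, K2, K3, ee, hx, ?_, ?_⟩
    · unfold UV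
      rw [K2, k2, G2, hx, hy]
    · have f : κ2 * Z 0 - I * Z 2 = (κ2 * z 0 - I * z 2) * (c2 + I * κ2 * s2 / 2) := by
        rw [z0, z2]
        linear_combination κ2 * z 2 * s2 / 2 * hI
      unfold Fh
      rw [K2, k2, G2, A3t, ee, sqk hκ, f, x2]
      ring

theorem rminS (_hC : ConsStmt) : RminStmt := by
  intro κ2 κ3 z ⟨h1, h3, h5, h7, _⟩ ⟨e2, e3⟩ k2 k3
  unfold rr2 at e2
  unfold rr3 at e3
  unfold aG2 aG3
  rw [h1, h3] at e2 ⊢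
  rw [h5, h7] at e3 ⊢
  exact ⟨Cons.rmin _ _ _ e2 k2, Cons.rmin _ _ _ e3 k3⟩

end Pool.Agent.MP_1ba41f_an.S2.KP
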