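import Pool.Agent.MP_1ba41f_an.S2.KP.Spec

/-! The matched quantities at the end of a long arc. -/

noncomputable section
open Set Complex

namespace Pool.Agent.MP_1ba41f_an.S2.KP

namespace FinS

theorem phase {Q x : ℂ} {ε : ℝ} (hQ : ‖Q - 1‖ ≤ ε) (hε : ε ≤ 1 / 20) (hx : ‖x‖ ≤ 3 / 4) :
    0 < (Q * exp (I * x)).re ∧ ‖-I * log (Q * exp (I * x)) - x‖ ≤ 3 / 2 * ε := by
  have h1 : ‖log Q‖ ≤ 3 / 2 * ε := by
    have := norm_log_one_add_half_le_self (z := Q - 1) (by linarith)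
    rw [add_sub_cancel] at this
    linarith
  have h2 : Q ≠ 0 := by
    rintro rfl
    rw [zero_sub, norm_neg, norm_one] at hQ
    linarith
  have h3 : Q * exp (I * x) = exp (log Q + I * x) := by rw [exp_add, exp_log h2]
  have h4 : |(log Q + I * x).im| ≤ 1 := by
    refine (abs_im_le_norm _).trans ((norm_add_le _ _).trans ?_)
    rw [norm_mul, norm_I]
    linarith
  have h5 := abs_le.1 h4
  have h6 := Real.pi_gt_three
  rw [h3, log_exp (by linarith) (by linarith), exp_re]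
  refine ⟨mul_pos (Real.exp_pos _) (Real.cos_pos_of_le_one h4), ?_⟩
  rw [show -I * (log Q + I * x) - x = -I * log Q by linear_combination -x * I_sq, norm_mul,
    norm_neg, norm_I, one_mul]
  exact h1

theorem near1 {κ : ℂ} (h : ‖κ - 1‖ ≤ 1 / 20) :
    0 < κ.re ∧ 0 < (κ ^ 2).re ∧ κ ≠ 0 ∧ ‖κ⁻¹‖ ≤ 2 ∧ ‖κ + 1‖ ≤ 3 := by
  have h1 := abs_le.1 ((abs_re_le_norm _).trans h)
  have h2 := abs_le.1 ((abs_im_le_norm _).trans h)
  simp only [sub_re, one_re, sub_im, one_im, sub_zero] at h1 h2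
  have h3 : 1 / 2 ≤ ‖κ‖ := le_trans (by linarith) (re_le_norm κ)
  refine ⟨by linarith, ?_, norm_pos_iff.1 (by linarith), ?_, ?_⟩
  · rw [pow_two, mul_re]
    nlinarith
  · rw [norm_inv]
    exact inv_le_of_inv_le₀ two_pos (by linarith)
  · have h4 := norm_add_le (κ - 1) 2
    rw [show κ - 1 + 2 = κ + 1 by ring, Complex.norm_two] at h4
    linarith

theorem bd2 {z : Az} {C : ℝ} (h : ‖z‖ ≤ C) : ‖rr2 z‖ ≤ C ^ 2 ∧ ‖aS2 z‖ ≤ C ^ 2 := by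
  have h1 : ∀ i j, ‖z i * z j‖ ≤ C ^ 2 := fun i j => by
    rw [norm_mul, pow_two]
    exact mul_le_mul ((norm_le_pi_norm z i).trans h) ((norm_le_pi_norm z j).trans h)
      (norm_nonneg _) ((norm_nonneg _).trans h)
  refine ⟨h1 0 1, ?_⟩
  rw [aS2, norm_div, Complex.norm_two]
  linarith [norm_add_le (z 1 * z 2) (z 0 * z 3), h1 1 2, h1 0 3]

theorem mulle {a b : ℂ} {A B : ℝ} (ha : ‖a‖ ≤ A) (hb : ‖b‖ ≤ B) : ‖a * b‖ ≤ A * B := by
  rw [norm_mul]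
  exact mul_le_mul ha hb (norm_nonneg _) ((norm_nonneg _).trans ha)

end FinS

open FinS in
theorem finS (h2 : Body2Stmt) (hE : EndStmt) (hC : ConsStmt) : FinStmt := by
  intro C hC1
  obtain ⟨Be, hBe, hE⟩ := hE C hC1
  refine ⟨Be + 30 * C ^ 2, by positivity, fun μ hμ => ?_⟩
  obtain ⟨η, hη, hη1, hη2⟩ : ∃ η : ℝ, 0 < η ∧ η ≤ μ / 6 ∧ η ≤ 1 / 10 :=
    ⟨min (μ / 6) (1 / 10), by positivity, min_le_left _ _, min_le_right _ _⟩
  obtain ⟨e0, he0, hE⟩ := hE η hη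
  refine ⟨min e0 (min (μ / 32) (1 / (200 * C ^ 2))), by positivity, ?_⟩
  intro ε ν0 κ2 ν z hε D m j κ γ S0 dT τ2 τ3 hm hk3 hsq r2 r3 hX0 hG0 hZ hQ hS hγ hS0 hdT hτ him
    hsy hreg h3 z4 z5
  simp only [le_min_iff] at hε
  obtain ⟨ε1, ε2, ε3⟩ := hε
  have hC2 : C ≤ C ^ 2 := by nlinarith
  have hν0 := D.pos
  have hε0 : 0 < ε := pos_of_mul_pos_left (one_pos.trans_le D.big) hν0.le
  rw [le_div_iff₀ (by positivity)] at ε3
  have ε4 : ε ≤ 1 / 200 := by nlinarith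
  have n1 : 200 * C ^ 2 ≤ ν0 := le_of_mul_le_mul_left (ε3.trans D.big) hε0
  have n2 : ν0 ≤ ν0 ^ 3 := le_self_pow₀ (by linarith) (by norm_num)
  have k1 : ‖κ2 - 1‖ ≤ ε := by
    have := D.ka
    nlinarith [norm_nonneg (κ2 - 1)]
  obtain ⟨k2, k3, k4, k5, k6⟩ := near1 (κ := κ2) (by linarith)
  obtain ⟨E1, E2, E3, E4, E5⟩ := hE ε ν0 κ2 ν z ε1 D τ2 τ3 (γ - S0 + dT) (by
    linarith [norm_add_le (γ - S0) dT, norm_sub_le γ S0]) hsy (by rw [hτ]; ring) him hreg h3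
  obtain ⟨δ, hδ⟩ : ∃ δ, δ = (aS3 z - S0) - (τ3 - Real.pi * ν + aS3 z) := ⟨_, rfl⟩
  have d1 : ‖δ‖ ≤ ε + η := by
    rw [hδ]
    linarith [norm_sub_le (aS3 z - S0) (τ3 - Real.pi * ν + aS3 z)]
  have d2 : τ2 = (Real.pi * ν0 ^ 3 : ℝ) + (γ + dT + δ) := by
    push_cast
    linear_combination hτ - hδ
  have d3 : ‖γ + dT + δ‖ ≤ C + 1 := by
    linarith [norm_add_le (γ + dT) δ, norm_add_le γ dT]
  have p1 := Real.pi_gt_three
  have p2 := Real.pi_le_four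
  have p3 : 0 < ν0 ^ 3 := by positivity
  have p4 : ‖((Real.pi * ν0 ^ 3 : ℝ) : ℂ)‖ ≤ 4 * ν0 ^ 3 := by
    rw [norm_real, Real.norm_of_nonneg (by positivity)]
    nlinarith
  have d4 : ‖τ2‖ + 1 ≤ 5 * ν0 ^ 3 := by
    have := norm_add_le ((Real.pi * ν0 ^ 3 : ℝ) : ℂ) (γ + dT + δ)
    rw [← d2] at this
    linarith
  have d5 : ‖κ2 - 1‖ * (‖τ2‖ + 1) ≤ 5 * ε := by
    have := mul_le_mul_of_nonneg_left d4 (norm_nonneg (κ2 - 1))
    linarith [D.ka]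
  obtain ⟨x, hx⟩ : ∃ x, x = κ2 * τ2 - Real.pi * ν0 ^ 3 - γ := ⟨_, rfl⟩
  have x1 : ‖x - dT‖ ≤ 6 * ε + η := by
    have e : x - dT = (κ2 - 1) * τ2 + δ := by
      push_cast at d2
      linear_combination hx + d2
    have := norm_add_le ((κ2 - 1) * τ2) δ
    rw [← e, norm_mul] at this
    linarith [norm_nonneg (κ2 - 1)]
  obtain ⟨b1, b2⟩ := bd2 D.bd
  refine ⟨by rw [← hx]; linarith, ?_, fun z0 z1 => ?_⟩
  · have i1 : |τ2.im| ≤ 1 := by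
      have a1 := abs_le.1 him
      have a2 := abs_le.1 hreg.2.2
      rw [add_im] at a1
      exact abs_le.2 ⟨by linarith [a1.1, a2.2], by linarith [a1.2, a2.1]⟩
    have a1 := abs_le.1 ((abs_re_le_norm _).trans
      ((h2 (C ^ 2) κ2 τ2 0 0 (rr2 z) (aS2 z) (by linarith) (by linarith) i1).2 b1 b2))
    have a2 := abs_le.1 ((abs_re_le_norm _).trans d3)
    have a3 := congrArg re d2
    rw [add_re, ofReal_re] at a3
    rw [sub_re] at a1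
    nlinarith [a1.1, a2.1]
  obtain ⟨-, c1, c2, -, -, -, -, c3, -, c4⟩ := (hC κ2 (1 / ν) z D.eng).2 τ2 τ3
  obtain ⟨c5, -, c6, c7, c8, -, c9, c10, c11⟩ :=
    c4 r2 r3 (mul_ne_zero z0 z1) (mul_ne_zero z4 z5) k2
  generalize KS κ2 (1 / ν) z τ2 τ3 = w at *
  have f1 : Fh w / mid j κ (UV z) = Fh z / mid j κ (UV z) * exp (I * γ) * exp (I * x) := by
    have e : I * (κ2 * τ2) = I * γ + I * x + (2 * m : ℕ) * (2 * Real.pi * I) := by
      have hm' : (ν0 : ℂ) ^ 3 = 4 * m := by exact_mod_cast hm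
      push_cast
      linear_combination -I * hx + I * Real.pi * hm'
    rw [c11, e, exp_add, exp_add, exp_nat_mul_two_pi_mul_I]
    ring
  have x2 : ‖x‖ ≤ 1 / 2 := by
    have := norm_add_le (x - dT) dT
    rw [sub_add_cancel] at this
    linarith
  obtain ⟨f2, f3⟩ := phase hQ (by linarith) (x := x) (by linarith)
  rw [← f1] at f2 f3
  have f4 : -(1 - kk3 w * rr3 w + I * sq (kk3 w) * aS3 w) / ee3 w = fa ν z w := by
    rw [ee3, fa, c8, c2, hsq]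
  have f5 : Eap w = -I * log (fa ν z w) := by rw [Eap, f4]
  rw [← f5] at E3 E5
  change ‖xph (mid j κ (UV z)) w - x‖ ≤ _ at f3
  generalize hy : xph (mid j κ (UV z)) w = y at f3
  refine ⟨⟨z0, z1, z4, z5, c7 ▸ k3, c8 ▸ hk3, by rwa [c8, c2], c9 ▸ hX0, ?_, c10 ▸ hZ,
    by rwa [c10], f4 ▸ E2⟩, c7, c8, ?_, c10, ?_, ?_⟩
  · rwa [c7, c1, ← c5]
  · rw [LK, c8, hsq]
    simp
  · have e : LS (mid j κ (UV z)) w - dT =
        ((y - x) + (x - dT) - (κ2 - 1) * dT) * κ2⁻¹ + Eap w * ν := by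
      rw [LS, hy, c7, c8, c6, hsq]
      field_simp
      ring
    have a1 := mulle k1 hdT
    have a2 : ‖(y - x) + (x - dT) - (κ2 - 1) * dT‖ ≤ 8 * ε + η := by
      linarith [norm_sub_le ((y - x) + (x - dT)) ((κ2 - 1) * dT), norm_add_le (y - x) (x - dT)]
    have a3 := mulle a2 k5
    rw [e]
    linarith [norm_add_le (((y - x) + (x - dT) - (κ2 - 1) * dT) * κ2⁻¹) (Eap w * ν)]
  · have e : LP (mid j κ (UV z)) w - Real.pi * (ν ^ 3 - ν0 ^ 3) =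
        (y * κ2⁻¹ - aS2 z + (Real.pi * ν0 ^ 3 : ℝ) * (κ2 - 1) * (κ2 + 1) - (γ + dT + δ)) *
          (κ2⁻¹ * κ2⁻¹) - ((Eap w - 1 / ν * aS3 w) * ν ^ 3 -
          (tk (1 / ν) (rr3 z) (aS3 z) τ3 - Real.pi * ν ^ 3)) := by
      have e1 : aS2 w = τ2 + aS2 z - κ2 ^ 2 * tk (1 / ν) (rr3 z) (aS3 z) τ3 := by
        rw [← hsy]
        linear_combination c3
      have e2 : γ + dT + δ = τ2 - (Real.pi * ν0 ^ 3 : ℝ) := by linear_combination -d2
      rw [LP, hy, c7, c8, c6, hsq, e1, e2, one_div ν, inv_pow, div_inv_eq_mul]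
      push_cast
      field_simp
      ring
    have a1 : ‖y‖ ≤ 1 := by
      have := norm_add_le (y - x) x
      rw [sub_add_cancel] at this
      linarith
    have a2 := mulle a1 k5
    have a3 : ‖((Real.pi * ν0 ^ 3 : ℝ) : ℂ) * (κ2 - 1)‖ ≤ 4 * ε := by
      have := mulle p4 (le_refl ‖κ2 - 1‖)
      linarith [D.ka]
    have a4 := mulle a3 k6
    have a5 : ‖y * κ2⁻¹ - aS2 z + (Real.pi * ν0 ^ 3 : ℝ) * (κ2 - 1) * (κ2 + 1) - (γ + dT + δ)‖ ≤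
        6 * C ^ 2 := by
      linarith [norm_sub_le (y * κ2⁻¹ - aS2 z + (Real.pi * ν0 ^ 3 : ℝ) * (κ2 - 1) * (κ2 + 1))
        (γ + dT + δ), norm_add_le (y * κ2⁻¹ - aS2 z) ((Real.pi * ν0 ^ 3 : ℝ) * (κ2 - 1) * (κ2 + 1)),
        norm_sub_le (y * κ2⁻¹) (aS2 z)]
    have a6 := mulle a5 (mulle k5 k5)
    rw [e]
    exact (norm_sub_le _ _).trans (by linarith)

end Pool.Agent.MP_1ba41f_an.S2.KP
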