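import Pool.Agent.MP_1ba41f_an.S2.KP.Spec
import Pool.Agent.MP_1ba41f_an.S2.FL.Real
import Pool.Agent.MP_1ba41f_an.S2.OD.Ext

/-! The flow with two clocks: existence, real points, continuation with a barrier. -/

noncomputable section
open Set Complex Filter Topology
open scoped ComplexConjugate

namespace Pool.Agent.MP_1ba41f_an.S2.KP

namespace FlowE

open FL.RealS

theorem DE_open : IsOpen DE := by
  refine isOpen_ne_fun (f := fun y : Ez => nn y.1) ?_ continuous_const
  unfold nn rr2 rr3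
  fun_prop

theorem XE_diff : DifferentiableOn ℂ XE DE := by
  intro y hy
  refine DifferentiableAt.differentiableWithinAt ?_
  have h1 : nn y.1 ≠ 0 := hy
  have h7 : 2 * nn y.1 ≠ 0 := mul_ne_zero two_ne_zero h1
  have g2 : DifferentiableAt ℂ (fun q : Ez => rr2 q.1) y := by unfold rr2; fun_prop
  have g3 : DifferentiableAt ℂ (fun q : Ez => rr3 q.1) y := by unfold rr3; fun_prop
  have gn : DifferentiableAt ℂ (fun q : Ez => nn q.1) y := g2.add g3
  refine DifferentiableAt.prodMk (differentiableAt_pi.2 fun i => ?_)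
    (by fun_prop (disch := assumption))
  fin_cases i <;> simp only [X0, Fin.zero_eta, Fin.mk_one, Fin.reduceFinMk, Matrix.cons_val] <;>
    fun_prop (disch := assumption)

theorem XE_J (y : Ez) : JY (XE y) = XE (JY y) := by
  rw [JY_eq, JY_eq]
  refine Prod.ext (funext fun i => ?_) (Prod.ext ?_ (Prod.ext ?_ (by simp [XE])))
  · fin_cases i <;> simp [XE, X0, rr2, rr3, nn, two] <;> ring
  · simp [XE, rr2, rr3, nn]
    ring
  · simp [XE, rr2, rr3, nn]
    ring

end FlowE

open FlowE FL.RealS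

theorem flowES (hF : FlowStmt) : FlowEStmt := isFlow_flow hF DE_open XE_diff

theorem realES (hE : FlowEStmt) : RealEStmt := by
  intro y s hy hs
  refine (realY _).2 (gen hE JY (fun y hy => ?_) XE_J (l := fun _ => 1) continuous_const
    (fun _ _ => one_ne_zero) (fun _ _ => rfl) ((realY y).1 hy) hs).1
  rw [JY_eq]
  refine fun e => hy ?_
  have := congrArg conj e
  simp [nn, rr2, rr3] at this ⊢
  linear_combination this

theorem bootS (hX : FL.ExtCStmt) : BootStmt := by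
  intro E _ _ _ _ f U Ω Φ h K A hK hKU hA x τ u0 hu0 h0 hA0 hb
  have cm : Continuous fun t : ℝ => (x, (t : ℂ) * τ) := by fun_prop
  have ca : ∀ s : ℝ, (x, (s : ℂ) * τ) ∈ Ω → ContinuousAt (fun t : ℝ => Φ (x, (t : ℂ) * τ)) s :=
    fun s hs => ContinuousAt.comp (f := fun t : ℝ => (x, (t : ℂ) * τ))
      (h.hol.continuousOn.continuousAt (h.op.mem_nhds hs)) cm.continuousAt
  have lo : ∀ t ∈ Icc 0 u0, (x, (t : ℂ) * τ) ∈ Ω := fun t ht => by
    rcases hu0.1.eq_or_lt with e | e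
    · rwa [le_antisymm ht.2 (e ▸ ht.1)]
    · have := h.star _ h0 (t / u0) ⟨div_nonneg ht.1 e.le, (div_le_one e).2 ht.2⟩
      rwa [← mul_assoc, ← ofReal_mul, div_mul_cancel₀ _ e.ne'] at this
  have key := ExtA.ind (S := 1)
    (P := fun t => t ≤ 1 → (x, (t : ℂ) * τ) ∈ Ω ∧ (u0 ≤ t → Φ (x, (t : ℂ) * τ) ∈ A)) ?_ ?_
  · exact fun u hu => ⟨(key u ⟨hu0.1.trans hu.1, hu.2⟩ hu.2).1,
      (key u ⟨hu0.1.trans hu.1, hu.2⟩ hu.2).2 hu.1⟩
  · intro s hs ih _
    rcases le_or_gt s u0 with e | e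
    · exact ⟨lo s ⟨hs.1, e⟩, fun e' => by rwa [le_antisymm e e']⟩
    have cl : (x, (s : ℂ) * τ) ∈ Ω → Φ (x, (s : ℂ) * τ) ∈ A := fun m => by
      refine hA.mem_of_tendsto (b := 𝓝[<] s) ((ca s m).tendsto.mono_left nhdsWithin_le_nhds) ?_
      filter_upwards [Ioo_mem_nhdsLT e] with t ht
      exact (ih t ⟨hu0.1.trans ht.1.le, ht.2⟩ (ht.2.le.trans hs.2)).2 ht.1.le
    have m : (x, (s : ℂ) * τ) ∈ Ω := by
      refine hX E f U Ω Φ h (K ∪ (fun t : ℝ => Φ (x, (t : ℂ) * τ)) '' Icc 0 u0)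
        (hK.union (isCompact_Icc.image_of_continuousOn fun t ht =>
          (ca t (lo t ht)).continuousWithinAt)) (union_subset hKU ?_) x (h.mem _ h0).1 _ ?_
      · rintro _ ⟨t, ht, rfl⟩
        exact (h.mem _ (lo t ht)).2
      · intro v hv m
        rw [← mul_assoc, ← ofReal_mul] at m ⊢
        have a1 : 0 ≤ v * s := mul_nonneg hv.1 hs.1
        have a2 : v * s ≤ s := mul_le_of_le_one_left hs.1 hv.2
        rcases le_total (v * s) u0 with c | c
        · exact Or.inr ⟨_, ⟨a1, c⟩, rfl⟩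
        · refine Or.inl (hb _ ⟨c, a2.trans hs.2⟩ m ?_).1
          rcases a2.eq_or_lt with d | d
          · rw [d] at m ⊢
            exact cl m
          · exact (ih _ ⟨a1, d⟩ (a2.trans hs.2)).2 c
    exact ⟨m, fun _ => cl m⟩
  · intro s hs
    rcases lt_or_ge 1 s with e | e
    · filter_upwards [Ioi_mem_nhds e] with t ht c
      exact absurd ht c.not_gt
    obtain ⟨m, a⟩ := hs e
    have ev : ∀ᶠ t : ℝ in 𝓝 s, (x, (t : ℂ) * τ) ∈ Ω := cm.continuousAt.eventually (h.op.mem_nhds m)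
    rcases lt_or_ge s u0 with c | c
    · filter_upwards [ev, Iio_mem_nhds c] with t h1 h2 _
      exact ⟨h1, fun d => absurd h2 d.not_gt⟩
    · filter_upwards [ev, (ca s m).eventually
        (isOpen_interior.mem_nhds (hb s ⟨c, e⟩ m (a c)).2)] with t h1 h2 _
      exact ⟨h1, fun _ => interior_subset h2⟩

end Pool.Agent.MP_1ba41f_an.S2.KP
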