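import Pool.Agent.MP_1ba41f_an.S2.KP.Spec

/-! Row LIM: the real arcs of the limit. -/

noncomputable section
open Set Complex
open scoped ComplexConjugate

namespace Pool.Agent.MP_1ba41f_an.S2.KP

namespace Lim

theorem mono {g g' : ℝ → Ez} (L : Ez →L[ℝ] ℝ)
    (h : ∀ u ∈ Icc (0 : ℝ) 1, HasDerivWithinAt g (g' u) (Icc 0 1) u ∧ 0 ≤ L (g' u)) :
    L (g 0) ≤ L (g 1) := by
  have hd : ∀ u ∈ Icc (0 : ℝ) 1, HasDerivWithinAt (fun u => L (g u)) (L (g' u)) (Icc 0 1) u :=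
    fun u hu => L.hasFDerivAt.comp_hasDerivWithinAt u (h u hu).1
  have hm : MonotoneOn (fun u => L (g u)) (Icc (0 : ℝ) 1) := by
    refine monotoneOn_of_hasDerivWithinAt_nonneg (f' := fun u => L (g' u)) (convex_Icc 0 1)
      (fun u hu => (hd u hu).continuousWithinAt) (fun u hu => ?_) (fun u hu => ?_)
    · exact (hd u (interior_subset hu)).mono interior_subset
    · exact (h u (interior_subset hu)).2
  exact hm (left_mem_Icc.2 zero_le_one) (right_mem_Icc.2 zero_le_one) zero_le_one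

theorem rr2_eq {z : Az} (h : RealZ z) : rr2 z = (normSq (z 0) : ℝ) := by
  rw [rr2, h.1, mul_conj]

theorem rr3_eq {z : Az} (h : RealZ z) : rr3 z = (normSq (z 4) : ℝ) := by
  rw [rr3, h.2.2.1, mul_conj]

theorem nn_eq {z : Az} (h : RealZ z) : nn z = (normSq (z 0) + normSq (z 4) : ℝ) := by
  rw [nn, rr2_eq h, rr3_eq h]; push_cast; rfl

def L2 : Ez →L[ℝ] ℝ :=
  reCLM.comp ((ContinuousLinearMap.fst ℝ ℂ (ℂ × ℂ × ℂ)).comp
    (ContinuousLinearMap.snd ℝ Az (ℂ × ℂ × ℂ × ℂ)))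

def L3 : Ez →L[ℝ] ℝ :=
  reCLM.comp ((ContinuousLinearMap.fst ℝ ℂ (ℂ × ℂ)).comp
    ((ContinuousLinearMap.snd ℝ ℂ (ℂ × ℂ × ℂ)).comp
      (ContinuousLinearMap.snd ℝ Az (ℂ × ℂ × ℂ × ℂ))))

theorem L2_apply (y : Ez) : L2 y = y.2.1.re := rfl
theorem L3_apply (y : Ez) : L3 y = y.2.2.1.re := rfl

theorem clocks (hE : FlowEStmt) (hR : RealEStmt) {y : Ez} (hy : RealE y) {s : ℝ} (hs : 0 ≤ s)
    (hd : (y, (s : ℂ)) ∈ OE) :
    y.2.1.re ≤ (FE (y, (s : ℂ))).2.1.re ∧ y.2.2.1.re ≤ (FE (y, (s : ℂ))).2.2.1.re := by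
  obtain ⟨e0, hg⟩ := IsFlow.traj hE hd
  have hr : ∀ u ∈ Icc (0 : ℝ) 1, RealZ (FE (y, (u : ℂ) * (s : ℂ))).1 := by
    intro u hu
    have h1 : (y, ((u * s : ℝ) : ℂ)) ∈ OE := by
      have := hE.star _ hd u hu
      simpa using this
    have := (hR y (u * s) hy h1).1
    simpa using this
  have e0' : FE (y, ((0 : ℝ) : ℂ) * (s : ℂ)) = y := e0
  have e1' : FE (y, ((1 : ℝ) : ℂ) * (s : ℂ)) = FE (y, (s : ℂ)) := by simp
  constructor
  · have := mono L2 (g := fun u : ℝ => FE (y, (u : ℂ) * (s : ℂ)))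
      (g' := fun u : ℝ => (s : ℂ) • XE (FE (y, (u : ℂ) * (s : ℂ)))) fun u hu => ⟨(hg u hu).2, ?_⟩
    · simpa only [L2_apply, e0', e1'] using this
    · rw [L2_apply]
      show 0 ≤ ((s : ℂ) * (rr3 _ / nn _)).re
      rw [rr3_eq (hr u hu), nn_eq (hr u hu), ← ofReal_div, ← ofReal_mul, ofReal_re]
      exact mul_nonneg hs (div_nonneg (normSq_nonneg _)
        (add_nonneg (normSq_nonneg _) (normSq_nonneg _)))
  · have := mono L3 (g := fun u : ℝ => FE (y, (u : ℂ) * (s : ℂ)))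
      (g' := fun u : ℝ => (s : ℂ) • XE (FE (y, (u : ℂ) * (s : ℂ)))) fun u hu => ⟨(hg u hu).2, ?_⟩
    · simpa only [L3_apply, e0', e1'] using this
    · rw [L3_apply]
      show 0 ≤ ((s : ℂ) * (rr2 _ / nn _)).re
      rw [rr2_eq (hr u hu), nn_eq (hr u hu), ← ofReal_div, ← ofReal_mul, ofReal_re]
      exact mul_nonneg hs (div_nonneg (normSq_nonneg _)
        (add_nonneg (normSq_nonneg _) (normSq_nonneg _)))

theorem rep (hE : FlowEStmt) (hR : RealEStmt) (hP : RepStmt) {z : Az} (hz : RealZ z)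
    (he : Eng 1 0 z) {s : ℝ} (hs : 0 ≤ s) (hd : (st z 1 0, (s : ℂ)) ∈ OE) :
    ∃ τ2 τ3 : ℝ, 0 ≤ τ2 ∧ 0 ≤ τ3 ∧ τ2 + τ3 = s ∧ Sync 1 0 z τ2 τ3 ∧
      FE (st z 1 0, (s : ℂ)) = (KS 1 0 z τ2 τ3, (τ2 : ℂ), (τ3 : ℂ), 1, 0) ∧
      RealZ (KS 1 0 z τ2 τ3) := by
  have e : st z ((1 : ℂ) ^ 2) ((0 : ℂ) ^ 2) = st z 1 0 := by simp
  have hy : RealE (st z 1 0) := ⟨hz, by simp [st], by simp [st], by simp [st], by simp [st]⟩
  obtain ⟨a, b, h1, h2, h3⟩ := hP 1 0 z s he (by rw [e]; exact hd)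
  rw [e] at h1
  have hr := hR _ s hy hd
  obtain ⟨c2, c3⟩ := clocks hE hR hy hs hd
  rw [h1] at hr c2 c3
  obtain ⟨r1, r2, r3, -⟩ := hr
  have ea : ((a.re : ℝ) : ℂ) = a := Complex.ext (by simp) (by simpa using r2.symm)
  have eb : ((b.re : ℝ) : ℂ) = b := Complex.ext (by simp) (by simpa using r3.symm)
  refine ⟨a.re, b.re, by simpa [st] using c2, by simpa [st] using c3, ?_, ?_, ?_, ?_⟩
  · have := congrArg Complex.re h2
    simpa using this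
  · rw [ea, eb]; exact h3
  · rw [ea, eb, h1]; simp
  · rw [ea, eb]; exact r1

theorem closed_real : IsClosed {y : Ez | RealZ y.1} := by
  have c : ∀ i : Fin 9, Continuous fun y : Ez => y.1 i := fun i => by fun_prop
  have cc : ∀ i : Fin 9, Continuous fun y : Ez => conj (y.1 i) := fun i =>
    continuous_conj.comp (c i)
  exact (isClosed_eq (c 1) (cc 0)).inter ((isClosed_eq (c 3) (cc 2)).inter
    ((isClosed_eq (c 5) (cc 4)).inter ((isClosed_eq (c 7) (cc 6)).inter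
      (isClosed_eq (continuous_im.comp (c 8)) continuous_const))))

theorem ddt_eq {z : Az} (h : RealZ z) : ddt z = conj (dd z) := by
  rw [ddt, dd, h.1, h.2.2.1]; simp

end Lim

open Lim in
theorem limS (hE : FlowEStmt) (hX : ExtStmt) (hR : RealEStmt) (hP : RepStmt) (hC : ConsStmt)
    (hm : RminStmt) (hb : CbStmt) (hB : AlgBStmt) (h0 : BaseStmt) (hy : EarlyStmt) : LimStmt := by
  intro x hx σ hσ s hs
  obtain ⟨hz, he, hn, -, -, -, -, hk⟩ := (hb σ hσ).2 x hx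
  obtain ⟨-, -, -, hκ, -, hM, -⟩ := h0.2.1 x hx
  obtain ⟨-, ⟨-, -, -, -, g2, g3, -⟩, -⟩ := hB σ x.1 x.2 hσ hM
  obtain ⟨hc, hcons⟩ := hC 1 0 _ he
  set z := collB σ x.1 x.2 with hzd
  have hdom : (st z 1 0, (s : ℂ)) ∈ OE := by
    let Ψ : ℝ × ℝ → Ez := fun t => (KS 1 0 z t.1 t.2, (t.1 : ℂ), (t.2 : ℂ), 1, 0)
    have hΨ : Continuous Ψ := by
      have h1 : Continuous fun t : ℝ × ℝ => KS 1 0 z t.1 t.2 :=
        hc.comp (f := fun t : ℝ × ℝ => ((t.1 : ℂ), (t.2 : ℂ))) (by fun_prop)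
      exact h1.prodMk (by fun_prop)
    have hK : IsCompact (Ψ '' (Icc 0 s ×ˢ Icc 0 s) ∩ {y : Ez | RealZ y.1}) :=
      ((isCompact_Icc.prod isCompact_Icc).image hΨ).inter_right closed_real
    refine (hX Ez XE DE OE FE hE _ hK ?_ (st z 1 0) hn s hs).1 ?_
    · rintro _ ⟨⟨t, -, rfl⟩, hr⟩ h
      have hr' : RealZ (KS 1 0 z t.1 t.2) := hr
      have h' : nn (KS 1 0 z t.1 t.2) = 0 := h
      obtain ⟨e1, e2, e3, -⟩ := hcons t.1 t.2
      obtain ⟨m2, m3⟩ := hm 1 0 _ hr' e1 (by simp) (by simp)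
      rw [nn_eq hr', ofReal_eq_zero, normSq_eq_norm_sq, normSq_eq_norm_sq] at h'
      rw [e2, g2] at m2
      rw [e3, g3] at m3
      have a0 := sq_nonneg ‖KS 1 0 z t.1 t.2 0‖
      have a4 := sq_nonneg ‖KS 1 0 z t.1 t.2 4‖
      have b2 : bG2 σ x.1 x.2 = 0 := by
        have : ‖bG2 σ x.1 x.2‖ ^ 2 = 0 := le_antisymm (by linarith) (sq_nonneg _)
        simpa using this
      have b3 : bG σ x.1 x.2 = 0 := by
        have : ‖bG σ x.1 x.2‖ ^ 2 = 0 := le_antisymm (by linarith) (sq_nonneg _)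
        simpa using this
      rw [bG2, b3] at b2
      have : x.1 = 0 := by simpa using b2
      rw [this] at hκ
      norm_num at hκ
    · intro t ht hd
      obtain ⟨a, b, ha, hb', hab, -, h1, h2⟩ := rep hE hR hP hz he ht.1 hd
      rw [h1]
      refine ⟨⟨(a, b), ⟨⟨ha, ?_⟩, ⟨hb', ?_⟩⟩, rfl⟩, h2⟩
      · show a ≤ s
        linarith [ht.2]
      · show b ≤ s
        linarith [ht.2]
  obtain ⟨a, b, ha, hb', hab, hsy, h1, h2⟩ := rep hE hR hP hz he hs hdom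
  obtain ⟨k0, k4, kt⟩ := hk a b
  have ey : y0 σ x = st z 1 0 := rfl
  rw [ey]
  refine ⟨hdom, a, b, ha, hb', hab, kt.1 hsy, by rw [h1], by rw [h1]; exact k0,
    by rw [h1]; exact k4, fun hs0 => ?_⟩
  rw [h1]
  have hdd : dd (KS 1 0 z a b) ≠ 0 := by
    intro h
    rw [dd, k0, k4, sub_eq_zero] at h
    obtain ⟨a0, b0⟩ := (hy x hx).1 σ hσ a b (kt.1 hsy) h.symm
    linarith
  refine ⟨hdd, ?_⟩
  show ddt (KS 1 0 z a b) ≠ 0
  rw [ddt_eq h2]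
  simpa using hdd

end Pool.Agent.MP_1ba41f_an.S2.KP
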