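import Pool.Agent.MP_1ba41f_an.S2.KP.Spec

/-! Row NEAR2: the conserved quantities near the collision states of the limit. -/

noncomputable section
open Set Complex Filter Topology

namespace Pool.Agent.MP_1ba41f_an.S2.KP

set_option maxHeartbeats 400000

namespace Near2

/-- A property that holds near every point of the graph of `c` holds in a uniform tube. -/
theorem tube {E F : Type} [PseudoMetricSpace E] [NormedAddCommGroup F] {K : Set E}
    (hK : IsCompact K) {c : E → F} (hc : ContinuousOn c K) {P : E × F → Prop}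
    (h : ∀ x ∈ K, ∀ᶠ p in 𝓝 (x, c x), P p) :
    ∃ δ > 0, ∀ x ∈ K, ∀ z, ‖z - c x‖ ≤ δ → P (x, z) := by
  have h1 : IsCompact ((fun x => (x, c x)) '' K) :=
    hK.image_of_continuousOn (continuousOn_id.prodMk hc)
  obtain ⟨δ, hδ, h2⟩ := h1.exists_cthickening_subset_open (isOpen_interior (s := {p | P p}))
    (by rintro _ ⟨x, hx, rfl⟩; exact mem_interior_iff_mem_nhds.2 (h x hx))
  refine ⟨δ, hδ, fun x hx z hz => interior_subset (h2 (Metric.mem_cthickening_of_dist_le _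
    (x, c x) δ _ ⟨x, hx, rfl⟩ ?_))⟩
  rw [Prod.dist_eq, dist_self, dist_eq_norm]
  exact max_le hδ.le hz

theorem sq_cont {z : ℂ} (h : z = 1) : ContinuousAt sq z :=
  continuousAt_cpow_const (h ▸ one_mem_slitPlane)

theorem sq_one : sq 1 = 1 := one_cpow _

theorem sg_cases (j : Fin 3) : sg j = 1 ∨ sg j = -1 := by
  unfold sg
  split_ifs <;> simp

/-- Continuity of the conserved quantities at a regular state. -/
theorem cont {z : Az} (h2 : rr2 z ≠ 0) (h3 : rr3 z ≠ 0) (k2 : kk2 z = 1) (k3 : kk3 z = 0)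
    (hx : 1 - hX z ≠ 0) (hg : 1 + sq (kk2 z) * aG2 z ≠ 0) :
    ContinuousAt hX z ∧ ContinuousAt (fun z => 1 + sq (kk2 z) * aG2 z) z ∧ ContinuousAt UV z ∧
      ContinuousAt Fh z := by
  have c2 : ContinuousAt kk2 z := by
    unfold kk2 rr2
    exact ContinuousAt.div (by fun_prop) (by fun_prop) h2
  have c3 : ContinuousAt kk3 z := by
    unfold kk3 rr3
    exact ContinuousAt.div (by fun_prop) (by fun_prop) h3
  have ap : ∀ i, ContinuousAt (fun z : Az => z i) z := fun i => continuousAt_apply i z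
  have s2 : ContinuousAt (fun z => sq (kk2 z)) z := (sq_cont k2).comp c2
  have g2 : ContinuousAt aG2 z := by unfold aG2; fun_prop
  have g3 : ContinuousAt aG3 z := by unfold aG3; fun_prop
  have e3 : ContinuousAt ee3 z :=
    ContinuousAt.comp (f := fun z => 1 - kk3 z * aG3 z ^ 2) (sq_cont (by simp [k3])) (by fun_prop)
  have e1 : ee3 z ≠ 0 := by simp [ee3, k3, sq_one]
  have a2 : ContinuousAt aA2 z :=
    (((ap 2).pow 2).add (c2.mul ((ap 0).pow 2))).neg.div_const 2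
  have a2t : ContinuousAt aA2t z :=
    (((ap 3).pow 2).add (c2.mul ((ap 1).pow 2))).neg.div_const 2
  have a3 : ContinuousAt aA3 z :=
    (((ap 6).pow 2).add (c3.mul ((ap 4).pow 2))).neg.div_const 2
  have a3t : ContinuousAt aA3t z :=
    (((ap 7).pow 2).add (c3.mul ((ap 5).pow 2))).neg.div_const 2
  have x1 : ContinuousAt hX z := by
    unfold hX
    exact ContinuousAt.div (by fun_prop) (by fun_prop) (mul_ne_zero two_ne_zero e1)
  have y1 : ContinuousAt hY z := by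
    unfold hY
    exact ContinuousAt.div (by fun_prop) (by fun_prop)
      (mul_ne_zero (mul_ne_zero two_ne_zero I_ne_zero) e1)
  have x2 : ContinuousAt (fun z => 1 - hX z) z := continuousAt_const.sub x1
  have x3 : ContinuousAt (fun z => 1 + sq (kk2 z) * aG2 z) z := continuousAt_const.add (s2.mul g2)
  have x4 : ContinuousAt (fun z : Az => (sq (kk2 z) * z 0 - I * z 2) ^ 2) z :=
    ((s2.mul (continuousAt_apply 0 z)).sub (continuousAt_const.mul (continuousAt_apply 2 z))).pow 2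
  exact ⟨x1, x3, ((s2.mul g2).div₀ x2 hx).prodMk (y1.div₀ x2 hx),
    ((x4.div₀ (continuousAt_const.mul x3) (mul_ne_zero two_ne_zero hg)).mul a3t).div₀ e3 e1⟩

theorem small {E F : Type} [TopologicalSpace E] [NormedAddCommGroup F] {f : E → F} {p : E}
    (hf : ContinuousAt f p) (h0 : f p = 0) {μ : ℝ} (hμ : 0 < μ) : ∀ᶠ q in 𝓝 p, ‖f q‖ ≤ μ :=
  (hf.norm.eventually (gt_mem_nhds (by simpa [h0] using hμ))).mono fun _ h => le_of_lt h

end Near2

open Near2 in
theorem near2S (hB : AlgBStmt) (hQ : AlgQStmt) (hN : AnaStmt) (hb : CbStmt) : Near2Stmt := by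
  intro K hK hO μ hμ
  have key : ∀ j : Fin 3, ∃ δ > 0, ∀ x ∈ K, ∀ z : Az, ‖z - collB (sg j) x.1 x.2‖ ≤ δ →
      rr2 z ≠ 0 ∧ rr3 z ≠ 0 ∧ 1 - hX z ≠ 0 ∧ 1 + sq (kk2 z) * aG2 z ≠ 0 ∧ OkZ x.1 (UV z) ∧
      ‖UV z - PP (sg j) x.1 x.2‖ ≤ μ ∧ ‖Fh z / mid j x.1 (UV z) * exp (I * g0 j x) - 1‖ ≤ μ ∧
      ‖aS3 z - bS (sg j) x.1 x.2‖ ≤ μ := by
    intro j
    have hσ := sg_cases j
    refine tube hK ((hb _ hσ).1.mono fun x hx => ⟨(hO x hx).1, (hO x hx).2.1⟩)
      (P := fun p : (ℂ × C2) × Az => rr2 p.2 ≠ 0 ∧ rr3 p.2 ≠ 0 ∧ 1 - hX p.2 ≠ 0 ∧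
        1 + sq (kk2 p.2) * aG2 p.2 ≠ 0 ∧ OkZ p.1.1 (UV p.2) ∧
        ‖UV p.2 - PP (sg j) p.1.1 p.1.2‖ ≤ μ ∧
        ‖Fh p.2 / mid j p.1.1 (UV p.2) * exp (I * g0 j p.1) - 1‖ ≤ μ ∧
        ‖aS3 p.2 - bS (sg j) p.1.1 p.1.2‖ ≤ μ) fun x hx => ?_
    obtain ⟨hM, -, hZ1, hZ2⟩ := hO x hx
    have hZ : OkZ x.1 (PP (sg j) x.1 x.2) := by rcases hσ with e | e <;> rw [e] <;> assumption
    obtain ⟨-, ⟨b1, b2, b3, b4, b5, -, -, b8, -, b10, -, b12, b13⟩, -⟩ := hB _ x.1 x.2 hσ hM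
    have q8 := ((hQ _ x.1 hσ).1 x.2 hM).2.2.2.2.2.2.2
    generalize collB (sg j) x.1 x.2 = z at b1 b2 b3 b4 b5 b8 b10 b12 b13 ⊢
    have h2 : rr2 z ≠ 0 := b1 ▸ hM.1
    have h3 : rr3 z ≠ 0 := b2 ▸ hM.1
    have hx1 : 1 - hX z ≠ 0 := b10 ▸ (hM.2.2.2.2.2 _ hσ).1
    have hg : 1 + sq (kk2 z) * aG2 z ≠ 0 := by
      rw [b3, sq_one, one_mul, b5]
      exact (hM.2.2.2.2.2 _ hσ).2.2
    obtain ⟨c1, c2, c3, c4⟩ := cont h2 h3 b3 b4 hx1 hg
    have s2 : ContinuousAt (fun p : (ℂ × C2) × Az => p.2) (x, z) := continuousAt_snd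
    have s1 : ContinuousAt (fun p : (ℂ × C2) × Az => p.1) (x, z) := continuousAt_fst
    have nM := hN.1.1.mem_nhds (show x ∈ {x : ℂ × C2 | OkM x.1 x.2} from hM)
    have nZ := hN.2.1.1.mem_nhds
      (show (x.1, PP (sg j) x.1 x.2) ∈ {x : ℂ × C2 | OkZ x.1 x.2} from hZ)
    have dP : ContinuousAt (fun x : ℂ × C2 => PP (sg j) x.1 x.2) x :=
      (hN.1.2 _ hσ).1.continuousOn.continuousAt nM
    have dS : ContinuousAt (fun x : ℂ × C2 => bS (sg j) x.1 x.2) x :=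
      ((hN.1.2 _ hσ).2.continuousOn.continuousAt nM).fst
    have dG := (hN.2.1.2.2 j).continuousOn.continuousAt nZ
    have dG1 : ContinuousAt (fun y : ℂ × C2 => gj j y.1 y.2) (x.1, PP (sg j) x.1 x.2) := dG.fst
    have dG2 : ContinuousAt (fun y : ℂ × C2 => mid j y.1 y.2) (x.1, PP (sg j) x.1 x.2) := dG.snd
    have u1 : ContinuousAt (fun p : (ℂ × C2) × Az => UV p.2) (x, z) := c3.comp_of_eq s2 rfl
    have u2 : ContinuousAt (fun p : (ℂ × C2) × Az => (p.1.1, UV p.2)) (x, z) := s1.fst.prodMk u1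
    have u3 : ContinuousAt (fun p : (ℂ × C2) × Az => mid j p.1.1 (UV p.2)) (x, z) :=
      ContinuousAt.comp_of_eq (g := fun y : ℂ × C2 => mid j y.1 y.2)
        (f := fun p : (ℂ × C2) × Az => (p.1.1, UV p.2)) dG2 u2 (by rw [← b12])
    have u5 : ContinuousAt (g0 j) x :=
      ContinuousAt.comp_of_eq (g := fun y : ℂ × C2 => gj j y.1 y.2)
        (f := fun x : ℂ × C2 => (x.1, PP (sg j) x.1 x.2)) dG1 (continuousAt_fst.prodMk dP) rfl
    have u4 : ContinuousAt (fun p : (ℂ × C2) × Az => g0 j p.1) (x, z) := u5.comp_of_eq s1 rfl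
    have f1 : Fz (sg j) x.1 (PP (sg j) x.1 x.2) ≠ 0 := by
      have h1 := hZ.2.2.2.2.2.1
      have h2 := hZ.2.2.2.2.2.2.1
      generalize PP (sg j) x.1 x.2 = w at h1 h2 ⊢
      rcases hσ with e | e <;> rw [e] <;> assumption
    have f2 : mid j x.1 (UV z) = Fh z * exp (I * g0 j x) := by rw [mid, b12, b13, Fz, q8, g0]
    have f3 : Fh z ≠ 0 := by rwa [b13, ← q8]
    have f4 : mid j x.1 (UV z) ≠ 0 := f2 ▸ mul_ne_zero f3 (exp_ne_zero _)
    refine ((show ContinuousAt (fun p : (ℂ × C2) × Az => rr2 p.2) (x, z) by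
      unfold rr2; fun_prop).eventually_ne h2).and (((show ContinuousAt
        (fun p : (ℂ × C2) × Az => rr3 p.2) (x, z) by unfold rr3; fun_prop).eventually_ne h3).and
      (((continuousAt_const.sub (c1.comp_of_eq s2 rfl)).eventually_ne hx1).and
      (((c2.comp_of_eq s2 rfl).eventually_ne hg).and (Eventually.and ?_ (Eventually.and ?_
        (Eventually.and ?_ ?_))))))
    · rw [← b12] at nZ
      exact u2.preimage_mem_nhds nZ
    · have v1 : ContinuousAt (fun p : (ℂ × C2) × Az => PP (sg j) p.1.1 p.1.2) (x, z) :=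
        ContinuousAt.comp_of_eq (g := fun x : ℂ × C2 => PP (sg j) x.1 x.2) dP s1 rfl
      refine small (f := fun p : (ℂ × C2) × Az => UV p.2 - PP (sg j) p.1.1 p.1.2) (u1.sub v1) ?_ hμ
      show UV z - PP (sg j) x.1 x.2 = 0
      rw [b12, sub_self]
    · have v1 : ContinuousAt (fun p : (ℂ × C2) × Az => Fh p.2) (x, z) := c4.comp_of_eq s2 rfl
      have v2 : ContinuousAt (fun p : (ℂ × C2) × Az => exp (I * g0 j p.1)) (x, z) :=
        (continuousAt_const.mul u4).cexp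
      refine small (f := fun p : (ℂ × C2) × Az =>
        Fh p.2 / mid j p.1.1 (UV p.2) * exp (I * g0 j p.1) - 1)
        (((v1.div₀ u3 f4).mul v2).sub continuousAt_const) ?_ hμ
      have := exp_ne_zero (I * g0 j x)
      show Fh z / mid j x.1 (UV z) * exp (I * g0 j x) - 1 = 0
      rw [f2]
      field_simp
      ring
    · have v1 : ContinuousAt (fun p : (ℂ × C2) × Az => aS3 p.2) (x, z) := by unfold aS3; fun_prop
      have v2 : ContinuousAt (fun p : (ℂ × C2) × Az => bS (sg j) p.1.1 p.1.2) (x, z) :=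
        ContinuousAt.comp_of_eq (g := fun x : ℂ × C2 => bS (sg j) x.1 x.2) dS s1 rfl
      refine small (f := fun p : (ℂ × C2) × Az => aS3 p.2 - bS (sg j) p.1.1 p.1.2)
        (v1.sub v2) ?_ hμ
      show aS3 z - bS (sg j) x.1 x.2 = 0
      rw [b8, sub_self]
  choose δ hδ h using key
  refine ⟨min (δ 0) (min (δ 1) (δ 2)), lt_min (hδ 0) (lt_min (hδ 1) (hδ 2)),
    fun x hx j z hz => h j x hx z (hz.trans ?_)⟩
  fin_cases j <;> simp

end Pool.Agent.MP_1ba41f_an.S2.KP
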