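import Pool.Agent.MP_1ba41f_an.S2.KP.Spec

/-! Cube roots of `n + t` for large `n`. -/

namespace Pool.Agent.MP_1ba41f_an.S2.KP

namespace Nu

theorem re_pos {w : ℂ} (hw : 0 < w.re) {c : ℝ} (h0 : 0 ≤ c) (h1 : c ≤ 1) :
    0 < (w ^ (c : ℂ)).re := by
  have hne : w ≠ 0 := fun e => by rw [e] at hw; exact lt_irrefl _ hw
  have ha : |w.arg| < Real.pi / 2 := Complex.abs_arg_lt_pi_div_two_iff.2 (.inl hw)
  rw [Complex.cpow_ofReal_re]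
  refine mul_pos (Real.rpow_pos_of_pos (norm_pos_iff.2 hne) _) (Real.cos_pos_of_mem_Ioo ?_)
  have : |w.arg * c| < Real.pi / 2 := by
    rw [abs_mul, abs_of_nonneg h0]
    exact lt_of_le_of_lt (mul_le_of_le_one_right (abs_nonneg _) h1) ha
  exact abs_lt.1 this

theorem nu_eq (n : ℕ) (t : ℂ) : nu n t = ((n : ℂ) + t) ^ ((1 / 3 : ℝ) : ℂ) := by
  rw [nu]; norm_num

theorem nu_sq (n : ℕ) (t : ℂ) : nu n t ^ 2 = ((n : ℂ) + t) ^ ((2 / 3 : ℝ) : ℂ) := by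
  rw [nu, ← Complex.cpow_nat_mul]; norm_num

theorem nu_cube (n : ℕ) (t : ℂ) : nu n t ^ 3 = n + t := by
  have := Complex.cpow_nat_inv_pow ((n : ℂ) + t) (n := 3) (by norm_num)
  rw [nu, one_div]; exact_mod_cast this

theorem inv_pos' {z : ℂ} (h : 0 < z.re) : 0 < (z⁻¹).re := by
  rw [Complex.inv_re]
  exact div_pos h (Complex.normSq_pos.2 fun e => by rw [e] at h; exact lt_irrefl _ h)

/-- The distance between two cube roots. -/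
theorem close {ν : ℂ} {b : ℝ} (hb : 0 < b) (h1 : 0 < ν.re) (h2 : 0 < (ν ^ 2).re) :
    ‖ν - b‖ * b ^ 2 ≤ ‖ν ^ 3 - (b : ℂ) ^ 3‖ := by
  rw [show ν ^ 3 - (b : ℂ) ^ 3 = (ν - b) * (ν ^ 2 + ν * b + ((b ^ 2 : ℝ) : ℂ)) by
    push_cast; ring, norm_mul]
  refine mul_le_mul_of_nonneg_left (le_trans ?_ (Complex.re_le_norm _)) (norm_nonneg _)
  rw [Complex.add_re, Complex.add_re, Complex.re_mul_ofReal, Complex.ofReal_re]
  have := mul_pos h1 hb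
  linarith

theorem est {ν : ℂ} {b ε : ℝ} (hb : 4 ≤ b) (hε : 1 ≤ ε * b) (h : 12 * (‖ν - b‖ * b) ≤ 1) :
    ‖ν - b‖ ≤ ε ∧ ‖1 / ν ^ 2‖ ≤ ε ∧ b ^ 3 * ‖1 / (b : ℂ) ^ 2 - 1 / ν ^ 2‖ ≤ ε := by
  have b0 : 0 < b := by linarith
  have d0 := norm_nonneg (ν - b)
  have d1 : 12 * ‖ν - b‖ ≤ ε := le_of_mul_le_mul_right (by linarith) b0
  have d2 : ‖ν - b‖ ≤ 1 := by nlinarith
  have nb : ‖(b : ℂ)‖ = b := Complex.norm_of_nonneg b0.le
  have l1 : b / 2 ≤ ‖ν‖ := by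
    have := norm_sub_norm_le (b : ℂ) ν
    rw [nb, norm_sub_rev] at this
    linarith
  have l2 : ‖ν + b‖ ≤ 3 * b := by
    have := norm_add_le (ν - b) (2 * (b : ℂ))
    rw [norm_mul, nb, show ν - b + 2 * (b : ℂ) = ν + b by ring, Complex.norm_two] at this
    linarith
  have n0 : 0 < ‖ν‖ := by linarith
  have l3 : b ^ 2 ≤ 4 * ‖ν‖ ^ 2 := by nlinarith
  have e0 : 0 < ε := by nlinarith
  refine ⟨by linarith, ?_, ?_⟩
  · rw [norm_div, norm_one, norm_pow, div_le_iff₀ (by positivity)]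
    nlinarith
  · have hν : ν ≠ 0 := norm_pos_iff.1 n0
    have hb' : (b : ℂ) ≠ 0 := Complex.ofReal_ne_zero.2 b0.ne'
    rw [show 1 / (b : ℂ) ^ 2 - 1 / ν ^ 2 = (ν - b) * (ν + b) / ((b : ℂ) ^ 2 * ν ^ 2) by
      field_simp; ring, norm_div, norm_mul, norm_mul, norm_pow, norm_pow, nb, ← mul_div_assoc,
      div_le_iff₀ (by positivity)]
    calc b ^ 3 * (‖ν - b‖ * ‖ν + b‖) ≤ b ^ 3 * (‖ν - b‖ * (3 * b)) := by gcongr
      _ = 3 * ‖ν - b‖ * (b ^ 2 * b ^ 2) := by ring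
      _ ≤ 3 * ‖ν - b‖ * (b ^ 2 * (4 * ‖ν‖ ^ 2)) := by gcongr
      _ = 12 * ‖ν - b‖ * (b ^ 2 * ‖ν‖ ^ 2) := by ring
      _ ≤ ε * (b ^ 2 * ‖ν‖ ^ 2) := by gcongr

end Nu

theorem nuS : NuStmt := by
  intro R ε hε
  refine ⟨⌈(4 + 12 * |R| + 1 / ε) ^ 3⌉₊, fun n hn => ?_⟩
  have hn' : (4 + 12 * |R| + 1 / ε) ^ 3 ≤ (n : ℝ) := Nat.ceil_le.1 hn
  have n0 : (0 : ℝ) ≤ n := n.cast_nonneg
  obtain ⟨b, hb⟩ : ∃ b : ℝ, b = (n : ℝ) ^ (1 / 3 : ℝ) := ⟨_, rfl⟩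
  have b0 : 0 ≤ b := hb ▸ Real.rpow_nonneg n0 _
  have b3 : b ^ 3 = n := by
    have := Real.rpow_inv_natCast_pow n0 (n := 3) (by norm_num)
    rw [hb, one_div]; exact_mod_cast this
  have r0 := abs_nonneg R
  have r1 := le_abs_self R
  have e0 : 0 < 1 / ε := by positivity
  have hM : 4 + 12 * |R| + 1 / ε ≤ b :=
    (pow_le_pow_iff_left₀ (by positivity) b0 (by norm_num : 3 ≠ 0)).1 (b3 ▸ hn')
  have b4 : 4 ≤ b := by linarith
  have bn : b ≤ n := by rw [← b3]; nlinarith [sq_nonneg b, mul_le_mul b4 b4 (by norm_num) b0]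
  have e1 : 1 ≤ ε * b := by
    have : 1 / ε ≤ b := by linarith
    rwa [div_le_iff₀ hε, mul_comm] at this
  refine ⟨by linarith, b, by linarith, b3, e1, ?_, fun t ht => ?_⟩
  · rw [Nu.nu_eq, add_zero, hb, Complex.ofReal_cpow n0, Complex.ofReal_natCast]
  have hw : 0 < ((n : ℂ) + t).re := by
    have := (abs_le.1 (Complex.abs_re_le_norm t)).1
    rw [Complex.add_re, Complex.natCast_re]
    linarith
  have h1 : 0 < (nu n t).re := Nu.nu_eq n t ▸ Nu.re_pos hw (by norm_num) (by norm_num)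
  have h2 : 0 < (nu n t ^ 2).re := Nu.nu_sq n t ▸ Nu.re_pos hw (by norm_num) (by norm_num)
  have c := Nu.close (b := b) (by linarith) h1 h2
  rw [Nu.nu_cube, ← Complex.ofReal_pow, b3, Complex.ofReal_natCast, add_sub_cancel_left] at c
  have c' : 12 * (‖nu n t - b‖ * b) ≤ 1 :=
    le_of_mul_le_mul_right (by nlinarith) (show 0 < b by linarith)
  obtain ⟨k1, k2, k3⟩ := Nu.est b4 e1 c'
  refine ⟨Nu.nu_cube n t, k1, ?_, ?_, k2, b3 ▸ k3, fun hi => ?_⟩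
  · rw [one_div, inv_pow]; exact Nu.inv_pos' h2
  · rw [sq, one_div (2 : ℂ)]
    exact Complex.sq_cpow_two_inv (by rw [one_div]; exact Nu.inv_pos' h1)
  · rw [Nu.nu_eq, Complex.cpow_ofReal_im, Complex.arg_eq_zero_iff.2 ⟨hw.le, by simp [hi]⟩]
    simp

end Pool.Agent.MP_1ba41f_an.S2.KP
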