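import Pool.Agent.MP_1ba41f_an.S2.KP.Spec

/-! Row REP: the flow in terms of the two clocks. -/

noncomputable section
open Set Complex

namespace Pool.Agent.MP_1ba41f_an.S2.KP

namespace RepS

theorem cs_zero (κ : ℂ) : cs κ 0 = 1 := by simp [cs]

theorem sn_zero (κ : ℂ) : sn κ 0 = 0 := by simp [sn]

theorem tk_zero (κ r S : ℂ) : tk κ r S 0 = 0 := by simp [tk]

theorem lin (κ τ : ℂ) : HasDerivAt (fun t : ℂ => κ * t / 2) (κ / 2) τ := by
  simpa using ((hasDerivAt_id τ).const_mul κ).div_const 2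

theorem d_cs (κ τ : ℂ) : HasDerivAt (cs κ) (-κ ^ 2 * sn κ τ / 4) τ := by
  refine (lin κ τ).ccos.congr_deriv ?_
  unfold sn
  split_ifs with h
  · simp [h]
  · field_simp; ring

theorem d_sn (κ τ : ℂ) : HasDerivAt (sn κ) (cs κ τ) τ := by
  unfold sn cs
  split_ifs with h
  · exact (hasDerivAt_id τ).congr_deriv (by simp [h])
  · refine (((lin κ τ).csin.const_mul 2).div_const κ).congr_deriv ?_
    field_simp

theorem pyth (κ τ : ℂ) : cs κ τ ^ 2 + κ ^ 2 * sn κ τ ^ 2 / 4 = 1 := by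
  unfold sn cs
  split_ifs with h
  · simp [h]
  · field_simp
    linear_combination 4 * cos_sq_add_sin_sq (κ * τ / 2)

theorem d_tk (κ r S τ : ℂ) : HasDerivAt (tk κ r S)
    (r * cs κ τ ^ 2 + S * cs κ τ * sn κ τ + (2 - κ ^ 2 * r) * sn κ τ ^ 2 / 4) τ := by
  unfold tk sn cs
  split_ifs with h
  · refine ((((hasDerivAt_id τ).const_mul r).add
      ((((hasDerivAt_id τ).fun_pow 2).const_mul S).div_const 2)).add
      (((hasDerivAt_id τ).fun_pow 3).div_const 6)).congr_deriv ?_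
    simp [h]
    ring
  · have l : HasDerivAt (fun t : ℂ => κ * t) κ τ := by
      simpa using (hasDerivAt_id τ).const_mul κ
    refine ((((l.csin.const_mul r).div_const κ).add
      (((l.ccos.const_sub 1).const_mul S).div_const (κ ^ 2))).add
      ((l.sub l.csin).div_const (κ ^ 3))).congr_deriv ?_
    have e : κ * τ = 2 * (κ * τ / 2) := by ring
    have e1 : cos (κ * τ) = cos (κ * τ / 2) ^ 2 - sin (κ * τ / 2) ^ 2 := by
      conv_lhs => rw [e, cos_two_mul']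
    have e2 : sin (κ * τ) = 2 * sin (κ * τ / 2) * cos (κ * τ / 2) := by
      conv_lhs => rw [e, sin_two_mul]
    rw [e1, e2]
    have e3 := cos_sq_add_sin_sq (κ * τ / 2)
    generalize cos (κ * τ / 2) = c at e3 ⊢
    generalize sin (κ * τ / 2) = s at e3 ⊢
    field_simp
    linear_combination (-4) * e3

variable {ζ : ℂ}

theorem const {g : ℂ → ℂ} (h : ∀ u ∈ Icc (0 : ℝ) 1, HasDerivAt g 0 ((u : ℂ) * ζ)) :
    ∀ u ∈ Icc (0 : ℝ) 1, g ((u : ℂ) * ζ) = g 0 := by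
  have h1 : ∀ u ∈ Icc (0 : ℝ) 1, HasDerivAt (fun u : ℝ => g ((u : ℂ) * ζ)) 0 u := fun u hu => by
    simpa using ((h u hu).comp (u : ℂ) ((hasDerivAt_id (u : ℂ)).mul_const ζ)).comp_ofReal
  intro u hu
  simpa using constant_of_has_deriv_right_zero
    (fun u hu => (h1 u hu).continuousAt.continuousWithinAt)
    (fun u hu => (h1 u (Ico_subset_Icc_self hu)).hasDerivWithinAt) u hu

theorem pair (κ : ℂ) {w p τ ρ : ℂ → ℂ} (h0 : τ 0 = 0)
    (hτ : ∀ u ∈ Icc (0 : ℝ) 1, HasDerivAt τ (ρ (u * ζ)) (u * ζ))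
    (hw : ∀ u ∈ Icc (0 : ℝ) 1, HasDerivAt w (ρ (u * ζ) * p (u * ζ) / 2) (u * ζ))
    (hp : ∀ u ∈ Icc (0 : ℝ) 1, HasDerivAt p (-κ ^ 2 * ρ (u * ζ) * w (u * ζ) / 2) (u * ζ)) :
    ∀ u ∈ Icc (0 : ℝ) 1, w (u * ζ) = w 0 * cs κ (τ (u * ζ)) + p 0 * sn κ (τ (u * ζ)) / 2 ∧
      p (u * ζ) = p 0 * cs κ (τ (u * ζ)) - κ ^ 2 * w 0 * sn κ (τ (u * ζ)) / 2 := by
  have a := const (g := fun t => w t * cs κ (τ t) - p t * sn κ (τ t) / 2) fun u hu =>
    (((hw u hu).mul ((d_cs κ _).comp _ (hτ u hu))).sub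
      (((hp u hu).mul ((d_sn κ _).comp _ (hτ u hu))).div_const 2)).congr_deriv (by
        simp only [Function.comp]; ring)
  have b := const (g := fun t => p t * cs κ (τ t) + κ ^ 2 * (w t * sn κ (τ t)) / 2) fun u hu =>
    (((hp u hu).mul ((d_cs κ _).comp _ (hτ u hu))).add
      ((((hw u hu).mul ((d_sn κ _).comp _ (hτ u hu))).const_mul (κ ^ 2)).div_const 2)).congr_deriv
        (by simp only [Function.comp]; ring)
  intro u hu
  have a := a u hu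
  have b := b u hu
  simp only [h0, cs_zero, sn_zero, mul_one, mul_zero, zero_div, sub_zero, add_zero] at a b
  have c := pyth κ (τ (u * ζ))
  rw [← a, ← b]
  exact ⟨by linear_combination -w (u * ζ) * c, by linear_combination -p (u * ζ) * c⟩

/-- One Kepler motion. -/
theorem body (κ : ℂ) {w v p q τ ρ T : ℂ → ℂ} (h0 : τ 0 = 0)
    (hE : p 0 * q 0 = 2 - κ ^ 2 * (w 0 * v 0))
    (hτ : ∀ u ∈ Icc (0 : ℝ) 1, HasDerivAt τ (ρ (u * ζ)) (u * ζ))
    (hw : ∀ u ∈ Icc (0 : ℝ) 1, HasDerivAt w (ρ (u * ζ) * p (u * ζ) / 2) (u * ζ))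
    (hv : ∀ u ∈ Icc (0 : ℝ) 1, HasDerivAt v (ρ (u * ζ) * q (u * ζ) / 2) (u * ζ))
    (hp : ∀ u ∈ Icc (0 : ℝ) 1, HasDerivAt p (-κ ^ 2 * ρ (u * ζ) * w (u * ζ) / 2) (u * ζ))
    (hq : ∀ u ∈ Icc (0 : ℝ) 1, HasDerivAt q (-κ ^ 2 * ρ (u * ζ) * v (u * ζ) / 2) (u * ζ))
    (hT : ∀ u ∈ Icc (0 : ℝ) 1, HasDerivAt T (ρ (u * ζ) * (w (u * ζ) * v (u * ζ))) (u * ζ)) :
    (w ζ = w 0 * cs κ (τ ζ) + p 0 * sn κ (τ ζ) / 2 ∧
      p ζ = p 0 * cs κ (τ ζ) - κ ^ 2 * w 0 * sn κ (τ ζ) / 2) ∧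
    (v ζ = v 0 * cs κ (τ ζ) + q 0 * sn κ (τ ζ) / 2 ∧
      q ζ = q 0 * cs κ (τ ζ) - κ ^ 2 * v 0 * sn κ (τ ζ) / 2) ∧
    T ζ = T 0 + tk κ (w 0 * v 0) ((v 0 * p 0 + w 0 * q 0) / 2) (τ ζ) := by
  have a := pair κ h0 hτ hw hp
  have b := pair κ h0 hτ hv hq
  have c := const (g := fun t => T t - tk κ (w 0 * v 0) ((v 0 * p 0 + w 0 * q 0) / 2) (τ t))
    (fun u hu => ((hT u hu).sub ((d_tk κ _ _ _).comp _ (hτ u hu))).congr_deriv (by
      rw [(a u hu).1, (b u hu).1, ← hE]; ring)) 1 (by simp)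
  have a := a 1 (by simp)
  have b := b 1 (by simp)
  simp only [ofReal_one, one_mul, h0, tk_zero, sub_zero] at a b c
  exact ⟨a, b, by linear_combination c⟩

end RepS

open RepS in
theorem repS (hE : FlowEStmt) : RepStmt := by
  intro κ2 κ3 z ζ hen hm
  obtain ⟨Y, hY⟩ : ∃ Y : ℂ → Ez, Y = fun t => FE (st z (κ2 ^ 2) (κ3 ^ 2), t) := ⟨_, rfl⟩
  have y0 : Y 0 = (z, 0, 0, κ2 ^ 2, κ3 ^ 2) := by
    rw [hY]; exact (hE.zero _ (hE.mem _ hm).1).2
  have hd : ∀ u ∈ Icc (0 : ℝ) 1, HasDerivAt Y (XE (Y (u * ζ))) (u * ζ) := fun u hu => by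
    rw [hY]; exact hE.der _ (hE.star _ hm u hu)
  have hn : ∀ u ∈ Icc (0 : ℝ) 1, nn (Y (u * ζ)).1 ≠ 0 := fun u hu => by
    rw [hY]; exact (hE.mem _ (hE.star _ hm u hu)).2
  have k2 := const (g := fun t => (Y t).2.2.2.1) fun u hu => (hd u hu).snd.snd.snd.fst
  have k3 := const (g := fun t => (Y t).2.2.2.2) fun u hu => (hd u hu).snd.snd.snd.snd
  simp only [y0] at k2 k3
  have t2 : ∀ u ∈ Icc (0 : ℝ) 1, HasDerivAt (fun t => (Y t).2.1)
      (rr3 (Y (u * ζ)).1 / nn (Y (u * ζ)).1) (u * ζ) := fun u hu => (hd u hu).snd.fst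
  have t3 : ∀ u ∈ Icc (0 : ℝ) 1, HasDerivAt (fun t => (Y t).2.2.1)
      (rr2 (Y (u * ζ)).1 / nn (Y (u * ζ)).1) (u * ζ) := fun u hu => (hd u hu).snd.snd.fst
  have dz : ∀ i, ∀ u ∈ Icc (0 : ℝ) 1, HasDerivAt (fun t => (Y t).1 i)
      (X0 (κ2 ^ 2) (κ3 ^ 2) (Y (u * ζ)).1 i) (u * ζ) := fun i u hu => by
    have := hasDerivAt_pi.1 (hd u hu).fst i
    simpa only [XE, k2 u hu, k3 u hu] using this
  have s := const (g := fun t => (Y t).2.1 + (Y t).2.2.1 - t) (fun u hu =>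
    (((t2 u hu).add (t3 u hu)).sub (hasDerivAt_id _)).congr_deriv (by
      rw [← add_div, add_comm]; exact sub_eq_zero.2 (div_self (hn u hu)))) 1 (by simp)
  obtain ⟨⟨a0, a2⟩, ⟨a1, a3⟩, a8⟩ := body κ2 (ρ := fun t => rr3 (Y t).1 / nn (Y t).1)
    (w := fun t => (Y t).1 0) (v := fun t => (Y t).1 1) (p := fun t => (Y t).1 2)
    (q := fun t => (Y t).1 3) (T := fun t => (Y t).1 8) (by simp only [y0])
    (by simp only [y0]; exact hen.1) t2
    (fun u hu => (dz 0 u hu).congr_deriv (by simp [X0]; ring))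
    (fun u hu => (dz 1 u hu).congr_deriv (by simp [X0]; ring))
    (fun u hu => (dz 2 u hu).congr_deriv (by simp [X0]; ring))
    (fun u hu => (dz 3 u hu).congr_deriv (by simp [X0]; ring))
    (fun u hu => (dz 8 u hu).congr_deriv (by simp [X0, rr2]; ring))
  obtain ⟨⟨a4, a6⟩, ⟨a5, a7⟩, b8⟩ := body κ3 (ρ := fun t => rr2 (Y t).1 / nn (Y t).1)
    (w := fun t => (Y t).1 4) (v := fun t => (Y t).1 5) (p := fun t => (Y t).1 6)
    (q := fun t => (Y t).1 7) (T := fun t => (Y t).1 8) (by simp only [y0])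
    (by simp only [y0]; exact hen.2) t3
    (fun u hu => (dz 4 u hu).congr_deriv (by simp [X0]; ring))
    (fun u hu => (dz 5 u hu).congr_deriv (by simp [X0]; ring))
    (fun u hu => (dz 6 u hu).congr_deriv (by simp [X0]; ring))
    (fun u hu => (dz 7 u hu).congr_deriv (by simp [X0]; ring))
    (fun u hu => (dz 8 u hu).congr_deriv (by simp [X0, rr3]; ring))
  have k2 := k2 1 (by simp)
  have k3 := k3 1 (by simp)
  simp only [ofReal_one, one_mul, y0] at s k2 k3 a0 a1 a2 a3 a4 a5 a6 a7 a8 b8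
  refine ⟨(Y ζ).2.1, (Y ζ).2.2.1, ?_, by linear_combination s, ?_⟩
  · rw [show FE (st z (κ2 ^ 2) (κ3 ^ 2), ζ) = Y ζ by rw [hY]]
    refine Prod.ext ?_ (Prod.ext rfl (Prod.ext rfl (Prod.ext k2 k3)))
    funext i
    fin_cases i
    exacts [a0, a1, a2, a3, a4, a5, a6, a7, a8]
  · exact add_left_cancel (a8.symm.trans b8)

end Pool.Agent.MP_1ba41f_an.S2.KP
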