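import Pool.Agent.MP_1ba41f_an.S2.KP.Spec

/-! Row T3: estimates for the clock of the third body. -/

noncomputable section
open Set Complex

namespace Pool.Agent.MP_1ba41f_an.S2.KP

namespace T3

theorem small {h : ℂ} (hh : ‖h‖ ≤ 1) :
    ‖h - sin h‖ ≤ ‖h‖ ^ 3 ∧ ‖1 - cos h‖ ≤ ‖h‖ ^ 2 ∧ ‖sin h‖ ≤ 2 * ‖h‖ ∧ ‖cos h‖ ≤ 2 := by
  have h0 := norm_nonneg h
  have p2 : ‖h‖ ^ 2 ≤ 1 := pow_le_one₀ h0 hh
  have a1 : ‖h - sin h‖ ≤ ‖h‖ ^ 3 := by
    have e : h - sin h = h ^ 3 / 6 - (sin h - (h - h ^ 3 / 6)) := by ring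
    have h1 := Complex.sin_bound hh
    have h2 := norm_sub_le (h ^ 3 / 6) (sin h - (h - h ^ 3 / 6))
    rw [norm_div, norm_pow, ← e, Complex.norm_ofNat] at h2
    nlinarith [mul_le_mul_of_nonneg_left p2 (pow_nonneg h0 3), pow_nonneg h0 3]
  have a2 : ‖1 - cos h‖ ≤ ‖h‖ ^ 2 := by
    have e : 1 - cos h = h ^ 2 / 2 - (cos h - (1 - h ^ 2 / 2)) := by ring
    have h1 := Complex.cos_bound hh
    have h2 := norm_sub_le (h ^ 2 / 2) (cos h - (1 - h ^ 2 / 2))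
    rw [norm_div, norm_pow, ← e, Complex.norm_ofNat] at h2
    nlinarith [mul_le_mul_of_nonneg_left p2 (pow_nonneg h0 2), pow_nonneg h0 2]
  refine ⟨a1, a2, ?_, ?_⟩
  · have h2 := norm_sub_le h (h - sin h)
    rw [sub_sub_cancel] at h2
    nlinarith [mul_le_mul_of_nonneg_left p2 h0]
  · have h2 := norm_sub_le 1 (1 - cos h)
    rw [sub_sub_cancel, norm_one] at h2
    linarith

theorem tk_eq {ν : ℂ} (hν : ν ≠ 0) (r S τ : ℂ) : tk (1 / ν) r S τ =
    r * (ν * sin (τ / ν)) + S * (ν ^ 2 * (1 - cos (τ / ν))) + ν ^ 3 * (τ / ν - sin (τ / ν)) := by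
  have e : 1 / ν * τ = τ / ν := by ring
  rw [tk, if_neg (one_div_ne_zero hν), e]
  field_simp

theorem arith {n t x ε C : ℝ} (hn : 1 ≤ n) (ht : 0 < t) (hx : 0 ≤ x) (hε : 0 ≤ ε) (hC : 1 ≤ C)
    (ha : 1 ≤ n * t) (h : n * x ≤ 1) :
    C * (2 * n * t * 2 + 2 * n * 1 * (2 * x)) +
      C * (3 * ε * n * (t ^ 2 / 2) + 2 * n * (2 * n) * (1 * x ^ 2 + t * (2 * x))) +
      2 * n * (2 * n) * (2 * n) * (1 * x ^ 3 + t * x ^ 2) + 7 * ε * n ^ 2 * t ^ 2 +
      (7 * ε * n ^ 2 * x + n ^ 2 * (5 * ε)) * (t ^ 2 / 2) ≤ 100 * C * (ε * (n * t) ^ 2 + n * t) := by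
  have u0 : 0 ≤ n * x := by positivity
  have x1 : x ≤ 1 := by linarith [mul_le_mul_of_nonneg_right hn hx]
  have u2 : (n * x) ^ 2 ≤ 1 := pow_le_one₀ u0 h
  have u3 : (n * x) ^ 3 ≤ 1 := pow_le_one₀ u0 h
  have a0 : 0 ≤ n * t := by positivity
  have v1 : n * t * (n * x) ≤ n * t := mul_le_of_le_one_right a0 h
  have v2 : n * t * (n * x) ^ 2 ≤ n * t := mul_le_of_le_one_right a0 u2
  have e0 : 0 ≤ ε * (n * t) ^ 2 := by positivity
  have w1 : ε * (n * t ^ 2) ≤ ε * (n * t) ^ 2 :=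
    mul_le_mul_of_nonneg_left
      (by linarith [mul_le_mul_of_nonneg_right hn (mul_nonneg a0 ht.le)]) hε
  have w2 : ε * (n * t) ^ 2 * x ≤ ε * (n * t) ^ 2 := mul_le_of_le_one_right e0 x1
  have b1 : (2 * n * t * 2 + 2 * n * 1 * (2 * x)) +
      (3 * ε * n * (t ^ 2 / 2) + 2 * n * (2 * n) * (1 * x ^ 2 + t * (2 * x))) ≤
      50 * (ε * (n * t) ^ 2 + n * t) := by linarith
  have b2 : 2 * n * (2 * n) * (2 * n) * (1 * x ^ 3 + t * x ^ 2) + 7 * ε * n ^ 2 * t ^ 2 +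
      (7 * ε * n ^ 2 * x + n ^ 2 * (5 * ε)) * (t ^ 2 / 2) ≤ 50 * (ε * (n * t) ^ 2 + n * t) := by
    linarith
  have b3 := mul_le_mul_of_nonneg_left b1 (by linarith : 0 ≤ C)
  have b4 := mul_le_mul_of_nonneg_right hC (by positivity : 0 ≤ 50 * (ε * (n * t) ^ 2 + n * t))
  linarith

end T3

theorem t3S : T3Stmt := by
  refine ⟨fun n ε a b C ν r S hn hε hν hC hr hS ha haπ hb => ?_, fun ν r S τ hν hτ => ?_⟩
  swap
  · have n0 : 0 < ‖ν‖ := norm_pos_iff.2 hν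
    obtain ⟨a1, a2, a3, -⟩ := T3.small (h := τ / ν) (by rw [norm_div]; exact (div_le_one n0).2 hτ)
    have e : ‖τ‖ = ‖ν‖ * ‖τ / ν‖ := by rw [norm_div]; field_simp
    rw [T3.tk_eq hν, e]
    refine (norm_add_le_of_le (norm_add_le_of_le
      (norm_mul_le_of_le le_rfl (norm_mul_le_of_le le_rfl a3))
      (norm_mul_le_of_le le_rfl (norm_mul_le_of_le (norm_pow ν 2).le a2)))
      (norm_mul_le_of_le (norm_pow ν 3).le a1)).trans (le_of_eq (by ring))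
  have n0 : 0 < n := by linarith
  have ε0 : 0 ≤ ε := (norm_nonneg _).trans hν
  have nn : ‖(n : ℂ)‖ = n := by rw [Complex.norm_real, Real.norm_of_nonneg n0.le]
  have m1 : ‖ν‖ ≤ 2 * n := by
    have := norm_le_norm_add_norm_sub' ν (n : ℂ)
    linarith
  have m2 : 19 / 20 * n ≤ ‖ν‖ := by
    have := norm_le_norm_add_norm_sub ν (n : ℂ)
    linarith
  have m0 : 0 < ‖ν‖ := by linarith
  have ν0 : ν ≠ 0 := norm_pos_iff.1 m0
  have nc : (n : ℂ) ≠ 0 := by exact_mod_cast n0.ne'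
  have hπ := Real.pi_lt_d2
  obtain ⟨t, rfl⟩ : ∃ t, a = n * t := ⟨a / n, by field_simp⟩
  have t0 : 0 < t := (mul_pos_iff_of_pos_left n0).1 (by linarith)
  have t1 : t ≤ 73 / 20 :=
    le_of_mul_le_mul_left (by linarith [mul_le_mul_of_nonneg_left hπ.le n0.le]) n0
  rw [mul_div_cancel_left₀ t n0.ne']
  have bI : ‖(b : ℂ) * I‖ ≤ 1 / 2 := by
    rw [norm_mul, Complex.norm_I, mul_one, Complex.norm_real]; exact hb
  obtain ⟨h, hh⟩ : ∃ h : ℂ, (((n * t : ℝ) : ℂ) + b * I) / ν = t + h := ⟨_, (add_sub_cancel _ _).symm⟩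
  have hL : ‖n * h - b * I‖ ≤ 5 * ε := by
    have e : ν * (n * h - b * I) = -(ν - n) * (((n * t : ℝ) : ℂ) + b * I) := by
      rw [div_eq_iff ν0] at hh
      push_cast at hh ⊢
      linear_combination -(n : ℂ) * hh
    have h1 : ‖((n * t : ℝ) : ℂ) + b * I‖ ≤ n * t + 1 / 2 :=
      norm_add_le_of_le (by rw [Complex.norm_real, Real.norm_of_nonneg (by positivity)]) bI
    have h2 := norm_mul_le_of_le ((norm_neg (ν - n)).le.trans hν) h1
    rw [← e, norm_mul] at h2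
    refine le_of_mul_le_mul_left (h2.trans ?_) m0
    have : n * t + 1 / 2 ≤ ‖ν‖ * 5 := by linarith [mul_le_mul_of_nonneg_left t1 n0.le]
    linarith [mul_le_mul_of_nonneg_left this ε0]
  have hx : n * ‖h‖ ≤ 1 := by
    have := norm_le_norm_add_norm_sub' (n * h) (b * I)
    rw [norm_mul, nn] at this
    linarith
  have x0 := norm_nonneg h
  have x1 : ‖h‖ ≤ 1 := by linarith [mul_le_mul_of_nonneg_right hn x0]
  obtain ⟨a1, a2, a3, a4⟩ := T3.small x1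
  have x2 : ‖h / 2‖ = ‖h‖ / 2 := by rw [norm_div, Complex.norm_ofNat]
  obtain ⟨-, b2, b3, b4⟩ := T3.small (h := h / 2) (by linarith)
  rw [x2] at b2 b3
  have s0 : ∀ y : ℝ, ‖sin (y : ℂ)‖ = |Real.sin y| := fun y => by
    rw [← Complex.ofReal_sin, Complex.norm_real, Real.norm_eq_abs]
  have c0 : ∀ y : ℝ, ‖cos (y : ℂ)‖ ≤ 1 := fun y => by
    rw [← Complex.ofReal_cos, Complex.norm_real]; exact Real.abs_cos_le_one y
  have s1 : ‖sin (t : ℂ)‖ ≤ t := by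
    rw [s0]; exact Real.abs_sin_le_abs.trans (abs_of_pos t0).le
  have k1 : 1 - Real.cos t ≤ t ^ 2 / 2 := by linarith [Real.one_sub_sq_div_two_le_cos (x := t)]
  have c1 : ‖1 - cos (t : ℂ)‖ ≤ t ^ 2 / 2 := by
    rw [← Complex.ofReal_cos, ← Complex.ofReal_one, ← Complex.ofReal_sub, Complex.norm_real,
      Real.norm_of_nonneg (by linarith [Real.cos_le_one t])]
    exact k1
  have p1 : ‖(t : ℂ) - sin t‖ ≤ t ^ 2 := by
    rw [← Complex.ofReal_sin, ← Complex.ofReal_sub, Complex.norm_real,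
      Real.norm_of_nonneg (by linarith [Real.sin_le t0.le])]
    linarith [Real.sin_ge_sub_cube t0.le, sq_nonneg t, mul_le_mul_of_nonneg_left t1 (sq_nonneg t)]
  have s5 : t / 5 ≤ Real.sin (t / 2) := by
    have h1 := Real.sin_ge_sub_cube (x := t / 2) (by linarith)
    have h2 : t ^ 2 ≤ 14 := (pow_le_pow_left₀ t0.le t1 2).trans (by norm_num)
    linarith [mul_le_mul_of_nonneg_left h2 t0.le]
  have e2 : 1 / ν * (((n * t : ℝ) : ℂ) + b * I) / 2 = (t / 2 : ℝ) + h / 2 := by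
    rw [one_div_mul_eq_div, hh]; push_cast; ring
  refine ⟨?_, ?_, ?_, ?_, ?_, ?_⟩
  · have d2 : ‖ν ^ 2 - n ^ 2‖ ≤ 3 * ε * n := by
      have e : ν ^ 2 - n ^ 2 = (ν - n) * (ν + n) := by ring
      rw [e]
      exact (norm_mul_le_of_le hν (norm_add_le_of_le m1 nn.le)).trans (le_of_eq (by ring))
    have d3 : ‖ν ^ 3 - n ^ 3‖ ≤ 7 * ε * n ^ 2 := by
      have e : ν ^ 3 - n ^ 3 = (ν - n) * (ν * ν + ν * n + n * n) := by ring
      rw [e]
      exact (norm_mul_le_of_le hν (norm_add_le_of_le (norm_add_le_of_le (norm_mul_le_of_le m1 m1)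
        (norm_mul_le_of_le m1 nn.le)) (norm_mul_le_of_le nn.le nn.le))).trans (le_of_eq (by ring))
    have d4 : ‖(n : ℂ) ^ 2‖ ≤ n ^ 2 := by rw [norm_pow, nn]
    have key := norm_add_le_of_le (norm_add_le_of_le (norm_add_le_of_le (norm_add_le_of_le
      (norm_mul_le_of_le hr (norm_add_le_of_le (norm_mul_le_of_le (norm_mul_le_of_le m1 s1) a4)
        (norm_mul_le_of_le (norm_mul_le_of_le m1 (c0 t)) a3)))
      (norm_mul_le_of_le hS (norm_add_le_of_le (norm_mul_le_of_le d2 c1)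
        (norm_mul_le_of_le (norm_mul_le_of_le m1 m1)
          (norm_add_le_of_le (norm_mul_le_of_le (c0 t) a2) (norm_mul_le_of_le s1 a3))))))
      (norm_mul_le_of_le (norm_mul_le_of_le (norm_mul_le_of_le m1 m1) m1)
        (norm_add_le_of_le (norm_mul_le_of_le (c0 t) a1) (norm_mul_le_of_le s1 a2))))
      (norm_mul_le_of_le d3 p1))
      (norm_mul_le_of_le (norm_add_le_of_le (norm_mul_le_of_le d3 (le_refl ‖h‖))
        (norm_mul_le_of_le d4 hL)) c1)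
    refine le_trans (le_of_eq ?_) (key.trans (T3.arith hn t0 x0 ε0 hC ha hx))
    congr 1
    rw [T3.tk_eq ν0, hh, Complex.sin_add, Complex.cos_add]
    push_cast
    ring
  · rw [hh, add_sub_cancel_left, le_div_iff₀ n0, mul_comm]; exact hx
  · have e : sn (1 / ν) (((n * t : ℝ) : ℂ) + b * I) / 2 = ν * sin (t / 2 : ℝ) -
        (ν * sin (t / 2 : ℝ) * (1 - cos (h / 2)) + -ν * cos (t / 2 : ℝ) * sin (h / 2)) := by
      rw [sn, if_neg (one_div_ne_zero ν0), e2, Complex.sin_add]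
      field_simp
      ring
    have g0 : ‖ν * sin (t / 2 : ℝ)‖ = ‖ν‖ * Real.sin (t / 2) := by
      rw [norm_mul, s0, abs_of_nonneg (by linarith)]
    have g1 := norm_add_le_of_le (norm_mul_le_of_le g0.le b2)
      (norm_mul_le_of_le (norm_mul_le_of_le ((norm_neg ν).le.trans m1) (c0 (t / 2))) b3)
    have g2 := norm_sub_norm_le (ν * sin (t / 2 : ℝ))
      (ν * sin (t / 2 : ℝ) * (1 - cos (h / 2)) + -ν * cos (t / 2 : ℝ) * sin (h / 2))
    rw [← e, g0] at g2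
    have g3 : 19 / 20 * n * (t / 5) ≤ ‖ν‖ * Real.sin (t / 2) :=
      mul_le_mul m2 s5 (by positivity) m0.le
    have g4 : ‖ν‖ * Real.sin (t / 2) * (‖h‖ / 2) ^ 2 ≤ ‖ν‖ * Real.sin (t / 2) * (1 / 4) :=
      mul_le_mul_of_nonneg_left (by linarith [pow_le_one₀ (n := 2) x0 x1])
        (mul_nonneg m0.le (by linarith))
    linarith
  · rw [cs, e2, Complex.cos_add]
    have g1 : ‖sin ((t / 2 : ℝ) : ℂ)‖ ≤ 1 := by rw [s0]; exact Real.abs_sin_le_one _
    have := norm_sub_le_of_le (norm_mul_le_of_le (c0 (t / 2)) b4) (norm_mul_le_of_le g1 b3)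
    linarith
  · have h1 := Real.cos_two_mul (t / 2)
    have h2 := Real.sin_sq_add_cos_sq (t / 2)
    rw [mul_div_cancel₀ t two_ne_zero] at h1
    have h3 : (t / 5) ^ 2 ≤ Real.sin (t / 2) ^ 2 := pow_le_pow_left₀ (by positivity) s5 2
    have h4 : t ^ 2 / 20 ≤ 1 - Real.cos t := by linarith [sq_nonneg t]
    linarith [mul_le_mul_of_nonneg_left h4 (sq_nonneg n)]
  · linarith [mul_le_mul_of_nonneg_left k1 (sq_nonneg n)]

end Pool.Agent.MP_1ba41f_an.S2.KP
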