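import Pool.Agent.MP_1ba41f_an.S2.FL.Half
import Pool.Agent.MP_1ba41f_an.S2.KP.Asm
import Pool.Agent.MP_1ba41f_an.S2.KP.FlowE
import Pool.Agent.MP_1ba41f_an.S2.KP.Rep
import Pool.Agent.MP_1ba41f_an.S2.KP.Cons
import Pool.Agent.MP_1ba41f_an.S2.KP.Cb
import Pool.Agent.MP_1ba41f_an.S2.KP.Lim
import Pool.Agent.MP_1ba41f_an.S2.KP.P1
import Pool.Agent.MP_1ba41f_an.S2.KP.Body2
import Pool.Agent.MP_1ba41f_an.S2.KP.T3
import Pool.Agent.MP_1ba41f_an.S2.KP.Bar
import Pool.Agent.MP_1ba41f_an.S2.KP.End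
import Pool.Agent.MP_1ba41f_an.S2.KP.Fin
import Pool.Agent.MP_1ba41f_an.S2.KP.Long
import Pool.Agent.MP_1ba41f_an.S2.KP.Nu
import Pool.Agent.MP_1ba41f_an.S2.KP.Near
import Pool.Agent.MP_1ba41f_an.S2.KP.Mod
import Pool.Agent.MP_1ba41f_an.S2.KP.Near2

/-! The long arcs from the algebraic statements. -/

namespace Pool.Agent.MP_1ba41f_an.S2

theorem tubeT : FL.TubeStmt :=
  FL.tubeS (FL.flowsS flowT) FL.admS (FL.baseS (FL.flowsS flowT))

open KP in
theorem kepS (hA : AlgAStmt) (hB : AlgBStmt) (hQ : AlgQStmt) (hM : AlgMStmt) (hN : AnaStmt)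
    (h0 : BaseStmt) (hy : EarlyStmt) : KepStmt :=
  have hE := flowES flowT
  have hR := realES hE
  have hP := repS hE
  have hm := rminS consS
  have hb := cbS hB hM hN h0
  have hL := limS hE extT hR hP consS hm hb hB h0 hy
  have h1 := p1S hE hb h0 hL
  have hS := s1S hE hb h0 FL.ddS
  kepOf hE hR hP consS hm hL h1 hS (finS body2S (endS body2S t3S e3S consS) consS)
    (longS hE hP consS (bootS (FL.extCS extT)) hL h1 (p1dS hE hb h0 hL h1 hS) (barS body2S t3S))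
    nuS (nearS hA hB hM hN h0 hb) (modS hB hM hN h0 hy hb) (near2S hB hQ hN hb) hA hM h0 tubeT

end Pool.Agent.MP_1ba41f_an.S2
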