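import Pool.Agent.MP_1ba41f_an.S2.KP.Spec
import Pool.Agent.MP_1ba41f_an.S2.FL.Adm

/-! Elementary estimates for the assembly of the long arcs. -/

noncomputable section
open Set Complex
open scoped ComplexConjugate

namespace Pool.Agent.MP_1ba41f_an.S2.KP.Asm

theorem sg_cases (j : Fin 3) : sg j = 1 ∨ sg j = -1 := by
  unfold sg; split_ifs <;> simp

theorem sq_sub_one (k : ℂ) (h : 0 < k.re) : ‖sq k - 1‖ ≤ ‖k - 1‖ := by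
  have h1 := FL.Adm.sq_sq k
  have h2 := FL.Adm.sq_re_pos h
  have h3 : 1 ≤ ‖sq k + 1‖ := by
    refine le_trans ?_ (Complex.re_le_norm _)
    simp only [add_re, one_re]; linarith
  have h4 : k - 1 = (sq k - 1) * (sq k + 1) := by linear_combination -h1
  rw [h4, norm_mul]
  exact le_mul_of_one_le_right (norm_nonneg _) h3

theorem yN_near {a δ : ℝ} {n : ℕ} {v : Vv} (hδ : 0 < δ) (ha : |a - 5 / 8| ≤ δ / 2)
    (ha' : |a - 5 / 8| ≤ 1 / 8) (h0 : ‖1 / nu n 0 ^ 2‖ ≤ δ / 2) (h1 : ‖1 / nu n v.2.1.1 ^ 2‖ ≤ δ / 2)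
    (h2 : ‖1 / nu n v.2.1.2 ^ 2‖ ≤ δ / 2) (hH : ‖v.2.2.1‖ ≤ δ / 2) : ‖yN a n v - yB v.1‖ ≤ δ := by
  refine (pi_norm_le_iff_of_nonneg hδ.le).2 fun i => ?_
  fin_cases i
  · simp [yN, yB, hδ.le]
  · have e1 : (yN a n v - yB v.1) 1 = -(((a - 5 / 8 : ℝ) : ℂ) / 2) -
        ((1 - a : ℝ) : ℂ) * (1 / nu n 0 ^ 2) / 2 + v.2.2.1 := by
      simp only [Pi.sub_apply, yN, yB, hn, Matrix.cons_val_one, Matrix.cons_val_zero]
      push_cast; ring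
    change ‖(yN a n v - yB v.1) 1‖ ≤ δ
    rw [e1]
    have b1 : ‖-(((a - 5 / 8 : ℝ) : ℂ) / 2)‖ ≤ δ / 4 := by
      rw [norm_neg, norm_div, Complex.norm_real, Real.norm_eq_abs, Complex.norm_two]; linarith
    have b2 : ‖((1 - a : ℝ) : ℂ) * (1 / nu n 0 ^ 2) / 2‖ ≤ δ / 4 := by
      rw [norm_div, norm_mul, Complex.norm_real, Real.norm_eq_abs, Complex.norm_two]
      have := abs_le.1 ha'
      have h3 : |1 - a| ≤ 1 := abs_le.2 ⟨by linarith [this.2], by linarith [this.1]⟩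
      nlinarith [norm_nonneg (1 / nu n 0 ^ 2), abs_nonneg (1 - a)]
    linarith [norm_add_le (-(((a - 5 / 8 : ℝ) : ℂ) / 2) -
      ((1 - a : ℝ) : ℂ) * (1 / nu n 0 ^ 2) / 2) v.2.2.1, norm_sub_le (-(((a - 5 / 8 : ℝ) : ℂ) / 2))
      (((1 - a : ℝ) : ℂ) * (1 / nu n 0 ^ 2) / 2)]
  · simp [yN, yB, hδ.le]
  · simp [yN, yB, hδ.le]
  · simpa [yN, yB] using h1.trans (half_le_self hδ.le)
  · simpa [yN, yB] using h2.trans (half_le_self hδ.le)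

theorem k2_near {a ε : ℝ} {n : ℕ} {v : Vv} (ha' : |a - 5 / 8| ≤ 1 / 8)
    (h1 : (n : ℝ) * ‖1 / nu n 0 ^ 2 - 1 / nu n v.2.1.1 ^ 2‖ ≤ ε / 2)
    (hH : (n : ℝ) * ‖v.2.2.1‖ ≤ ε / 8) :
    (n : ℝ) * ‖(-2 * yN a n v 1 - (1 - a) * yN a n v 4) / a - 1‖ ≤ ε := by
  have hb := abs_le.1 ha'
  have a0 : (0 : ℝ) < a := by linarith [hb.1]
  have a0' : (a : ℂ) ≠ 0 := by exact_mod_cast a0.ne'
  have e1 : (-2 * yN a n v 1 - (1 - a) * yN a n v 4) / a - 1 =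
      (((1 - a) / a : ℝ) : ℂ) * (1 / nu n 0 ^ 2 - 1 / nu n v.2.1.1 ^ 2) -
        ((2 / a : ℝ) : ℂ) * v.2.2.1 := by
    simp only [yN, hn, Matrix.cons_val_one, Matrix.cons_val_zero, Matrix.cons_val]
    push_cast; field_simp; ring
  rw [e1]
  have b1 : |(1 - a) / a| ≤ 1 := by
    rw [abs_of_nonneg (div_nonneg (by linarith [hb.2]) a0.le), div_le_one a0]; linarith [hb.1]
  have b2 : |2 / a| ≤ 4 := by
    rw [abs_of_pos (by positivity), div_le_iff₀ a0]; linarith [hb.1]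
  have h3 := norm_sub_le ((((1 - a) / a : ℝ) : ℂ) * (1 / nu n 0 ^ 2 - 1 / nu n v.2.1.1 ^ 2))
    (((2 / a : ℝ) : ℂ) * v.2.2.1)
  rw [norm_mul, norm_mul, Complex.norm_real, Complex.norm_real, Real.norm_eq_abs,
    Real.norm_eq_abs] at h3
  have h4 := mul_le_mul_of_nonneg_right b1 (norm_nonneg (1 / nu n 0 ^ 2 - 1 / nu n v.2.1.1 ^ 2))
  have h5 := mul_le_mul_of_nonneg_right b2 (norm_nonneg v.2.2.1)
  have h6 := mul_le_mul_of_nonneg_left (h3.trans (add_le_add h4 h5)) (Nat.cast_nonneg (α := ℝ) n)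
  linarith

theorem T_facts {C ε ν0 : ℝ} {γ S0 dT ν T : ℂ} (hν : ‖ν - ν0‖ ≤ ε) (hε : ε ≤ 1 / 40)
    (hb : 40 * C ≤ ν0) (hC : 1 ≤ C) (h1 : ‖γ‖ ≤ C) (h2 : ‖S0‖ ≤ C) (h3 : |γ.im| ≤ 1 / 20)
    (h4 : |S0.im| ≤ 1 / 20) (h5 : ‖dT‖ ≤ 1 / 20)
    (hT : T = Real.pi * ν0 ^ 3 + γ + Real.pi * ν - S0 + dT) :
    ν0 ^ 3 ≤ T.re ∧ T.re ≤ (Real.pi + 1 / 4) * ν0 ^ 3 ∧ |T.im| ≤ 1 / 4 := by
  have p3 := Real.pi_gt_three
  have p4 := Real.pi_lt_d2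
  have r1 := abs_le.1 ((Complex.abs_re_le_norm _).trans hν)
  have r2 := abs_le.1 ((Complex.abs_im_le_norm _).trans hν)
  have r3 := abs_le.1 ((Complex.abs_re_le_norm _).trans h1)
  have r4 := abs_le.1 ((Complex.abs_re_le_norm _).trans h2)
  have r5 := abs_le.1 ((Complex.abs_re_le_norm _).trans h5)
  have r6 := abs_le.1 ((Complex.abs_im_le_norm _).trans h5)
  have r7 := abs_le.1 h3
  have r8 := abs_le.1 h4
  simp only [sub_re, ofReal_re, sub_im, ofReal_im, sub_zero] at r1 r2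
  have e1 : T.re = Real.pi * ν0 ^ 3 + γ.re + Real.pi * ν.re - S0.re + dT.re := by
    rw [hT, ← Complex.ofReal_pow, ← Complex.ofReal_mul]
    simp only [add_re, sub_re, ofReal_re, mul_re, ofReal_im, zero_mul, sub_zero]
  have e2 : T.im = γ.im + Real.pi * ν.im - S0.im + dT.im := by
    rw [hT, ← Complex.ofReal_pow, ← Complex.ofReal_mul]
    simp only [add_im, sub_im, ofReal_re, mul_im, ofReal_im, zero_mul, add_zero, zero_add]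
  have n1 : 40 ≤ ν0 := by linarith
  have n2 : 1600 * ν0 ≤ ν0 ^ 3 := by nlinarith [mul_nonneg (sub_nonneg.2 n1) (sub_nonneg.2 n1)]
  have q1 : 0 ≤ Real.pi * ν.re := mul_nonneg (by linarith) (by linarith [r1.1])
  have q2 : Real.pi * ν.re ≤ 4 * (ν0 + 1) := by nlinarith [r1.2, r1.1]
  have q3 : |Real.pi * ν.im| ≤ 1 / 10 := by
    rw [abs_mul, abs_of_pos Real.pi_pos]
    have : |ν.im| ≤ 1 / 40 := abs_le.2 ⟨by linarith [r2.1], by linarith [r2.2]⟩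
    nlinarith [abs_nonneg ν.im]
  have q4 := abs_le.1 q3
  refine ⟨?_, ?_, ?_⟩
  · rw [e1]; nlinarith [r3.1, r4.2, r5.1]
  · rw [e1]; nlinarith [r3.2, r4.1, r5.2]
  · rw [e2]; exact abs_le.2 ⟨by linarith [r7.1, r8.2, r6.1, q4.1], by
      linarith [r7.2, r8.1, r6.2, q4.2]⟩

theorem st_near {z z' : Az} {k2 k3 : ℂ} {ρ : ℝ} (h1 : ‖z - z'‖ ≤ ρ) (h2 : ‖k2 - 1‖ ≤ ρ)
    (h3 : ‖k3‖ ≤ ρ) : ‖st z k2 k3 - st z' 1 0‖ ≤ ρ := by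
  have h0 : 0 ≤ ρ := (norm_nonneg _).trans h1
  simp only [st, Prod.mk_sub_mk, Prod.norm_mk, sub_self, norm_zero, sub_zero, max_le_iff]
  exact ⟨h1, h0, h0, h2, h3⟩

theorem ks_end {κ τ w p : ℂ} {ν0 : ℝ} {m : ℕ} (hκ : κ ≠ 0) (hm : ν0 ^ 3 = 4 * m) :
    w * cs κ τ + p * sn κ τ / 2 = w * cos ((κ * τ - Real.pi * ν0 ^ 3) / 2) +
      p * sin ((κ * τ - Real.pi * ν0 ^ 3) / 2) / κ := by
  have e1 : (κ * τ - Real.pi * ν0 ^ 3) / 2 = κ * τ / 2 - m * (2 * Real.pi) := by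
    have : (ν0 : ℂ) ^ 3 = 4 * m := by exact_mod_cast hm
    rw [this]; ring
  rw [e1, Complex.cos_sub_nat_mul_two_pi, Complex.sin_sub_nat_mul_two_pi, cs, sn, if_neg hκ]
  ring

/-- the orbit of the extended field is a base arc -/
theorem baseArc (hE : FlowEStmt) (hP : RepStmt) {a : ℝ} {x : Xi} {T κ2 κ3 : ℂ}
    (he : Eng κ2 κ3 (coll a x)) (h2 : kk2 (coll a x) = κ2 ^ 2) (h3 : kk3 (coll a x) = κ3 ^ 2)
    (h : ∀ u ∈ Icc (0 : ℝ) 1, (st (coll a x) (κ2 ^ 2) (κ3 ^ 2), (u : ℂ) * T) ∈ OE ∧ (0 < u →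
      dd (FE (st (coll a x) (κ2 ^ 2) (κ3 ^ 2), (u : ℂ) * T)).1 ≠ 0 ∧
      ddt (FE (st (coll a x) (κ2 ^ 2) (κ3 ^ 2), (u : ℂ) * T)).1 ≠ 0)) :
    BaseArc a x T fun u : ℝ => (FE (st (coll a x) (κ2 ^ 2) (κ3 ^ 2), (u : ℂ) * T)).1 := by
  have h1 : (st (coll a x) (κ2 ^ 2) (κ3 ^ 2), T) ∈ OE := by
    simpa using (h 1 ⟨zero_le_one, le_rfl⟩).1
  obtain ⟨t0, tr⟩ := IsFlow.traj hE h1
  refine ⟨congrArg Prod.fst t0, fun u hu => ⟨(tr u hu).1, (h u hu).2, ?_⟩⟩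
  obtain ⟨τ2, τ3, e, -⟩ := hP κ2 κ3 _ _ he (h u hu).1
  have h4 : HasDerivWithinAt
      (fun u : ℝ => (FE (st (coll a x) (κ2 ^ 2) (κ3 ^ 2), (u : ℂ) * T)).1)
      (T • X0 (FE (st (coll a x) (κ2 ^ 2) (κ3 ^ 2), (u : ℂ) * T)).2.2.2.1
        (FE (st (coll a x) (κ2 ^ 2) (κ3 ^ 2), (u : ℂ) * T)).2.2.2.2
        (FE (st (coll a x) (κ2 ^ 2) (κ3 ^ 2), (u : ℂ) * T)).1) (Icc 0 1) u :=
    (ContinuousLinearMap.fst ℝ Az (ℂ × ℂ × ℂ × ℂ)).hasFDerivAt.comp_hasDerivWithinAt u (tr u hu).2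
  have h5 : (FE (st (coll a x) (κ2 ^ 2) (κ3 ^ 2), (u : ℂ) * T)).2.2.2.1 = κ2 ^ 2 := by rw [e]
  have h6 : (FE (st (coll a x) (κ2 ^ 2) (κ3 ^ 2), (u : ℂ) * T)).2.2.2.2 = κ3 ^ 2 := by rw [e]
  rw [h5, h6] at h4
  rw [h2, h3]
  exact h4

end Pool.Agent.MP_1ba41f_an.S2.KP.Asm
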