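import Pool.Agent.MP_1ba41f_an.S2.KP.Spec

/-! The third body is at the far point at the end of the arc. -/

noncomputable section
open Set Complex

namespace Pool.Agent.MP_1ba41f_an.S2.KP

namespace End

theorem abs_le_add_sin {x : ℝ} (h1 : -Real.pi ≤ x) (h2 : x ≤ Real.pi) : |x| ≤ |x + Real.sin x| := by
  rcases le_total 0 x with h | h
  · have := Real.sin_nonneg_of_nonneg_of_le_pi h h2
    rw [abs_of_nonneg h, abs_of_nonneg (by linarith only [h, this])]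
    linarith only [this]
  · have := Real.sin_nonpos_of_nonpos_of_neg_pi_le h h1
    rw [abs_of_nonpos h, abs_of_nonpos (by linarith only [h, this])]
    linarith only [this]

theorem low {w e : ℂ} (hw : ‖w‖ ≤ 1 / 4) (he : ‖e - 1‖ ≤ 1 / 2) :
    ‖w‖ ≤ ‖w + e * ((exp (I * w) - exp (-(I * w))) / (2 * I))‖ := by
  have n1 : ‖I * w‖ = ‖w‖ := by rw [norm_mul, norm_I, one_mul]
  have r1 := norm_exp_sub_one_sub_id_le (x := I * w) (by rw [n1]; linarith only [hw])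
  have r2 := norm_exp_sub_one_sub_id_le (x := -(I * w)) (by rw [norm_neg, n1]; linarith only [hw])
  rw [norm_neg] at r2
  rw [n1] at r1 r2
  obtain ⟨s, hs⟩ : ∃ s, s = (exp (I * w) - exp (-(I * w))) / (2 * I) - w := ⟨_, rfl⟩
  have e1 : s = ((exp (I * w) - 1 - I * w) - (exp (-(I * w)) - 1 - -(I * w))) / (2 * I) := by
    rw [hs]
    field_simp
    ring
  have h0 := norm_nonneg w
  have h1 : ‖s‖ ≤ ‖w‖ / 4 := by
    rw [e1, norm_div, norm_mul, norm_I, mul_one, Complex.norm_two]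
    have := norm_sub_le_of_le r1 r2
    nlinarith only [this, hw, h0]
  have e2 : 2 * w = (w + e * ((exp (I * w) - exp (-(I * w))) / (2 * I))) - s - (e - 1) * (s + w) := by
    rw [hs]
    ring
  have h2 : ‖(e - 1) * (s + w)‖ ≤ 1 / 2 * (‖w‖ / 4 + ‖w‖) := by
    rw [norm_mul]
    exact mul_le_mul he (norm_add_le_of_le h1 le_rfl) (norm_nonneg _) (by norm_num)
  have h3 := norm_sub_le_of_le (norm_sub_le_of_le
    (le_refl ‖w + e * ((exp (I * w) - exp (-(I * w))) / (2 * I))‖) h1) h2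
  rw [← e2, norm_mul, Complex.norm_two] at h3
  linarith only [h3, h0]

theorem prod {C : ℝ} {z : Az} (h : ‖z‖ ≤ C) (i j : Fin 9) : ‖z i * z j‖ ≤ C ^ 2 := by
  rw [norm_mul, pow_two]
  exact mul_le_mul ((norm_le_pi_norm z i).trans h) ((norm_le_pi_norm z j).trans h) (norm_nonneg _)
    ((norm_nonneg _).trans h)

theorem bds {C : ℝ} {z : Az} (h : ‖z‖ ≤ C) : ‖rr2 z‖ ≤ C ^ 2 ∧ ‖rr3 z‖ ≤ C ^ 2 ∧
    ‖aS2 z‖ ≤ C ^ 2 ∧ ‖aS3 z‖ ≤ C ^ 2 ∧ ‖aG3 z‖ ≤ C ^ 2 := by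
  refine ⟨prod h 0 1, prod h 4 5, ?_, ?_, ?_⟩
  · rw [aS2, norm_div, Complex.norm_two]
    linarith only [norm_add_le_of_le (prod h 1 2) (prod h 0 3)]
  · rw [aS3, norm_div, Complex.norm_two]
    linarith only [norm_add_le_of_le (prod h 5 6) (prod h 4 7)]
  · rw [aG3, norm_div, norm_mul, norm_I, mul_one, Complex.norm_two]
    linarith only [norm_sub_le_of_le (prod h 5 6) (prod h 4 7)]

/-- the first, rough, position of the third body -/
theorem rough (h2 : Body2Stmt) (h3 : T3Stmt) {C ε ν0 : ℝ} {κ ν : ℂ} {z : Az}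
    (hd : Dat C ε ν0 κ ν z) (hε : 1600 * C ^ 2 * ε ≤ 1) {τ2 τ3 β : ℂ} (hβ : ‖β‖ ≤ 3 * C)
    (hs : Sync κ (1 / ν) z τ2 τ3) (hτ : τ2 + τ3 = Real.pi * ν0 ^ 3 + Real.pi * ν + β)
    (him : |(τ2 + τ3).im| ≤ 1 / 4) (hr : Reg ν0 τ3) (h1 : 1 ≤ τ3.re) :
    ‖tk (1 / ν) (rr3 z) (aS3 z) τ3 - τ2‖ ≤ 100 * C ^ 2 ∧
      ‖τ3 / ν - Real.pi‖ ≤ 311 * C ^ 2 * ε := by
  obtain ⟨b1, b2, b3, b4, -⟩ := bds hd.bd
  have c1 := hd.one
  have v0 := hd.pos
  have v1 := hd.big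
  have c2 : C ≤ C ^ 2 := by nlinarith only [c1]
  generalize C ^ 2 = D at b1 b2 b3 b4 c2 hε ⊢
  have d1 : 1 ≤ D := c1.trans c2
  have e0 : 0 < ε := by nlinarith only [v1, v0]
  have e1 : ε ≤ 1 / 1600 := by nlinarith only [hε, d1, e0]
  have v2 : 1600 * D ≤ ν0 := by nlinarith only [hε, v1, v0, d1]
  have p1 := Real.pi_lt_d2
  have p0 := Real.pi_pos
  have n1 : ‖ν‖ ≤ ν0 + 1 := by
    have := norm_add_le_of_le hd.nu (le_refl ‖(ν0 : ℂ)‖)
    rw [sub_add_cancel, norm_real, Real.norm_of_nonneg v0.le] at this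
    linarith only [this, e1]
  have a1 : τ3.re ≤ 4 * ν0 := by nlinarith only [hr.2.1, p1, v0]
  have t1 : ‖τ3‖ ≤ 4 * ν0 + 1 := by
    have := norm_le_abs_re_add_abs_im τ3
    rw [abs_of_nonneg (by linarith only [h1])] at this
    linarith only [this, a1, hr.2.2]
  have m1 : ‖Real.pi * ν + β - τ3‖ ≤ 9 * ν0 := by
    have q : ‖(Real.pi : ℂ) * ν‖ ≤ 4 * (ν0 + 1) := by
      rw [norm_mul, norm_real, Real.norm_of_nonneg p0.le]
      exact mul_le_mul (by linarith only [p1]) n1 (norm_nonneg _) (by norm_num)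
    linarith only [norm_sub_le_of_le (norm_add_le_of_le q hβ) t1, c2, v2, d1]
  have e2 : τ2 = ((Real.pi * ν0 ^ 3 : ℝ) : ℂ) + (Real.pi * ν + β - τ3) := by
    push_cast
    linear_combination hτ
  have w1 : 20 * ν0 ≤ ν0 ^ 2 := by nlinarith only [v2, d1, v0]
  have w2 : 20 * ν0 ^ 2 ≤ ν0 ^ 3 := by nlinarith only [w1, v0]
  have t2 : ‖τ2‖ + 1 ≤ 4 * ν0 ^ 3 := by
    have := norm_add_le_of_le (le_refl ‖((Real.pi * ν0 ^ 3 : ℝ) : ℂ)‖) m1
    rw [← e2, norm_real, Real.norm_of_nonneg (by positivity)] at this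
    have q : Real.pi * ν0 ^ 3 ≤ 3.15 * ν0 ^ 3 := mul_le_mul_of_nonneg_right p1.le (by positivity)
    linarith only [this, q, w1, w2, v2, d1]
  have i2 : |τ2.im| ≤ 1 := by
    rw [add_im] at him
    have := hr.2.2
    rw [abs_le] at him this ⊢
    constructor <;> linarith only [him.1, him.2, this.1, this.2]
  have k2 := (h2 D κ τ2 0 0 (rr2 z) (aS2 z) d1
    ((mul_le_mul_of_nonneg_left t2 (norm_nonneg _)).trans (by linarith only [hd.ka, e1])) i2).2 b1 b3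
  rw [show tk κ (rr2 z) (aS2 z) τ2 = tk (1 / ν) (rr3 z) (aS3 z) τ3 from hs] at k2
  obtain ⟨k3, k4, -⟩ := h3.1 ν0 ε τ3.re τ3.im D ν (rr3 z) (aS3 z) (by linarith only [v2, d1])
    (by linarith only [e1]) hd.nu d1 b2 b4 h1 hr.2.1 hr.2.2
  rw [re_add_im] at k3 k4
  refine ⟨k2, ?_⟩
  have θ0 : 0 ≤ τ3.re / ν0 := div_nonneg (by linarith only [h1]) v0.le
  have θ1 : τ3.re / ν0 ≤ Real.pi + 1 / 2 := (div_le_iff₀ v0).2 hr.2.1
  obtain ⟨x, hx⟩ : ∃ x, τ3.re / ν0 = x + Real.pi := ⟨_, (sub_add_cancel _ _).symm⟩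
  rw [hx] at k3 k4 θ0 θ1
  rw [Real.sin_add_pi] at k3
  generalize tk (1 / ν) (rr3 z) (aS3 z) τ3 = t at k2 k3
  have q0 : |ν0 ^ 2 * (1 - Real.cos (x + Real.pi))| ≤ 2 * ν0 ^ 2 := by
    rw [abs_of_nonneg (mul_nonneg (sq_nonneg _) (sub_nonneg.2 (Real.cos_le_one _)))]
    nlinarith only [Real.neg_one_le_cos (x + Real.pi), sq_nonneg ν0]
  generalize ν0 ^ 2 * (1 - Real.cos (x + Real.pi)) = Q at q0 k3
  have q1 : ‖(aS3 z + τ3.im * I) * Q‖ ≤ (D + 1 / 2) * (2 * ν0 ^ 2) := by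
    rw [norm_mul, norm_real, Real.norm_eq_abs]
    refine mul_le_mul (norm_add_le_of_le b4 ?_) q0 (abs_nonneg _) (by linarith only [d1])
    rw [norm_mul, norm_I, mul_one, norm_real]
    exact hr.2.2
  have q2 : ε * τ3.re ^ 2 + τ3.re ≤ 2 * ν0 ^ 2 := by
    have a2 : τ3.re ^ 2 ≤ (4 * ν0) ^ 2 := pow_le_pow_left₀ (by linarith only [h1]) a1 2
    nlinarith only [a2, e1, e0, a1, w1, v0, sq_nonneg τ3.re]
  have q3 := k3.trans (mul_le_mul_of_nonneg_left q2 (by linarith only [d1]))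
  have e3 : ((ν0 ^ 3 * (x + Real.sin x) : ℝ) : ℂ) = (t - τ2) + (Real.pi * ν + β - τ3) -
      (t - ((ν0 ^ 3 * (x + Real.pi - -Real.sin x) : ℝ) + (aS3 z + τ3.im * I) * Q)) -
      (aS3 z + τ3.im * I) * Q := by
    rw [e2]
    push_cast
    ring
  have q4 := norm_sub_le_of_le (norm_sub_le_of_le (norm_add_le_of_le k2 m1) q3) q1
  rw [← e3, norm_real, Real.norm_eq_abs, abs_mul, abs_of_pos (by positivity)] at q4
  have q5 := abs_le_add_sin (x := x) (by linarith only [θ0]) (by linarith only [θ1, Real.pi_gt_three])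
  have q6 : ν0 ^ 2 ≤ D * ν0 ^ 2 := le_mul_of_one_le_left (sq_nonneg _) d1
  have q7 : ν0 ^ 2 * (ν0 * |x|) ≤ ν0 ^ 2 * (310 * D) := by
    have := mul_le_mul_of_nonneg_left q5 (show 0 ≤ ν0 ^ 3 by positivity)
    linarith only [this, q4, q6, w1, v2, d1]
  have q8 := le_of_mul_le_mul_left q7 (by positivity)
  have q9 : |x| ≤ 310 * D * ε := by nlinarith only [q8, v1, e0, abs_nonneg x]
  have r1 : 1 / ν0 ≤ D * ε := by
    rw [div_le_iff₀ v0]
    nlinarith only [v1, d1]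
  have e4 : τ3 / ν - Real.pi = (τ3 / ν - ((x + Real.pi : ℝ) : ℂ)) + x := by
    push_cast
    ring
  rw [e4]
  have r2 := norm_add_le_of_le k4 (le_refl ‖(x : ℂ)‖)
  rw [norm_real, Real.norm_eq_abs] at r2
  linarith only [r2, r1, q9]

end End

open End in
theorem endS (h2 : Body2Stmt) (h3 : T3Stmt) (hE : E3Stmt) (hC : ConsStmt) : EndStmt := by
  intro C c1
  have c2 : C ≤ C ^ 2 := by nlinarith only [c1]
  have d1 : 1 ≤ C ^ 2 := c1.trans c2
  obtain ⟨B, B0, ε1, ε10, hE⟩ := hE (C ^ 2) d1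
  refine ⟨B, B0, fun η η0 => ?_⟩
  have K0 : 0 < 400 * C ^ 2 + 10 * B := by positivity
  refine ⟨min (min (1 / 4) η / (400 * C ^ 2 + 10 * B)) (ε1 / 2), by positivity,
    fun ε ν0 κ ν z hε hd τ2 τ3 β hβ hs hτ him hr h1 => ?_⟩
  have g0 := (le_div_iff₀ K0).1 (hε.trans (min_le_left _ _))
  have g1 := g0.trans (min_le_left _ _)
  have g2 := g0.trans (min_le_right _ _)
  have g3 := hε.trans (min_le_right _ _)
  have v0 := hd.pos
  have v1 := hd.big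
  have e0 : 0 < ε := by nlinarith only [v1, v0]
  have g4 : 0 < B * ε := mul_pos B0 e0
  have g5 : ε ≤ C ^ 2 * ε := le_mul_of_one_le_left e0.le d1
  obtain ⟨k1, k2⟩ := rough h2 h3 hd (by linarith only [g1, g4]) hβ hs hτ him hr h1
  obtain ⟨-, b2, -, b4, b5⟩ := bds hd.bd
  have e1 : ε ≤ 1 / 1600 := by linarith only [g1, g4, g5]
  have v2 : 1600 ≤ ν0 := by nlinarith only [e1, v1, v0]
  have n0 := abs_norm_sub_norm_le ν ν0
  rw [norm_real, Real.norm_of_nonneg v0.le] at n0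
  obtain ⟨n1, n2⟩ := abs_le.1 (n0.trans hd.nu)
  have n3 : 0 < ‖ν‖ := by linarith only [n1, e1, v2]
  have ν1 : ν ≠ 0 := norm_pos_iff.1 n3
  have u1 : ‖1 / ν‖ * ‖ν‖ = 1 := by rw [← norm_mul, one_div_mul_cancel ν1, norm_one]
  have u0 := norm_nonneg (1 / ν)
  have u2 : ‖1 / ν‖ ≤ 2 * ε := by
    have : ‖1 / ν‖ * (ν0 / 2) ≤ ‖1 / ν‖ * ‖ν‖ :=
      mul_le_mul_of_nonneg_left (by linarith only [n1, e1, v2]) u0
    exact le_of_mul_le_mul_right (a := ν0 / 2) (by linarith only [this, u1, v1]) (by positivity)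
  obtain ⟨-, -, -, -, c5, c6, c7, -, c9, -⟩ := (hC κ (1 / ν) z hd.eng).2 τ2 τ3
  obtain ⟨f1, f2, E, f3, f4, f5, f6⟩ := hE (1 / ν) (rr3 z) (aS3 z) (aG3 z) (one_div_ne_zero ν1)
    (by linarith only [u2, g3]) b2 b4 b5 c5
  have u3 : B * ‖1 / ν‖ ≤ 2 * (B * ε) := by nlinarith only [u2, B0]
  have u4 : B * ‖1 / ν‖ ^ 2 ≤ B * ε := by nlinarith only [u3, u2, u0, e1, g4]
  have f7 : ‖sq (1 - (1 / ν) ^ 2 * aG3 z ^ 2) - 1‖ ≤ 1 / 2 := by
    linarith only [f2, u4, g1, g5, e0]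
  unfold fa
  generalize sq (1 - (1 / ν) ^ 2 * aG3 z ^ 2) = e at f3 f4 f7 ⊢
  have e2 : e ≠ 0 := by
    rintro rfl
    norm_num at f7
  obtain ⟨w, hw⟩ : ∃ w, w = τ3 / ν - Real.pi + E := ⟨_, rfl⟩
  have w1 : ‖w‖ ≤ 1 / 4 := by
    have := norm_add_le_of_le k2 f5
    rw [← hw] at this
    linarith only [this, u3, g1, g4, g5, e0]
  have x1 : exp (I * E) * exp (I * (1 / ν * τ3)) = -exp (I * w) := by
    rw [← exp_add, show I * E + I * (1 / ν * τ3) = I * w + Real.pi * I by rw [hw]; ring, exp_add,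
      exp_pi_mul_I, mul_neg_one]
  have x2 : exp (-(I * E)) * exp (-(I * (1 / ν * τ3))) = -exp (-(I * w)) := by
    rw [← exp_add, show -(I * E) + -(I * (1 / ν * τ3)) = -(I * w) + -(Real.pi * I) by rw [hw]; ring,
      exp_add, exp_neg_pi_mul_I, mul_neg_one]
  rw [f3, mul_assoc e, x1] at c6
  rw [f4, mul_assoc e, x2] at c7
  have n4 : ‖I * w‖ = ‖w‖ := by rw [norm_mul, norm_I, one_mul]
  have i1 := abs_le.1 ((abs_im_le_norm (I * w)).trans (n4.trans_le w1))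
  have x3 : -I * log (exp (I * w)) = w := by
    rw [log_exp (by linarith only [i1.1, Real.pi_gt_three]) (by linarith only [i1.2, Real.pi_gt_three])]
    linear_combination (-w) * I_mul_I
  rw [c6, mul_neg, neg_neg, mul_div_cancel_left₀ _ e2, x3]
  have lo := low w1 f7
  have x4 : e * ((exp (I * w) - exp (-(I * w))) / (2 * I)) =
      -(1 / ν * aS3 (KS κ (1 / ν) z τ2 τ3)) := by
    rw [← mul_div_assoc, div_eq_iff (mul_ne_zero two_ne_zero I_ne_zero)]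
    linear_combination c6 - c7
  rw [x4] at lo
  generalize aS3 (KS κ (1 / ν) z τ2 τ3) = S' at lo c9 ⊢
  generalize tk (1 / ν) (rr3 z) (aS3 z) τ3 = t at k1 c9 ⊢
  generalize aS3 z = S at c9 f6 ⊢
  have y1 : t = ν ^ 2 * (τ3 - S' + S) := by
    rw [← c9]
    field_simp
  have y2 : τ3 = ν * (w + Real.pi - E) := by
    rw [hw]
    field_simp
    ring
  have y3 : ‖(E - 1 / ν * S) * ν ^ 3‖ ≤ B := by
    rw [norm_mul, norm_pow]
    refine (mul_le_mul_of_nonneg_right f6 (by positivity)).trans (le_of_eq ?_)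
    rw [mul_assoc, ← mul_pow, u1, one_pow, mul_one]
  have y4 : ‖E * ν‖ ≤ B := by
    rw [norm_mul]
    refine (mul_le_mul_of_nonneg_right f5 n3.le).trans (le_of_eq ?_)
    rw [mul_assoc, u1, mul_one]
  have y5 : ‖(E - 1 / ν * S) * ν‖ ≤ B * ε := by
    rw [norm_mul]
    refine (mul_le_mul_of_nonneg_right f6 n3.le).trans (le_trans (le_of_eq ?_) u4)
    rw [mul_assoc, pow_succ, mul_assoc, u1, mul_one]
  have y6 : ‖(Real.pi : ℂ) * ((ν0 - ν) * (ν ^ 2 + ν * ν0 + ν0 ^ 2))‖ ≤ 4 * (ε * (4 * ν0 ^ 2)) := by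
    have a1 : ‖ν‖ ≤ 1.1 * ν0 := by linarith only [n2, e1, v2]
    have a2 : ‖ν ^ 2 + ν * ν0 + ν0 ^ 2‖ ≤ 4 * ν0 ^ 2 := by
      have := norm_add₃_le (a := ν ^ 2) (b := ν * ν0) (c := (ν0 : ℂ) ^ 2)
      rw [norm_pow, norm_pow, norm_mul, norm_real, Real.norm_of_nonneg v0.le] at this
      nlinarith only [this, a1, n3, v0]
    rw [norm_mul, norm_mul, norm_real, Real.norm_of_nonneg Real.pi_pos.le, norm_sub_rev]
    exact mul_le_mul Real.pi_le_four (mul_le_mul hd.nu a2 (norm_nonneg _) e0.le) (by positivity)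
      (by norm_num)
  have y7 : (w + -(1 / ν * S')) * ν ^ 3 = Real.pi * ((ν0 - ν) * (ν ^ 2 + ν * ν0 + ν0 ^ 2)) + β +
      E * ν - w * ν + (t - τ2) + (E - 1 / ν * S) * ν ^ 3 := by
    rw [eq_sub_of_add_eq hτ, y1, y2]
    field_simp
    ring
  have y8 := norm_add_le_of_le (norm_add_le_of_le (norm_sub_le_of_le (norm_add_le_of_le
    (norm_add_le_of_le y6 hβ) y4) (le_refl ‖w * ν‖)) k1) y3
  rw [← y7, norm_mul, norm_pow] at y8
  have y9 : ‖w * ν‖ * ‖ν‖ ^ 2 ≤ ‖w + -(1 / ν * S')‖ * ‖ν‖ ^ 3 := by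
    rw [norm_mul, mul_assoc, ← pow_succ']
    exact mul_le_mul_of_nonneg_right lo (by positivity)
  have z1 : ν0 ^ 2 / 2 + 1 ≤ ‖ν‖ ^ 2 := by
    have : (0.9 * ν0) ^ 2 ≤ ‖ν‖ ^ 2 :=
      pow_le_pow_left₀ (by positivity) (by linarith only [n1, e1, v2]) 2
    nlinarith only [this, v2]
  have z2 : 1 ≤ ε * ν0 ^ 2 := by nlinarith only [v1, v2]
  have z3 : 103 * C ^ 2 + 2 * B ≤ (103 * C ^ 2 + 2 * B) * (ε * ν0 ^ 2) :=
    le_mul_of_one_le_right (by positivity) z2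
  have z4 : ‖w * ν‖ ≤ 2 * ((16 + 103 * C ^ 2 + 2 * B) * ε) := by
    have := mul_le_mul_of_nonneg_left z1 (norm_nonneg (w * ν))
    exact le_of_mul_le_mul_right (a := ν0 ^ 2 / 2) (by linarith only [this, y9, y8, z3, c2])
      (by positivity)
  refine ⟨f1, ?_, by linarith only [z4, g2, g4, g5, e0], ?_, ?_⟩
  · have a1 := norm_exp_sub_one_le (x := I * w) (by linarith only [n4, w1])
    have a2 := (abs_le.1 ((abs_re_le_norm _).trans a1)).1
    rw [sub_re, one_re] at a2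
    linarith only [a2, n4, w1]
  · have a1 : τ3 - Real.pi * ν + S = w * ν - (E - 1 / ν * S) * ν := by
      rw [y2]
      field_simp
      ring
    rw [a1]
    linarith only [norm_sub_le_of_le z4 y5, g2, g4, g5, e0]
  · have a1 : (w - 1 / ν * S') * ν ^ 3 - (t - Real.pi * ν ^ 3) = (E - 1 / ν * S) * ν ^ 3 := by
      rw [y1, y2]
      field_simp
      ring
    rw [a1]
    exact y3

end Pool.Agent.MP_1ba41f_an.S2.KP
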