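import Pool.Agent.MP_1ba41f_an.S2.KP.Spec
import Pool.Agent.MP_1ba41f_an.S2.FL.Soft

/-! The letters of the true problem from the half arcs and the long Kepler arcs. -/

noncomputable section
open Set Complex Filter Topology Metric

namespace Pool.Agent.MP_1ba41f_an.S2.KP

namespace Out

variable {a : ℝ} {n : ℕ} {j : Fin 3} {v : Vv}

theorem sg_or (j : Fin 3) : sg j = 1 ∨ sg j = -1 := by
  unfold sg
  split_ifs <;> simp

theorem nu_ok {t : ℂ} (h : 0 < ((n : ℂ) + t).re) :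
    DifferentiableAt ℂ (nu n) t ∧ DifferentiableAt ℂ (fun t => 1 / nu n t ^ 2) t := by
  have h1 : DifferentiableAt ℂ (nu n) t :=
    (differentiableAt_id.const_add (n : ℂ)).cpow_const (Or.inl h)
  have h2 : nu n t ≠ 0 := cpow_ne_zero_iff.2 (Or.inl fun e => by simp [e] at h)
  exact ⟨h1, (differentiableAt_const _).div (h1.pow 2) (pow_ne_zero 2 h2)⟩

/-- the regular arguments -/
def Pv (a : ℝ) (n : ℕ) (j : Fin 3) (v : Vv) : Prop :=
  0 < ((n : ℂ) + v.2.1.1).re ∧ 0 < ((n : ℂ) + v.2.1.2).re ∧ OkX a (yN a n v) ∧ OkM v.1.1 v.1.2 ∧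
    OkZ v.1.1 (PP (sg j) v.1.1 v.1.2)

theorem yN_d (h : Pv a n j v) (b : ℝ) : DifferentiableAt ℂ (yN b n) v := by
  have h1 : DifferentiableAt ℂ (fun v : Vv => 1 / nu n v.2.1.1 ^ 2) v :=
    (nu_ok h.1).2.comp v (g := fun t => 1 / nu n t ^ 2) (f := fun v : Vv => v.2.1.1) (by fun_prop)
  have h2 : DifferentiableAt ℂ (fun v : Vv => 1 / nu n v.2.1.2 ^ 2) v :=
    (nu_ok h.2.1).2.comp v (g := fun t => 1 / nu n t ^ 2) (f := fun v : Vv => v.2.1.2) (by fun_prop)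
  refine differentiableAt_pi.2 fun i => ?_
  fin_cases i
  · show DifferentiableAt ℂ (fun v : Vv => 5 / 8 * v.1.1) v
    fun_prop
  · show DifferentiableAt ℂ (fun v : Vv => hn b n + v.2.2.1) v
    fun_prop
  · show DifferentiableAt ℂ (fun v : Vv => v.1.2.1) v
    fun_prop
  · show DifferentiableAt ℂ (fun v : Vv => 5 / 8 * v.1.2.2) v
    fun_prop
  exacts [h1, h2]

theorem yN_c (h : Pv a n j v) : ContinuousAt (fun p : ℝ × Vv => yN p.1 n p.2) (a, v) := by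
  have e : (fun p : ℝ × Vv => yN p.1 n p.2) =
      fun p => yN 0 n p.2 + Pi.single 1 (hn p.1 n - hn 0 n) := by
    funext p i
    fin_cases i <;> simp [yN]
    ring
  have h1 : Continuous fun p : ℝ × Vv => hn p.1 n - hn 0 n := by
    unfold hn
    fun_prop
  rw [e]
  exact ((yN_d h 0).continuousAt.comp (f := fun p : ℝ × Vv => p.2) (x := (a, v))
    continuousAt_snd).add ((continuous_single (A := fun _ : Fin 6 => ℂ) 1).comp h1).continuousAt

theorem pp_d (hN : AnaStmt) (h : Pv a n j v) :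
    DifferentiableAt ℂ (fun v : Vv => (v.1.1, PP (sg j) v.1.1 v.1.2)) v :=
  differentiableAt_fst.fst.prodMk ((((hN.1.2 _ (sg_or j)).1.differentiableAt
    (hN.1.1.mem_nhds h.2.2.2.1)).comp v differentiableAt_fst))

theorem TN_d (hN : AnaStmt) (h : Pv a n j v) : DifferentiableAt ℂ (TN n j) v := by
  have h1 : DifferentiableAt ℂ (fun v : Vv => gj j v.1.1 (PP (sg j) v.1.1 v.1.2)) v :=
    (((hN.2.1.2.2 j).differentiableAt (x := (v.1.1, PP (sg j) v.1.1 v.1.2))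
      (hN.2.1.1.mem_nhds h.2.2.2.2)).comp v (pp_d hN h)).fst
  have h2 : DifferentiableAt ℂ (fun v : Vv => bS (sg j) v.1.1 v.1.2) v :=
    (((hN.1.2 _ (sg_or j)).2.differentiableAt (hN.1.1.mem_nhds h.2.2.2.1)).comp v
      differentiableAt_fst).fst
  have h3 : DifferentiableAt ℂ (fun v : Vv => nu n v.2.1.1) v :=
    (nu_ok h.1).1.comp v (f := fun v : Vv => v.2.1.1) (by fun_prop)
  exact (((h1.const_add _).add (h3.const_mul _)).sub h2).add differentiableAt_snd.snd.snd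

theorem xi_d (hN : AnaStmt) (h : Pv a n j v) : DifferentiableAt ℂ (xiN a n j) v :=
  (((hN.2.2.1.2 _ (sg_or j)).2 a).differentiableAt
    ((hN.2.2.1.1.preimage (Continuous.prodMk_right a)).mem_nhds h.2.2.1)).comp v (yN_d h a)

theorem k_c (hN : AnaStmt) (h : Pv a n j v) :
    ContinuousAt (fun p : ℝ × Vv => (p.1, xiN p.1 n j p.2, TN n j p.2)) (a, v) := by
  have h1 := ((hN.2.2.1.2 _ (sg_or j)).1.continuousAt (x := (a, yN a n v))
    (hN.2.2.1.1.mem_nhds h.2.2.1)).comp (f := fun p : ℝ × Vv => (p.1, yN p.1 n p.2)) (x := (a, v))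
    (continuousAt_fst.prodMk (yN_c h))
  exact continuousAt_fst.prodMk (h1.fst.prodMk
    ((TN_d hN h).continuousAt.comp (f := fun p : ℝ × Vv => p.2) (x := (a, v)) continuousAt_snd))

theorem pv_ev (hN : AnaStmt) (h : Pv a n j v) : ∀ᶠ w in 𝓝 v, Pv a n j w := by
  have h1 : ∀ᶠ w : Vv in 𝓝 v, 0 < ((n : ℂ) + w.2.1.1).re :=
    (isOpen_lt continuous_const (by fun_prop)).mem_nhds h.1
  have h2 : ∀ᶠ w : Vv in 𝓝 v, 0 < ((n : ℂ) + w.2.1.2).re :=
    (isOpen_lt continuous_const (by fun_prop)).mem_nhds h.2.1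
  have h3 : ∀ᶠ w : Vv in 𝓝 v, OkX a (yN a n w) := (yN_d h a).continuousAt.preimage_mem_nhds
    ((hN.2.2.1.1.preimage (Continuous.prodMk_right a)).mem_nhds h.2.2.1)
  have h4 : ∀ᶠ w : Vv in 𝓝 v, OkM w.1.1 w.1.2 :=
    (hN.1.1.preimage continuous_fst).mem_nhds h.2.2.2.1
  have h5 : ∀ᶠ w : Vv in 𝓝 v, OkZ w.1.1 (PP (sg j) w.1.1 w.1.2) :=
    (pp_d hN h).continuousAt.preimage_mem_nhds (hN.2.1.1.mem_nhds h.2.2.2.2)
  exact h1.and (h2.and (h3.and (h4.and h5)))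

theorem hol (hN : AnaStmt) {arc : Xi × ℂ → Az} {V : Set (Xi × ℂ)} (hV : IsOpen V)
    (ha : DifferentiableOn ℂ arc V) {D : Set Vv} (hD : ∀ v ∈ D, Pv a n j v ∧
      (xiN a n j v, TN n j v) ∈ V ∧ OkA j v.1.1 (endN a n arc j v)) :
    ∃ W : Set Vv, IsOpen W ∧ D ⊆ W ∧ DifferentiableOn ℂ (xiN a n j) W ∧
      DifferentiableOn ℂ (TN n j) W ∧
      DifferentiableOn ℂ (fun v => LL a j v.1.1 (endN a n arc j v)) W := by
  have h1 : ∀ v, Pv a n j v → (xiN a n j v, TN n j v) ∈ V →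
      DifferentiableAt ℂ (fun v : Vv => (v.1.1, endN a n arc j v)) v := fun v h h' =>
    differentiableAt_fst.fst.prodMk ((ha.differentiableAt (hV.mem_nhds h')).comp v
      ((xi_d hN h).prodMk (TN_d hN h)))
  refine ⟨{v | Pv a n j v ∧ (xiN a n j v, TN n j v) ∈ V ∧ OkA j v.1.1 (endN a n arc j v)},
    isOpen_iff_mem_nhds.2 fun v h => (pv_ev hN h.1).and (Eventually.and
      (((xi_d hN h.1).prodMk (TN_d hN h.1)).continuousAt.preimage_mem_nhds (hV.mem_nhds h.2.1))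
      ((h1 v h.1 h.2.1).continuousAt.preimage_mem_nhds ((hN.2.2.2 j).1.mem_nhds h.2.2))), hD,
    fun v h => (xi_d hN h.1).differentiableWithinAt,
    fun v h => (TN_d hN h.1).differentiableWithinAt, fun v h => ?_⟩
  exact ((((hN.2.2.2 j).2.2 a).differentiableAt (x := (v.1.1, endN a n arc j v))
    ((hN.2.2.2 j).1.mem_nhds h.2.2)).comp v (h1 v h.1 h.2.1)).differentiableWithinAt

theorem dv_compact (h : IsCompact B1) (d R rH : ℝ) : IsCompact (DV d R rH) := by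
  have e : DV d R rH = cthickening d B1 ×ˢ (closedBall 0 R ×ˢ closedBall 0 R) ×ˢ
      closedBall 0 rH ×ˢ closedBall 0 d := by
    ext v
    simp only [DV, mem_setOf_eq, mem_prod, mem_closedBall_zero_iff, and_assoc]
  rw [e]
  exact h.cthickening.prod (((isCompact_closedBall _ _).prod (isCompact_closedBall _ _)).prod
    ((isCompact_closedBall _ _).prod (isCompact_closedBall _ _)))

theorem re_pos {R : ℝ} {t : ℂ} (hR : 0 < R) (hn : 2 * R < n) (ht : ‖t‖ ≤ R) :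
    0 < ((n : ℂ) + t).re := by
  have := (abs_le.1 ((abs_re_le_norm t).trans ht)).1
  simp only [add_re, natCast_re]
  linarith

end Out

open Out

theorem outS (hH : HalfStmt) (hK : KepStmt) (hN : AnaStmt) (_hA : AlgAStmt) (h0 : BaseStmt)
    (hT : FL.TubeStmt) : OutStmt := by
  obtain ⟨s1, c0, c1, p1, p2, p3, hK⟩ := hK
  obtain ⟨Bt, tc, te⟩ := hT
  refine ⟨s1, c0, c1, p1, p2, p3, fun sa e1 hsa he1 => ?_⟩
  obtain ⟨d, B, hd, hB, hK⟩ := hK sa e1 hsa he1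
  refine ⟨d, B + 1, hd, by linarith, fun R μ hR hμ => ?_⟩
  obtain ⟨n, rH, da, hn, hrH, hda, hK⟩ := hK R (μ / 2) hR (half_pos hμ)
  have cD : IsCompact (closedBall (5 / 8 : ℝ) da ×ˢ DV d R rH) :=
    (isCompact_closedBall _ _).prod (dv_compact h0.1 d R rH)
  have hP : ∀ j, ∀ p ∈ closedBall (5 / 8 : ℝ) da ×ˢ DV d R rH, Pv p.1 n j p.2 := fun j p hp =>
    have h := hK p.1 hp.1 j p.2 hp.2
    ⟨re_pos hR hn hp.2.2.1, re_pos hR hn hp.2.2.2.1, h.1, h.2.1, h.2.2.1⟩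
  have kc : ∀ j, ContinuousOn (fun p : ℝ × Vv => (p.1, xiN p.1 n j p.2, TN n j p.2))
      (closedBall (5 / 8 : ℝ) da ×ˢ DV d R rH) := fun j p hp =>
    (k_c hN (hP j p hp)).continuousWithinAt
  have ad : ∀ j, ∀ p ∈ closedBall (5 / 8 : ℝ) da ×ˢ DV d R rH,
      Adm (p.1, xiN p.1 n j p.2, TN n j p.2) := fun j p hp => (hK p.1 hp.1 j p.2 hp.2).2.2.2.2.2.1
  have one : (1 : ℝ) ∈ Icc (0 : ℝ) 1 := ⟨zero_le_one, le_rfl⟩
  have hδ := fun j => soft_unif (cD.image_of_continuousOn (f := fun p : ℝ × Vv =>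
      (p.1, p.2.1.1, Bt ((p.1, xiN p.1 n j p.2, TN n j p.2), 1))) (continuousOn_fst.prodMk
      (continuous_snd.fst.fst.continuousOn.prodMk (tc.comp ((kc j).prodMk continuousOn_const)
        fun p hp => ⟨ad j p hp, one⟩)))) ((hN.2.2.2 j).1.preimage continuous_snd) (by
      rintro _ ⟨p, hp, rfl⟩
      obtain ⟨g, hg⟩ := (ad j p hp).2.2.2.2.2.2.2.2
      have h := ((hK p.1 hp.1 j p.2 hp.2).2.2.2.2.2.2 g hg).1.1
      rwa [te _ (ad j p hp) g hg 1 one] at h) (hN.2.2.2 j).2.1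
      (lt_min (mul_pos hμ hrH) (lt_min (half_pos hμ) one_pos))
  choose δ hδ0 _ hδ using hδ
  obtain ⟨η, ⟨η1, η2, η3, η4, η5⟩, η0⟩ := ((((eventually_le_nhds hμ).and
    ((eventually_le_nhds he1).and ((eventually_le_nhds (by norm_num : (0 : ℝ) < 1 / 100)).and
      ((eventually_lt_nhds p3).and (eventually_all.2 fun j => eventually_le_nhds (hδ0 j)))))
    ).filter_mono nhdsWithin_le_nhds).and (self_mem_nhdsWithin (s := Ioi (0 : ℝ)))).exists
  obtain ⟨e0, he0, hH⟩ := hH _ (isCompact_iUnion fun j => cD.image_of_continuousOn (kc j))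
    (fun k hk => by
      obtain ⟨j, p, hp, rfl⟩ := mem_iUnion.1 hk
      exact ad j p hp) η η0
  refine ⟨n, rH, min da (1 / 8), e0, hrH, lt_min hda (by norm_num), he0, fun a e ha e1' e2' => ?_⟩
  obtain ⟨S, enc, arc, hh⟩ := hH e e1' e2' a
  have ha1 : a ∈ closedBall (5 / 8 : ℝ) da := (ha.trans_le (min_le_left _ _)).le
  have ha2 := abs_lt.1 (ha.trans_le (min_le_right _ _))
  have mem : ∀ j, ∀ v ∈ DV d R rH, (xiN a n j v, TN n j v) ∈ {k | (a, k) ∈ ⋃ j,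
      (fun p : ℝ × Vv => (p.1, xiN p.1 n j p.2, TN n j p.2)) ''
        (closedBall (5 / 8 : ℝ) da ×ˢ DV d R rH)} := fun j v hv =>
    mem_iUnion.2 ⟨j, (a, v), ⟨ha1, hv⟩, rfl⟩
  have key : ∀ j, ∀ v ∈ DV d R rH, ∀ g, BaseArc a (xiN a n j v) (TN n j v) g →
      OkA j v.1.1 (endN a n arc j v) ∧ ∀ i, ‖LL a j v.1.1 (endN a n arc j v) i -
        LL a j v.1.1 (g 1) i‖ ≤ min (μ * rH) (min (μ / 2) 1) := fun j v hv g hg => by
    have h1 := hh.near _ (mem j v hv) g hg 1 one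
    simp only [ofReal_one, one_mul] at h1
    have h2 := hδ j (a, v.1.1, g 1) ⟨(a, v), ⟨ha1, hv⟩, by
      rw [te _ (ad j (a, v) ⟨ha1, hv⟩) g hg 1 one]⟩ (a, v.1.1, endN a n arc j v) (by
      simpa [Prod.dist_eq, dist_eq_norm, (hδ0 j).le, endN] using h1.trans (η5 j))
    rw [dist_eq_norm] at h2
    exact ⟨h2.1, fun i => (norm_le_pi_norm (_ - _) i).trans h2.2⟩
  refine ⟨η, S, _, enc, arc, ⟨by linarith, by linarith, η0, η1, η2, η3, η4⟩, hn, hh, fun j => ?_,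
    fun j v hv => ?_⟩
  · obtain ⟨U, V, -, hV, -, hd', hm⟩ := hh.hol
    refine hol hN hV hd' fun v hv => ⟨hP j (a, v) ⟨ha1, hv⟩, ?_, ?_⟩
    · simpa using (hm _ (mem j v hv)).2 1 one
    · obtain ⟨g, hg⟩ := (ad j (a, v) ⟨ha1, hv⟩).2.2.2.2.2.2.2.2
      exact (key j v hv g hg).1
  · obtain ⟨q1, q2, q3, q4, q5, q6, q7⟩ := hK a ha1 j v hv
    obtain ⟨g, hg⟩ := q6.2.2.2.2.2.2.2.2
    obtain ⟨⟨-, r0, r1, r2, r4, r5⟩, r6⟩ := q7 g hg
    obtain ⟨k1, k2⟩ := key j v hv g hg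
    have m1 : ∀ i, _ ≤ μ / 2 := fun i => (k2 i).trans ((min_le_right _ _).trans (min_le_left _ _))
    have tri : ∀ {x y z : ℂ} {s t : ℝ}, ‖x - y‖ ≤ s → ‖y - z‖ ≤ t → ‖x - z‖ ≤ s + t :=
      fun h h' => (norm_sub_le_norm_sub_add_norm_sub _ _ _).trans (add_le_add h h')
    refine ⟨mem j v hv, q1, q2, q3, q4, q5, k1, ?_, ?_, ?_, ?_, ?_, fun hr => ?_⟩
    · rw [sub_sub, ← r0]
      exact (k2 0).trans (min_le_left _ _)
    · rw [sub_sub, ← r1]
      exact (m1 1).trans (half_le_self hμ.le)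
    · have h : ‖UV (endN a n arc j v) - UV (g 1)‖ ≤ μ / 2 := norm_prod_le_iff.2 ⟨m1 2, m1 3⟩
      linarith [norm_sub_le_norm_sub_add_norm_sub (UV (endN a n arc j v)) (UV (g 1))
        (PP (sg j) v.1.1 v.1.2)]
    · exact (tri (m1 4) r4).trans_eq (add_halves μ)
    · exact (tri ((k2 5).trans ((min_le_right _ _).trans (min_le_right _ _))) r5).trans_eq
        (add_comm _ _)
    · obtain ⟨T, hT, t1, t2, t3, t4, t5, t6, t7⟩ := r6 hr
      exact ⟨T, g, hT, hT ▸ hg, t1, t2, t3, t4, t5, t6.trans (half_le_self hμ.le),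
        t7.trans (half_le_self hμ.le)⟩

end Pool.Agent.MP_1ba41f_an.S2.KP
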