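import Pool.Agent.MP_1ba41f_an.S2.SpecK
import Pool.Agent.MP_1ba41f_an.S2.FL.Spec

/-! Long Kepler arcs: definitions and statements of the rows. -/

noncomputable section
open Set Complex
open scoped ComplexConjugate

namespace Pool.Agent.MP_1ba41f_an.S2.KP

def cs (κ τ : ℂ) : ℂ := cos (κ * τ / 2)
def sn (κ τ : ℂ) : ℂ := if κ = 0 then τ else 2 * sin (κ * τ / 2) / κ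
/-- the time along a Kepler arc -/
def tk (κ r S τ : ℂ) : ℂ :=
  if κ = 0 then r * τ + S * τ ^ 2 / 2 + τ ^ 3 / 6
  else r * sin (κ * τ) / κ + S * (1 - cos (κ * τ)) / κ ^ 2 + (κ * τ - sin (κ * τ)) / κ ^ 3

/-- the two Kepler motions -/
def KS (κ2 κ3 : ℂ) (z : Az) (τ2 τ3 : ℂ) : Az :=
  ![z 0 * cs κ2 τ2 + z 2 * sn κ2 τ2 / 2, z 1 * cs κ2 τ2 + z 3 * sn κ2 τ2 / 2,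
    z 2 * cs κ2 τ2 - κ2 ^ 2 * z 0 * sn κ2 τ2 / 2, z 3 * cs κ2 τ2 - κ2 ^ 2 * z 1 * sn κ2 τ2 / 2,
    z 4 * cs κ3 τ3 + z 6 * sn κ3 τ3 / 2, z 5 * cs κ3 τ3 + z 7 * sn κ3 τ3 / 2,
    z 6 * cs κ3 τ3 - κ3 ^ 2 * z 4 * sn κ3 τ3 / 2, z 7 * cs κ3 τ3 - κ3 ^ 2 * z 5 * sn κ3 τ3 / 2,
    z 8 + tk κ2 (rr2 z) (aS2 z) τ2]

/-- state with two clocks and the two energies: `z, τ2, τ3, k2, k3` -/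
abbrev Ez : Type := Az × ℂ × ℂ × ℂ × ℂ

def XE (y : Ez) : Ez :=
  (X0 y.2.2.2.1 y.2.2.2.2 y.1, rr3 y.1 / nn y.1, rr2 y.1 / nn y.1, 0, 0)
def DE : Set Ez := {y | nn y.1 ≠ 0}
abbrev OE : Set (Ez × ℂ) := flowDom XE DE
abbrev FE : Ez × ℂ → Ez := flow XE DE
def st (z : Az) (k2 k3 : ℂ) : Ez := (z, 0, 0, k2, k3)
/-- the starting point of the limit arc -/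
def y0 (σ : ℝ) (x : ℂ × C2) : Ez := st (collB σ x.1 x.2) 1 0
/-- the energy relations -/
def Eng (κ2 κ3 : ℂ) (z : Az) : Prop :=
  z 2 * z 3 = 2 - κ2 ^ 2 * rr2 z ∧ z 6 * z 7 = 2 - κ3 ^ 2 * rr3 z
/-- equal times -/
def Sync (κ2 κ3 : ℂ) (z : Az) (τ2 τ3 : ℂ) : Prop :=
  tk κ2 (rr2 z) (aS2 z) τ2 = tk κ3 (rr3 z) (aS3 z) τ3
def RealE (y : Ez) : Prop :=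
  RealZ y.1 ∧ y.2.1.im = 0 ∧ y.2.2.1.im = 0 ∧ y.2.2.2.1.im = 0 ∧ y.2.2.2.2.im = 0
/-- the angle of the letter `j` in the limit -/
def g0 (j : Fin 3) (x : ℂ × C2) : ℂ := gj j x.1 (PP (sg j) x.1 x.2)

/-- data of a long arc -/
structure Dat (C ε ν0 : ℝ) (κ ν : ℂ) (z : Az) : Prop where
  one : 1 ≤ C
  bd : ‖z‖ ≤ C
  eng : Eng κ (1 / ν) z
  pos : 0 < ν0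
  big : 1 ≤ ε * ν0
  nu : ‖ν - ν0‖ ≤ ε
  ka : ν0 ^ 3 * ‖κ - 1‖ ≤ ε
  im : |(aS3 z).im| ≤ 1 / 8

/-- the barrier region for the clock of the third body -/
def Reg (ν0 : ℝ) (τ : ℂ) : Prop := -1 ≤ τ.re ∧ τ.re ≤ (Real.pi + 1 / 2) * ν0 ∧ |τ.im| ≤ 1 / 2

def FlowEStmt : Prop := IsFlow XE DE OE FE

/-- REALE: real points stay real. -/
def RealEStmt : Prop := ∀ (y : Ez) (s : ℝ), RealE y → (y, (s : ℂ)) ∈ OE → RealE (FE (y, (s : ℂ)))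

/-- REP: the flow in terms of the two clocks. -/
def RepStmt : Prop := ∀ (κ2 κ3 : ℂ) (z : Az) (ζ : ℂ), Eng κ2 κ3 z →
  (st z (κ2 ^ 2) (κ3 ^ 2), ζ) ∈ OE → ∃ τ2 τ3 : ℂ,
    FE (st z (κ2 ^ 2) (κ3 ^ 2), ζ) = (KS κ2 κ3 z τ2 τ3, τ2, τ3, κ2 ^ 2, κ3 ^ 2) ∧ τ2 + τ3 = ζ ∧
      Sync κ2 κ3 z τ2 τ3

/-- CONS: conserved quantities of the Kepler motions. -/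
def ConsStmt : Prop := ∀ (κ2 κ3 : ℂ) (z : Az), Eng κ2 κ3 z →
  Continuous (fun τ : ℂ × ℂ => KS κ2 κ3 z τ.1 τ.2) ∧ ∀ τ2 τ3 : ℂ,
    Eng κ2 κ3 (KS κ2 κ3 z τ2 τ3) ∧ aG2 (KS κ2 κ3 z τ2 τ3) = aG2 z ∧
    aG3 (KS κ2 κ3 z τ2 τ3) = aG3 z ∧
    aS2 z ^ 2 + aG2 z ^ 2 = rr2 z * (2 - κ2 ^ 2 * rr2 z) ∧
    aS3 z ^ 2 + aG3 z ^ 2 = rr3 z * (2 - κ3 ^ 2 * rr3 z) ∧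
    1 - κ3 ^ 2 * rr3 (KS κ2 κ3 z τ2 τ3) + I * κ3 * aS3 (KS κ2 κ3 z τ2 τ3) =
      (1 - κ3 ^ 2 * rr3 z + I * κ3 * aS3 z) * exp (I * (κ3 * τ3)) ∧
    1 - κ3 ^ 2 * rr3 (KS κ2 κ3 z τ2 τ3) - I * κ3 * aS3 (KS κ2 κ3 z τ2 τ3) =
      (1 - κ3 ^ 2 * rr3 z - I * κ3 * aS3 z) * exp (-(I * (κ3 * τ3))) ∧
    κ2 ^ 2 * tk κ2 (rr2 z) (aS2 z) τ2 = τ2 - aS2 (KS κ2 κ3 z τ2 τ3) + aS2 z ∧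
    κ3 ^ 2 * tk κ3 (rr3 z) (aS3 z) τ3 = τ3 - aS3 (KS κ2 κ3 z τ2 τ3) + aS3 z ∧
    (rr2 z ≠ 0 → rr3 z ≠ 0 → rr2 (KS κ2 κ3 z τ2 τ3) ≠ 0 → rr3 (KS κ2 κ3 z τ2 τ3) ≠ 0 →
      0 < κ2.re → kk2 z = κ2 ^ 2 ∧ kk3 z = κ3 ^ 2 ∧ sq (κ2 ^ 2) = κ2 ∧
        kk2 (KS κ2 κ3 z τ2 τ3) = κ2 ^ 2 ∧ kk3 (KS κ2 κ3 z τ2 τ3) = κ3 ^ 2 ∧
        ee3 (KS κ2 κ3 z τ2 τ3) = ee3 z ∧ hX (KS κ2 κ3 z τ2 τ3) = hX z ∧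
        UV (KS κ2 κ3 z τ2 τ3) = UV z ∧ Fh (KS κ2 κ3 z τ2 τ3) = Fh z * exp (I * (κ2 * τ2)))

/-- RMIN: a real state with angular momentum is away from the big body. -/
def RminStmt : Prop := ∀ (κ2 κ3 : ℂ) (z : Az), RealZ z → Eng κ2 κ3 z → 0 ≤ (κ2 ^ 2).re →
  0 ≤ (κ3 ^ 2).re → ‖aG2 z‖ ^ 2 ≤ 2 * ‖z 0‖ ^ 2 ∧ ‖aG3 z‖ ^ 2 ≤ 2 * ‖z 4‖ ^ 2

/-- BOOT: continuation along a complex segment with a barrier. -/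
def BootStmt : Prop := ∀ (E : Type) [NormedAddCommGroup E] [NormedSpace ℂ E] [NormedSpace ℝ E]
  [IsScalarTower ℝ ℂ E] (f : E → E) (U : Set E) (Ω : Set (E × ℂ)) (Φ : E × ℂ → E),
  IsFlow f U Ω Φ → ∀ (K A : Set E), IsCompact K → K ⊆ U → IsClosed A → ∀ (x : E) (τ : ℂ),
    ∀ u0 ∈ Icc (0 : ℝ) 1, (x, (u0 : ℂ) * τ) ∈ Ω → Φ (x, (u0 : ℂ) * τ) ∈ A →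
    (∀ u ∈ Icc u0 1, (x, (u : ℂ) * τ) ∈ Ω → Φ (x, (u : ℂ) * τ) ∈ A →
      Φ (x, (u : ℂ) * τ) ∈ K ∧ Φ (x, (u : ℂ) * τ) ∈ interior A) →
    ∀ u ∈ Icc u0 1, (x, (u : ℂ) * τ) ∈ Ω ∧ Φ (x, (u : ℂ) * τ) ∈ A

/-- CB: the collision state of the limit. -/
def CbStmt : Prop := ∀ σ : ℝ, σ = 1 ∨ σ = -1 →
  ContinuousOn (fun x : ℂ × C2 => collB σ x.1 x.2) {x | OkM x.1 x.2 ∧ 0 < x.2.1.re} ∧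
  ∀ x ∈ B1, RealZ (collB σ x.1 x.2) ∧ Eng 1 0 (collB σ x.1 x.2) ∧ nn (collB σ x.1 x.2) ≠ 0 ∧
    dd (collB σ x.1 x.2) = 0 ∧ ddt (collB σ x.1 x.2) = 0 ∧ FL.dD (collB σ x.1 x.2) ≠ 0 ∧
    FL.dDt (collB σ x.1 x.2) ≠ 0 ∧ ∀ τ2 τ3 : ℂ,
      KS 1 0 (collB σ x.1 x.2) τ2 τ3 0 = w2b σ x.1 x.2 τ2 ∧
      KS 1 0 (collB σ x.1 x.2) τ2 τ3 4 = w3b σ x.1 x.2 τ3 ∧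
      (Sync 1 0 (collB σ x.1 x.2) τ2 τ3 ↔ t2b σ x.1 x.2 τ2 = t3b σ x.1 x.2 τ3)

/-- LIM: the real arcs of the limit. -/
def LimStmt : Prop := ∀ x ∈ B1, ∀ σ : ℝ, σ = 1 ∨ σ = -1 → ∀ s : ℝ, 0 ≤ s →
  (y0 σ x, (s : ℂ)) ∈ OE ∧ ∃ τ2 τ3 : ℝ, 0 ≤ τ2 ∧ 0 ≤ τ3 ∧ τ2 + τ3 = s ∧
    t2b σ x.1 x.2 τ2 = t3b σ x.1 x.2 τ3 ∧ (FE (y0 σ x, (s : ℂ))).2.2.1 = τ3 ∧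
    (FE (y0 σ x, (s : ℂ))).1 0 = w2b σ x.1 x.2 τ2 ∧ (FE (y0 σ x, (s : ℂ))).1 4 = w3b σ x.1 x.2 τ3 ∧
    (0 < s → dd (FE (y0 σ x, (s : ℂ))).1 ≠ 0 ∧ ddt (FE (y0 σ x, (s : ℂ))).1 ≠ 0)

/-- P1: bounded times, near the limit. -/
def P1Stmt : Prop := ∀ σs e : ℝ, 0 < e → ∃ d > 0, ∀ x ∈ B1, ∀ σ : ℝ, σ = 1 ∨ σ = -1 → ∀ y : Ez,
  ‖y - y0 σ x‖ ≤ d → ∀ s ∈ Icc (0 : ℝ) σs, ∀ ζ : ℂ, ‖ζ - s‖ ≤ d →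
    (y, ζ) ∈ OE ∧ ‖FE (y, ζ) - FE (y0 σ x, (s : ℂ))‖ ≤ e

/-- S1: small times. -/
def S1Stmt : Prop := ∃ (d0 c0 : ℝ) (s1 : ℝ → ℝ), 0 < d0 ∧ 0 < c0 ∧ (∀ e, 0 < e → 0 < s1 e) ∧
  ∀ x ∈ B1, ∀ σ : ℝ, σ = 1 ∨ σ = -1 → ∀ y : Ez, ‖y - y0 σ x‖ ≤ d0 →
    c0 ≤ ‖FL.dD y.1‖ ∧ ‖FL.dD y.1‖ ≤ 1 / c0 ∧ c0 ≤ ‖FL.dDt y.1‖ ∧
    ∀ e : ℝ, 0 < e → ∀ ζ : ℂ, ‖ζ‖ ≤ s1 e → (y, ζ) ∈ OE ∧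
      ‖dd (FE (y, ζ)).1 - dd y.1 - ζ * FL.dD y.1‖ ≤ e * ‖ζ‖ ∧
      ‖ddt (FE (y, ζ)).1 - ddt y.1 - ζ * FL.dDt y.1‖ ≤ e * ‖ζ‖

/-- P1D: no second collision of the small bodies in bounded time. -/
def P1DStmt : Prop := ∀ σs : ℝ, ∃ d > 0, ∀ x ∈ B1, ∀ σ : ℝ, σ = 1 ∨ σ = -1 → ∀ y : Ez,
  ‖y - y0 σ x‖ ≤ d → dd y.1 = 0 → ddt y.1 = 0 → ∀ s ∈ Icc (0 : ℝ) σs, ∀ ζ : ℂ, ‖ζ - s‖ ≤ d →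
    ζ ≠ 0 → dd (FE (y, ζ)).1 ≠ 0 ∧ ddt (FE (y, ζ)).1 ≠ 0

/-- BODY2: the second body stays bounded and its time is close to its clock. -/
def Body2Stmt : Prop := ∀ (C : ℝ) (κ τ w p r S : ℂ), 1 ≤ C → ‖κ - 1‖ * (‖τ‖ + 1) ≤ 1 / 4 →
  |τ.im| ≤ 1 → (‖w‖ ≤ C → ‖p‖ ≤ C → ‖w * cs κ τ + p * sn κ τ / 2‖ ≤ 9 * C) ∧
    (‖r‖ ≤ C → ‖S‖ ≤ C → ‖tk κ r S τ - τ‖ ≤ 100 * C)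

/-- T3: the third body. -/
def T3Stmt : Prop :=
  (∀ (ν0 ε a b C : ℝ) (ν r S : ℂ), 1 ≤ ν0 → ε ≤ 1 / 20 → ‖ν - ν0‖ ≤ ε → 1 ≤ C → ‖r‖ ≤ C →
    ‖S‖ ≤ C → 1 ≤ a → a ≤ (Real.pi + 1 / 2) * ν0 → |b| ≤ 1 / 2 →
    ‖tk (1 / ν) r S (a + b * I) - ((ν0 ^ 3 * (a / ν0 - Real.sin (a / ν0)) : ℝ) +
        (S + b * I) * (ν0 ^ 2 * (1 - Real.cos (a / ν0)) : ℝ))‖ ≤ 100 * C * (ε * a ^ 2 + a) ∧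
      ‖(a + b * I) / ν - (a / ν0 : ℝ)‖ ≤ 1 / ν0 ∧
      a / 10 - 2 ≤ ‖sn (1 / ν) (a + b * I) / 2‖ ∧ ‖cs (1 / ν) (a + b * I)‖ ≤ 3 ∧
      a ^ 2 / 20 ≤ ν0 ^ 2 * (1 - Real.cos (a / ν0)) ∧
      ν0 ^ 2 * (1 - Real.cos (a / ν0)) ≤ a ^ 2 / 2) ∧
  ∀ ν r S τ : ℂ, ν ≠ 0 → ‖τ‖ ≤ ‖ν‖ →
    ‖tk (1 / ν) r S τ‖ ≤ 2 * ‖r‖ * ‖τ‖ + ‖S‖ * ‖τ‖ ^ 2 + ‖τ‖ ^ 3

/-- BAR: the barrier for large times. -/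
def BarStmt : Prop := ∀ C : ℝ, 1 ≤ C → ∃ σs > 0, ∃ ε0 > 0, ∀ (ε ν0 : ℝ) (κ ν : ℂ) (z : Az),
  ε ≤ ε0 → Dat C ε ν0 κ ν z → ∀ τ2 τ3 : ℂ, Sync κ (1 / ν) z τ2 τ3 → σs ≤ (τ2 + τ3).re →
    (τ2 + τ3).re ≤ (Real.pi + 1 / 4) * ν0 ^ 3 → |(τ2 + τ3).im| ≤ 1 / 4 → Reg ν0 τ3 →
    (1 < τ3.re ∧ τ3.re < (Real.pi + 1 / 2) * ν0 ∧ |τ3.im| < 1 / 2) ∧
      ‖KS κ (1 / ν) z τ2 τ3 0‖ + 1 ≤ ‖KS κ (1 / ν) z τ2 τ3 4‖ ∧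
      ‖KS κ (1 / ν) z τ2 τ3 1‖ + 1 ≤ ‖KS κ (1 / ν) z τ2 τ3 5‖

/-- the phase of the third body seen from the far point -/
def fa (ν : ℂ) (z z' : Az) : ℂ :=
  -(1 - (1 / ν) ^ 2 * rr3 z' + I * (1 / ν) * aS3 z') / sq (1 - (1 / ν) ^ 2 * aG3 z ^ 2)

/-- E3S: the eccentric anomaly of the third body at the start. -/
def E3Stmt : Prop := ∀ C : ℝ, 1 ≤ C → ∃ B > 0, ∃ ε0 > 0, ∀ κ r S G : ℂ, κ ≠ 0 → ‖κ‖ ≤ ε0 →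
  ‖r‖ ≤ C → ‖S‖ ≤ C → ‖G‖ ≤ C → S ^ 2 + G ^ 2 = r * (2 - κ ^ 2 * r) →
    0 < (1 - κ ^ 2 * G ^ 2).re ∧ ‖sq (1 - κ ^ 2 * G ^ 2) - 1‖ ≤ B * ‖κ‖ ^ 2 ∧ ∃ E : ℂ,
      1 - κ ^ 2 * r + I * κ * S = sq (1 - κ ^ 2 * G ^ 2) * exp (I * E) ∧
      1 - κ ^ 2 * r - I * κ * S = sq (1 - κ ^ 2 * G ^ 2) * exp (-(I * E)) ∧
      ‖E‖ ≤ B * ‖κ‖ ∧ ‖E - κ * S‖ ≤ B * ‖κ‖ ^ 3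

/-- END: the third body is at the far point at the end of the arc. -/
def EndStmt : Prop := ∀ C : ℝ, 1 ≤ C → ∃ B > 0, ∀ η : ℝ, 0 < η → ∃ ε0 > 0,
  ∀ (ε ν0 : ℝ) (κ ν : ℂ) (z : Az), ε ≤ ε0 → Dat C ε ν0 κ ν z → ∀ τ2 τ3 β : ℂ, ‖β‖ ≤ 3 * C →
    Sync κ (1 / ν) z τ2 τ3 → τ2 + τ3 = Real.pi * ν0 ^ 3 + Real.pi * ν + β →
    |(τ2 + τ3).im| ≤ 1 / 4 → Reg ν0 τ3 → 1 ≤ τ3.re →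
    0 < (1 - (1 / ν) ^ 2 * aG3 z ^ 2).re ∧ 0 < (fa ν z (KS κ (1 / ν) z τ2 τ3)).re ∧
      ‖-I * log (fa ν z (KS κ (1 / ν) z τ2 τ3)) * ν‖ ≤ η ∧ ‖τ3 - Real.pi * ν + aS3 z‖ ≤ η ∧
      ‖(-I * log (fa ν z (KS κ (1 / ν) z τ2 τ3)) - 1 / ν * aS3 (KS κ (1 / ν) z τ2 τ3)) * ν ^ 3 -
        (tk (1 / ν) (rr3 z) (aS3 z) τ3 - Real.pi * ν ^ 3)‖ ≤ B

/-- FIN: the matched quantities at the end of the arc. -/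
def FinStmt : Prop := ∀ C : ℝ, 1 ≤ C → ∃ B > 0, ∀ μ : ℝ, 0 < μ → ∃ ε0 > 0,
  ∀ (ε ν0 : ℝ) (κ2 ν : ℂ) (z : Az), ε ≤ ε0 → Dat C ε ν0 κ2 ν z →
  ∀ (m : ℕ) (j : Fin 3) (κ γ S0 dT τ2 τ3 : ℂ), ν0 ^ 3 = 4 * m → 0 < ((1 / ν) ^ 2).re →
    sq ((1 / ν) ^ 2) = 1 / ν → rr2 z ≠ 0 → rr3 z ≠ 0 → 1 - hX z ≠ 0 →
    1 + sq (kk2 z) * aG2 z ≠ 0 → OkZ κ (UV z) →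
    ‖Fh z / mid j κ (UV z) * exp (I * γ) - 1‖ ≤ ε → ‖aS3 z - S0‖ ≤ ε → ‖γ‖ ≤ C → ‖S0‖ ≤ C →
    ‖dT‖ ≤ 1 / 4 → τ2 + τ3 = Real.pi * ν0 ^ 3 + γ + Real.pi * ν - S0 + dT →
    |(τ2 + τ3).im| ≤ 1 / 4 → Sync κ2 (1 / ν) z τ2 τ3 → Reg ν0 τ3 → 1 ≤ τ3.re →
    KS κ2 (1 / ν) z τ2 τ3 4 ≠ 0 → KS κ2 (1 / ν) z τ2 τ3 5 ≠ 0 →
    ‖κ2 * τ2 - Real.pi * ν0 ^ 3 - γ - dT‖ ≤ μ ∧ 2 ≤ (tk κ2 (rr2 z) (aS2 z) τ2).re ∧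
      (KS κ2 (1 / ν) z τ2 τ3 0 ≠ 0 → KS κ2 (1 / ν) z τ2 τ3 1 ≠ 0 →
        OkA j κ (KS κ2 (1 / ν) z τ2 τ3) ∧ kk2 (KS κ2 (1 / ν) z τ2 τ3) = κ2 ^ 2 ∧
        kk3 (KS κ2 (1 / ν) z τ2 τ3) = (1 / ν) ^ 2 ∧ LK (KS κ2 (1 / ν) z τ2 τ3) = ν ^ 3 ∧
        UV (KS κ2 (1 / ν) z τ2 τ3) = UV z ∧
        ‖LS (mid j κ (UV z)) (KS κ2 (1 / ν) z τ2 τ3) - dT‖ ≤ μ ∧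
        ‖LP (mid j κ (UV z)) (KS κ2 (1 / ν) z τ2 τ3) - Real.pi * (ν ^ 3 - ν0 ^ 3)‖ ≤ B)

/-- LONG: existence of the long arcs. -/
def LongStmt : Prop := ∀ C : ℝ, 1 ≤ C → ∃ d > 0, ∃ ε0 > 0, ∀ x ∈ B1, ∀ σ : ℝ, σ = 1 ∨ σ = -1 →
  ∀ (ε ν0 : ℝ) (κ ν : ℂ) (z : Az), ε ≤ ε0 → Dat C ε ν0 κ ν z → ‖z - collB σ x.1 x.2‖ ≤ d →
    dd z = 0 → ddt z = 0 → ∀ T : ℂ, ν0 ^ 3 ≤ T.re → T.re ≤ (Real.pi + 1 / 4) * ν0 ^ 3 →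
    |T.im| ≤ 1 / 4 →
    (∀ u ∈ Icc (0 : ℝ) 1, (st z (κ ^ 2) ((1 / ν) ^ 2), (u : ℂ) * T) ∈ OE ∧ (0 < u →
      dd (FE (st z (κ ^ 2) ((1 / ν) ^ 2), (u : ℂ) * T)).1 ≠ 0 ∧
      ddt (FE (st z (κ ^ 2) ((1 / ν) ^ 2), (u : ℂ) * T)).1 ≠ 0)) ∧
    Reg ν0 (FE (st z (κ ^ 2) ((1 / ν) ^ 2), T)).2.2.1 ∧
    1 ≤ (FE (st z (κ ^ 2) ((1 / ν) ^ 2), T)).2.2.1.re ∧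
    (FE (st z (κ ^ 2) ((1 / ν) ^ 2), T)).1 4 ≠ 0 ∧ (FE (st z (κ ^ 2) ((1 / ν) ^ 2), T)).1 5 ≠ 0

/-- NU: cube roots. -/
def NuStmt : Prop := ∀ R ε : ℝ, 0 < ε → ∃ N : ℕ, ∀ n : ℕ, N ≤ n → 2 * R < n ∧ ∃ ν0 : ℝ, 0 < ν0 ∧
  ν0 ^ 3 = n ∧ 1 ≤ ε * ν0 ∧ nu n 0 = ν0 ∧ ∀ t : ℂ, ‖t‖ ≤ R → nu n t ^ 3 = n + t ∧
    ‖nu n t - ν0‖ ≤ ε ∧ 0 < ((1 / nu n t) ^ 2).re ∧ sq ((1 / nu n t) ^ 2) = 1 / nu n t ∧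
    ‖1 / nu n t ^ 2‖ ≤ ε ∧ (n : ℝ) * ‖1 / (ν0 : ℂ) ^ 2 - 1 / nu n t ^ 2‖ ≤ ε ∧
    (t.im = 0 → (nu n t).im = 0)

/-- NEAR: a complex neighbourhood of the resonant circles. -/
def NearStmt : Prop := ∃ d0 > 0, ∃ C : ℝ, 1 ≤ C ∧
  (∀ x ∈ Metric.cthickening d0 B1, OkM x.1 x.2 ∧ OkZ x.1 (PP 1 x.1 x.2) ∧
    OkZ x.1 (PP (-1) x.1 x.2) ∧ OkX (5 / 8) (yB x) ∧ 1 / 40 ≤ x.2.1.re ∧ 1 / 4 ≤ x.1.re ∧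
    ∀ j, ‖collB (sg j) x.1 x.2‖ + 1 ≤ C ∧ ‖g0 j x‖ ≤ C ∧ ‖bS (sg j) x.1 x.2‖ ≤ C ∧
      |(g0 j x).im| ≤ 1 / 20 ∧ |(bS (sg j) x.1 x.2).im| ≤ 1 / 20) ∧
  ∀ μ : ℝ, 0 < μ → ∃ δ > 0, ∀ x ∈ Metric.cthickening d0 B1, ∀ (a : ℝ) (y : Fin 6 → ℂ),
    |a - 5 / 8| ≤ δ → ‖y - yB x‖ ≤ δ → OkX a y ∧ Sec (y 2) ∧ Sec (e2 a y) ∧
      ∀ σ : ℝ, σ = 1 ∨ σ = -1 → ‖xiY a σ y - xiB σ x.1 x.2‖ ≤ μ ∧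
        ‖coll a (xiY a σ y) - collB σ x.1 x.2‖ ≤ μ ∧
        Sec (xiY a σ y 4 / xiY a σ y 5 + xiY a σ y 5 / xiY a σ y 4)

/-- MOD: moduli of continuity at the resonant circles, and two margins. -/
def ModStmt : Prop :=
  (∀ e : ℝ, 0 < e → ∃ d > 0, ∀ x0 ∈ B1, ∀ x : ℂ × C2, dist x x0 ≤ d → ∀ j,
    ‖collB (sg j) x.1 x.2 - collB (sg j) x0.1 x0.2‖ ≤ e ∧ ‖g0 j x - g0 j x0‖ ≤ e) ∧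
  (∃ d > 0, ∀ x0 ∈ B1, ∀ (j : Fin 3) (z : Az) (κ θ : ℂ), ‖z - collB (sg j) x0.1 x0.2‖ ≤ d →
    ‖κ - 1‖ ≤ d → ‖θ - g0 j x0‖ ≤ d → z 0 * cos (θ / 2) + z 2 * sin (θ / 2) / κ ≠ 0 ∧
      z 1 * cos (θ / 2) + z 3 * sin (θ / 2) / κ ≠ 0) ∧
  ∃ c1 > 0, ∃ d > 0, ∀ x0 ∈ B1, ∀ σ : ℝ, σ = 1 ∨ σ = -1 → ∀ z : Az, ‖x0.2.2‖ ≤ 2 * c1 →
    ‖z - collB σ x0.1 x0.2‖ ≤ d → 2 * c1 ≤ ‖aG2 z‖ ∧ 2 * c1 ≤ ‖aG3 z‖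

/-- NEAR2: the conserved quantities near the collision states of the limit. -/
def Near2Stmt : Prop := ∀ K : Set (ℂ × C2), IsCompact K →
  (∀ x ∈ K, OkM x.1 x.2 ∧ 0 < x.2.1.re ∧ OkZ x.1 (PP 1 x.1 x.2) ∧ OkZ x.1 (PP (-1) x.1 x.2)) →
  ∀ μ : ℝ, 0 < μ → ∃ δ > 0, ∀ x ∈ K, ∀ (j : Fin 3) (z : Az), ‖z - collB (sg j) x.1 x.2‖ ≤ δ →
    rr2 z ≠ 0 ∧ rr3 z ≠ 0 ∧ 1 - hX z ≠ 0 ∧ 1 + sq (kk2 z) * aG2 z ≠ 0 ∧ OkZ x.1 (UV z) ∧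
    ‖UV z - PP (sg j) x.1 x.2‖ ≤ μ ∧ ‖Fh z / mid j x.1 (UV z) * exp (I * g0 j x) - 1‖ ≤ μ ∧
    ‖aS3 z - bS (sg j) x.1 x.2‖ ≤ μ

end Pool.Agent.MP_1ba41f_an.S2.KP
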